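import Mathlib

/-!
# The contents of `a`, `ab`, `a ^ b * b`

The content of `n` is the greatest common divisor of the exponents in its factorisation. For multiplicatively
independent `a, b` the product of the contents of `a`, `ab` and `a ^ b * b` is at most `b ^ 6 * log₂ a`.
-/

namespace PRF2

/-- the content: the greatest common divisor of the exponents in the factorisation -/
def G (n : ℕ) : ℕ := n.primeFactors.gcd fun p => n.factorization p

theorem G_dvd (n p : ℕ) : G n ∣ n.factorization p := by
  by_cases hp : p ∈ n.primeFactors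
  · exact Finset.gcd_dvd hp
  · have h : n.factorization p = 0 := by
      rw [← Nat.support_factorization, Finsupp.notMem_support_iff] at hp
      exact hp
    rw [h]
    exact dvd_zero _

theorem dvd_G {n d : ℕ} (h : ∀ p, d ∣ n.factorization p) : d ∣ G n :=
  Finset.dvd_gcd fun p _ => h p

theorem minFac_val {n : ℕ} (hn : 2 ≤ n) : 0 < n.factorization n.minFac :=
  (Nat.minFac_prime (show n ≠ 1 by omega)).factorization_pos_of_dvd (by omega) (Nat.minFac_dvd n)

theorem G_pos {n : ℕ} (hn : 2 ≤ n) : 0 < G n :=
  Nat.pos_of_dvd_of_pos (G_dvd n n.minFac) (minFac_val hn)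

theorem val_le_log (n p : ℕ) (hn : n ≠ 0) : n.factorization p ≤ Nat.log 2 n := by
  by_cases hp : p.Prime
  · apply (Nat.le_log_iff_pow_le (by norm_num) hn).mpr
    calc 2 ^ n.factorization p ≤ p ^ n.factorization p := Nat.pow_le_pow_left hp.two_le _
      _ ≤ n := Nat.ordProj_le p hn
  · rw [Nat.factorization_eq_zero_of_not_prime _ hp]
    exact Nat.zero_le _

theorem G_le_log {n : ℕ} (hn : 2 ≤ n) : G n ≤ Nat.log 2 n :=
  (Nat.le_of_dvd (minFac_val hn) (G_dvd n n.minFac)).trans (val_le_log n _ (by omega))

theorem dvd_G_pow {n m s : ℕ} (h : n = s ^ m) : m ∣ G n := by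
  apply dvd_G
  intro p
  rw [h, Nat.factorization_pow]
  exact ⟨s.factorization p, rfl⟩

/-- if all minors vanish, then the numbers are dependent -/
theorem minor {a b : ℕ} (ha : 2 ≤ a) (hb : 2 ≤ b) (hind : ¬ ∃ s t : ℕ, 0 < t ∧ a ^ t = b ^ s) :
    ∃ q q' : ℕ, a.factorization q * b.factorization q' ≠ a.factorization q' * b.factorization q := by
  by_contra hcon
  push Not at hcon
  apply hind
  refine ⟨a.factorization b.minFac, b.factorization b.minFac, minFac_val hb, ?_⟩
  apply Nat.eq_of_factorization_eq (pow_ne_zero _ (by omega)) (pow_ne_zero _ (by omega))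
  intro q
  rw [Nat.factorization_pow, Nat.factorization_pow]
  simp only [Finsupp.smul_apply, smul_eq_mul]
  have := hcon q b.minFac
  linarith

theorem contents {a b : ℕ} (ha : 2 ≤ a) (hb : 2 ≤ b) (hind : ¬ ∃ s t : ℕ, 0 < t ∧ a ^ t = b ^ s) :
    G a * G (a * b) * G (a ^ b * b) ≤ b ^ 6 * Nat.log 2 a := by
  obtain ⟨q, q', hqq⟩ := minor ha hb hind
  have ha0 : a ≠ 0 := by omega
  have hb0 : b ≠ 0 := by omega
  have f1 : ∀ p, (a * b).factorization p = a.factorization p + b.factorization p := by
    intro p
    rw [Nat.factorization_mul ha0 hb0]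
    rfl
  have f2 : ∀ p, (a ^ b * b).factorization p = b * a.factorization p + b.factorization p := by
    intro p
    rw [Nat.factorization_mul (pow_ne_zero _ ha0) hb0, Nat.factorization_pow]
    rfl
  set D : ℕ := ((a.factorization q : ℤ) * b.factorization q' -
    a.factorization q' * b.factorization q).natAbs with hD
  have hD0 : 0 < D := by
    rw [hD, Int.natAbs_pos]
    intro h
    apply hqq
    have h1 : (a.factorization q : ℤ) * b.factorization q' =
      a.factorization q' * b.factorization q := by linarith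
    exact_mod_cast h1
  have hDle : D ≤ Nat.log 2 a * b := by
    have hlb : ∀ p, b.factorization p ≤ b := fun p =>
      (val_le_log b p hb0).trans (Nat.log_le_self 2 b)
    have h1 : a.factorization q * b.factorization q' ≤ Nat.log 2 a * b :=
      Nat.mul_le_mul (val_le_log a q ha0) (hlb q')
    have h2 : a.factorization q' * b.factorization q ≤ Nat.log 2 a * b :=
      Nat.mul_le_mul (val_le_log a q' ha0) (hlb q)
    zify at h1 h2 ⊢
    rw [hD, Int.natCast_natAbs, abs_le]
    have h3 : (0:ℤ) ≤ (a.factorization q : ℤ) * b.factorization q' := by positivity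
    have h4 : (0:ℤ) ≤ (a.factorization q' : ℤ) * b.factorization q := by positivity
    constructor <;> linarith
  -- divisibility of the minor
  have d1 : G a ∣ D := by
    rw [hD, ← Int.natCast_dvd]
    have e1 : (G a : ℤ) ∣ a.factorization q := by exact_mod_cast G_dvd a q
    have e2 : (G a : ℤ) ∣ a.factorization q' := by exact_mod_cast G_dvd a q'
    exact dvd_sub (e1.mul_right _) (e2.mul_right _)
  have d2 : G (a * b) ∣ D := by
    rw [hD, ← Int.natCast_dvd]
    have e1 : (G (a * b) : ℤ) ∣ a.factorization q + b.factorization q := by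
      have := G_dvd (a * b) q
      rw [f1] at this
      exact_mod_cast this
    have e2 : (G (a * b) : ℤ) ∣ a.factorization q' + b.factorization q' := by
      have := G_dvd (a * b) q'
      rw [f1] at this
      exact_mod_cast this
    have e3 : (a.factorization q : ℤ) * b.factorization q' - a.factorization q' * b.factorization q =
      (a.factorization q + b.factorization q) * b.factorization q' -
      (a.factorization q' + b.factorization q') * b.factorization q := by ring
    rw [e3]
    exact dvd_sub (e1.mul_right _) (e2.mul_right _)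
  have d3 : G (a ^ b * b) ∣ b * D := by
    have e0 : b * D = ((b:ℤ) * ((a.factorization q : ℤ) * b.factorization q' -
        a.factorization q' * b.factorization q)).natAbs := by
      rw [Int.natAbs_mul, hD, Int.natAbs_natCast]
    rw [e0, ← Int.natCast_dvd]
    have e1 : (G (a ^ b * b) : ℤ) ∣ b * a.factorization q + b.factorization q := by
      have := G_dvd (a ^ b * b) q
      rw [f2] at this
      exact_mod_cast this
    have e2 : (G (a ^ b * b) : ℤ) ∣ b * a.factorization q' + b.factorization q' := by
      have := G_dvd (a ^ b * b) q'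
      rw [f2] at this
      exact_mod_cast this
    have e3 : (b:ℤ) * ((a.factorization q : ℤ) * b.factorization q' -
        a.factorization q' * b.factorization q) =
      (b * a.factorization q + b.factorization q) * b.factorization q' -
      (b * a.factorization q' + b.factorization q') * b.factorization q := by ring
    rw [e3]
    exact dvd_sub (e1.mul_right _) (e2.mul_right _)
  -- common divisors
  set p := b.minFac
  have hbp : 0 < b.factorization p := minFac_val hb
  have hbp' : b.factorization p ≤ b := (val_le_log b p hb0).trans (Nat.log_le_self 2 b)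
  have g1 : Nat.gcd (G a) (G (a * b)) ≤ b := by
    refine (Nat.le_of_dvd hbp ?_).trans hbp'
    have e1 : Nat.gcd (G a) (G (a * b)) ∣ a.factorization p := (Nat.gcd_dvd_left _ _).trans (G_dvd _ _)
    have e2 : Nat.gcd (G a) (G (a * b)) ∣ a.factorization p + b.factorization p := by
      rw [← f1]
      exact (Nat.gcd_dvd_right _ _).trans (G_dvd _ _)
    exact (Nat.dvd_add_right e1).mp e2
  have g2 : Nat.gcd (G a) (G (a ^ b * b)) ≤ b := by
    refine (Nat.le_of_dvd hbp ?_).trans hbp'
    have e1 : Nat.gcd (G a) (G (a ^ b * b)) ∣ b * a.factorization p :=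
      ((Nat.gcd_dvd_left _ _).trans (G_dvd _ _)).mul_left _
    have e2 : Nat.gcd (G a) (G (a ^ b * b)) ∣ b * a.factorization p + b.factorization p := by
      rw [← f2]
      exact (Nat.gcd_dvd_right _ _).trans (G_dvd _ _)
    exact (Nat.dvd_add_right e1).mp e2
  have g3 : Nat.gcd (G (a * b)) (G (a ^ b * b)) ≤ b * b := by
    obtain ⟨c, rfl⟩ : ∃ c, b = c + 1 := ⟨b - 1, by omega⟩
    have e1 : Nat.gcd (G (a * (c + 1))) (G (a ^ (c + 1) * (c + 1))) ∣
        (c + 1) * (a.factorization p + (c + 1).factorization p) := by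
      rw [← f1]
      exact ((Nat.gcd_dvd_left _ _).trans (G_dvd _ _)).mul_left _
    have e2 : Nat.gcd (G (a * (c + 1))) (G (a ^ (c + 1) * (c + 1))) ∣
        (c + 1) * a.factorization p + (c + 1).factorization p := by
      rw [← f2]
      exact (Nat.gcd_dvd_right _ _).trans (G_dvd _ _)
    have e3 : (c + 1) * (a.factorization p + (c + 1).factorization p) =
      ((c + 1) * a.factorization p + (c + 1).factorization p) + c * (c + 1).factorization p := by ring
    rw [e3] at e1
    have e4 := (Nat.dvd_add_right e2).mp e1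
    refine (Nat.le_of_dvd (Nat.mul_pos (by omega) hbp) e4).trans ?_
    exact Nat.mul_le_mul (by omega) hbp'
  -- the product
  have hL : Nat.lcm (Nat.lcm (G a) (G (a * b))) (G (a ^ b * b)) ≤ b * D := by
    apply Nat.le_of_dvd (Nat.mul_pos (by omega) hD0)
    exact Nat.lcm_dvd (Nat.lcm_dvd (d1.mul_left _) (d2.mul_left _)) d3
  have hg : Nat.gcd (Nat.lcm (G a) (G (a * b))) (G (a ^ b * b)) ≤ b * (b * b) := by
    have e1 : Nat.gcd (Nat.lcm (G a) (G (a * b))) (G (a ^ b * b)) ∣
        Nat.gcd (G a * G (a * b)) (G (a ^ b * b)) :=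
      Nat.gcd_dvd_gcd_of_dvd_left _ (Nat.lcm_dvd (Dvd.intro _ rfl) (Dvd.intro_left _ rfl))
    have hpos : 0 < G (a ^ b * b) := G_pos (by
      have : 1 ≤ a ^ b := Nat.one_le_pow _ _ (by omega)
      calc 2 ≤ b := hb
        _ = 1 * b := (one_mul b).symm
        _ ≤ a ^ b * b := Nat.mul_le_mul_right b this)
    have e2 : Nat.gcd (G a * G (a * b)) (G (a ^ b * b)) ∣
        Nat.gcd (G a) (G (a ^ b * b)) * Nat.gcd (G (a * b)) (G (a ^ b * b)) := by
      have := Nat.gcd_mul_right_dvd_mul_gcd (G (a ^ b * b)) (G a) (G (a * b))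
      rwa [Nat.gcd_comm, Nat.gcd_comm (G (a ^ b * b)) (G a), Nat.gcd_comm (G (a ^ b * b)) (G (a * b))] at this
    refine (Nat.le_of_dvd ?_ (e1.trans e2)).trans (Nat.mul_le_mul g2 g3)
    exact Nat.mul_pos (Nat.gcd_pos_of_pos_right _ hpos) (Nat.gcd_pos_of_pos_right _ hpos)
  calc G a * G (a * b) * G (a ^ b * b)
      = Nat.gcd (G a) (G (a * b)) * (Nat.gcd (Nat.lcm (G a) (G (a * b))) (G (a ^ b * b)) *
        Nat.lcm (Nat.lcm (G a) (G (a * b))) (G (a ^ b * b))) := by
        rw [Nat.gcd_mul_lcm, ← mul_assoc, Nat.gcd_mul_lcm]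
    _ ≤ b * ((b * (b * b)) * (b * (Nat.log 2 a * b))) := by
        gcongr
        exact hL.trans (Nat.mul_le_mul_left b hDle)
    _ = b ^ 6 * Nat.log 2 a := by ring

end PRF2
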