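import Mathlib
import Pool.Agent.PRF2.Content
import Pool.Agent.PRF.TGap2

/-!
# Size of the contents in a monochromatic pattern
-/

namespace PRF2

open PRF.TGap

theorem le_tower_mul (j : ℕ) {n : ℕ} (hn : 1 ≤ n) : 2 ^ j * n ≤ tower j n := by
  induction j with
  | zero => rw [pow_zero, one_mul]; exact le_rfl
  | succ j ih =>
    have h1 : 2 * (2 ^ j * n) ≤ 2 ^ (2 ^ j * n) := by
      have h2 : 0 < 2 ^ j * n := by positivity
      obtain ⟨u, hu⟩ := Nat.exists_eq_add_of_le' h2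
      rw [hu]
      have := Nat.lt_two_pow_self (n := u)
      rw [pow_succ]
      omega
    calc 2 ^ (j + 1) * n = 2 * (2 ^ j * n) := by ring
      _ ≤ 2 ^ (2 ^ j * n) := h1
      _ ≤ 2 ^ tower j n := Nat.pow_le_pow_right (by norm_num) ih

theorem half_le_log_two : (1:ℝ) / 2 ≤ Real.log 2 := by
  have := Real.log_two_gt_d9
  linarith

theorem log_two_le_one : Real.log 2 ≤ 1 := by
  have := Real.log_two_lt_d9
  linarith

theorem loglog {a t : ℕ} (h : 2 ^ 2 ^ t < a) : (t:ℝ) / 2 - 1 ≤ Real.log (Real.log a) := by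
  have h2 : (0:ℝ) < Real.log 2 := by linarith [half_le_log_two]
  have h1 : (2:ℝ) ^ t * Real.log 2 ≤ Real.log a := by
    have h3 : Real.log ((2:ℝ) ^ (2 ^ t)) = (2:ℝ) ^ t * Real.log 2 := by
      rw [Real.log_pow]
      push_cast
      ring
    rw [← h3]
    apply Real.log_le_log (by positivity)
    exact_mod_cast h.le
  have h4 : Real.log ((2:ℝ) ^ t * Real.log 2) ≤ Real.log (Real.log a) :=
    Real.log_le_log (by positivity) h1
  rw [Real.log_mul (by positivity) (by positivity), Real.log_pow] at h4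
  have h5 : -1 ≤ Real.log (Real.log 2) := by
    have h6 : Real.log (1 / 2) ≤ Real.log (Real.log 2) :=
      Real.log_le_log (by norm_num) half_le_log_two
    rw [one_div, Real.log_inv] at h6
    linarith [log_two_le_one]
  have h7 : (t:ℝ) / 2 ≤ t * Real.log 2 := by
    have : (0:ℝ) ≤ t := Nat.cast_nonneg t
    nlinarith [half_le_log_two]
  linarith

theorem natlog_le {n : ℕ} (hn : 2 ≤ n) : ((Nat.log 2 n : ℕ) : ℝ) ≤ 2 * Real.log n := by
  have h1 : ((2:ℝ) ^ Nat.log 2 n) ≤ n := by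
    exact_mod_cast Nat.pow_log_le_self 2 (show n ≠ 0 by omega)
  have h2 := Real.log_le_log (by positivity) h1
  rw [Real.log_pow] at h2
  have h3 : (0:ℝ) ≤ (Nat.log 2 n : ℕ) := Nat.cast_nonneg _
  nlinarith [half_le_log_two]

/-- the relative size of the content -/
noncomputable def rel (n : ℕ) : ℝ := Real.log (G n) / Real.log (Real.log n)

theorem logG_nonneg {n : ℕ} (hn : 2 ≤ n) : 0 ≤ Real.log (G n) := by
  apply Real.log_nonneg
  exact_mod_cast G_pos hn

theorem log_pos_of {n : ℕ} (hn : 2 ≤ n) : 0 < Real.log n := by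
  apply Real.log_pos
  exact_mod_cast (show 1 < n by omega)

theorem logG_le {n : ℕ} (hn : 2 ≤ n) : Real.log (G n) ≤ 1 + Real.log (Real.log n) := by
  have h1 : (G n : ℝ) ≤ 2 * Real.log n := by
    refine le_trans ?_ (natlog_le hn)
    exact_mod_cast G_le_log hn
  have h0 : (0:ℝ) < G n := by exact_mod_cast G_pos hn
  have h2 := Real.log_le_log h0 h1
  rw [Real.log_mul (by norm_num) (log_pos_of hn).ne'] at h2
  linarith [log_two_le_one]

theorem rel_floor {n N : ℕ} (hn : 2 ≤ n) (hL : 1 ≤ Real.log (Real.log n)) :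
    ⌊(N:ℝ) * rel n⌋₊ ≤ 2 * N := by
  have h1 : rel n ≤ 2 := by
    unfold rel
    rw [div_le_iff₀ (by linarith)]
    linarith [logG_le hn]
  apply Nat.floor_le_of_le
  push_cast
  have : (0:ℝ) ≤ N := Nat.cast_nonneg N
  nlinarith

/-- two numbers in the same arc -/
theorem rel_close {n n' N : ℕ} (hN : 0 < N) (hn : 2 ≤ n) (hn' : 2 ≤ n') (hL : 1 ≤ Real.log (Real.log n))
    (hL' : 1 ≤ Real.log (Real.log n'))
    (h : min ⌊(N:ℝ) * rel n⌋₊ (2 * N) = min ⌊(N:ℝ) * rel n'⌋₊ (2 * N)) : rel n - 1 / N ≤ rel n' := by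
  rw [min_eq_left (rel_floor hn hL), min_eq_left (rel_floor hn' hL')] at h
  have hN' : (0:ℝ) < N := by exact_mod_cast hN
  have h1 : (N:ℝ) * rel n < ⌊(N:ℝ) * rel n⌋₊ + 1 := Nat.lt_floor_add_one _
  have hr' : 0 ≤ rel n' := div_nonneg (logG_nonneg hn') (by linarith)
  have h2 : (⌊(N:ℝ) * rel n'⌋₊ : ℝ) ≤ N * rel n' := Nat.floor_le (by positivity)
  rw [h] at h1
  have h4 : (N:ℝ) * (rel n - 1 / N) = N * rel n - 1 := by field_simp
  have h5 : (N:ℝ) * (rel n - 1 / N) ≤ N * rel n' := by rw [h4]; linarith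
  exact le_of_mul_le_mul_left h5 hN'

theorem ll_mono {n n' : ℕ} (hn : 2 ≤ n) (hnn : n ≤ n') :
    Real.log (Real.log n) ≤ Real.log (Real.log n') := by
  apply Real.log_le_log (log_pos_of hn)
  apply Real.log_le_log
  · exact_mod_cast (show 0 < n by omega)
  · exact_mod_cast hnn

theorem rel_low {n n' N : ℕ} (hN : 0 < N) (hn : 2 ≤ n) (hn' : 2 ≤ n') (hL : 1 ≤ Real.log (Real.log n))
    {L : ℝ} (hL0 : 1 ≤ L) (hL' : L ≤ Real.log (Real.log n'))
    (h : min ⌊(N:ℝ) * rel n⌋₊ (2 * N) = min ⌊(N:ℝ) * rel n'⌋₊ (2 * N)) :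
    (rel n - 1 / N) * L ≤ Real.log (G n') := by
  have h3 := rel_close hN hn hn' hL (hL0.trans hL') h
  have hr' : 0 ≤ rel n' := div_nonneg (logG_nonneg hn') (by linarith)
  have e1 : Real.log (G n') = rel n' * Real.log (Real.log n') := by
    unfold rel
    rw [div_mul_cancel₀ _ (by linarith)]
  rw [e1]
  calc (rel n - 1 / N) * L ≤ rel n' * L := mul_le_mul_of_nonneg_right h3 (by linarith)
    _ ≤ rel n' * Real.log (Real.log n') := mul_le_mul_of_nonneg_left hL' hr'

theorem G_power {a b : ℕ} (hb : b ≠ 0) : G (a ^ b) = b * G a := by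
  unfold G
  rw [Nat.primeFactors_pow _ hb, Nat.factorization_pow]
  simp only [Finsupp.smul_apply, smul_eq_mul]
  rw [Finset.gcd_mul_left]
  simp

/-- the final estimate -/
theorem fin_est {n : ℕ} (hn : 2 ≤ n) {T ε : ℝ} (hT : 0 < T)
    (h : Real.log (G n) + Real.log T < (1 / 3 + ε) * Real.log (Real.log n)) :
    (G n : ℝ) * T < Real.log n ^ (1 / 3 + ε) := by
  have h0 : (0:ℝ) < G n := by exact_mod_cast G_pos hn
  have hl := log_pos_of hn
  rw [← Real.log_mul h0.ne' hT.ne', ← Real.log_rpow hl] at h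
  exact (Real.log_lt_log_iff (by positivity) (Real.rpow_pos_of_pos hl _)).mp h

theorem power_gap (k : ℕ) (ε : ℝ) (hε : 0 < ε) (r₂ : ℕ) (c₂ : ℕ → Fin r₂)
    (hc₂ : ∀ a b : ℕ, 1 < a → 1 < b → (∃ s t : ℕ, 0 < t ∧ a ^ t = b ^ s) →
      ¬ (c₂ b = c₂ a ∧ c₂ (a * b) = c₂ a ∧ c₂ (a ^ b * b) = c₂ a)) :
    ∃ (r : ℕ) (c : ℕ → Fin r), ∀ a b : ℕ, 1 < a → 1 < b →
      c a = c b → c a = c (a * b) → c a = c (a ^ b) → c a = c (a ^ b * b) →
      (∀ n : ℕ, n = a ∨ n = a * b ∨ n = a ^ b ∨ n = a ^ b * b →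
        (G n : ℝ) * tower k b < Real.log n ^ (1 / 3 + ε)) ∧ (G b : ℝ) < Real.log b ^ (1 / 3 + ε) := by
  classical
  obtain ⟨R, hR⟩ := exists_nat_ge (40 / ε + 20)
  obtain ⟨N, hN⟩ := exists_nat_ge (2 / ε)
  have hN0 : (0:ℝ) < N := lt_of_lt_of_le (by positivity) hN
  have hNpos : 0 < N := by exact_mod_cast hN0
  obtain ⟨r₁, c₁, hc₁⟩ := tower_all (k + R + 2)
  let X := (Fin r₁ × Fin r₂) × Fin (2 * N + 1) × Bool
  let f : ℕ → X := fun n => ((c₁ n, c₂ n),
    ⟨min ⌊(N:ℝ) * rel n⌋₊ (2 * N), by have := min_le_right ⌊(N:ℝ) * rel n⌋₊ (2 * N); omega⟩,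
    decide ((G n : ℝ) < Real.log n ^ (1 / 3 + ε)))
  refine ⟨Fintype.card X, fun n => Fintype.equivFin X (f n), ?_⟩
  intro a b ha hb h1 h2 h3 h4
  have g1 : f a = f b := (Fintype.equivFin X).injective h1
  have g2 : f a = f (a * b) := (Fintype.equivFin X).injective h2
  have g3 : f a = f (a ^ b) := (Fintype.equivFin X).injective h3
  have g4 : f a = f (a ^ b * b) := (Fintype.equivFin X).injective h4
  have p1 : ∀ {x y : ℕ}, f x = f y → c₁ x = c₁ y := fun h => congrArg (fun z => z.1.1) h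
  have p2 : ∀ {x y : ℕ}, f x = f y → c₂ x = c₂ y := fun h => congrArg (fun z => z.1.2) h
  have p3 : ∀ {x y : ℕ}, f x = f y →
      min ⌊(N:ℝ) * rel x⌋₊ (2 * N) = min ⌊(N:ℝ) * rel y⌋₊ (2 * N) :=
    fun h => congrArg (fun z => z.2.1.val) h
  have p4 : ∀ {x y : ℕ}, f x = f y →
      ((G x : ℝ) < Real.log x ^ (1 / 3 + ε) ↔ (G y : ℝ) < Real.log y ^ (1 / 3 + ε)) := by
    intro x y h
    have h5 : decide ((G x : ℝ) < Real.log x ^ (1 / 3 + ε)) = decide ((G y : ℝ) < Real.log y ^ (1 / 3 + ε)) :=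
      congrArg (fun z => z.2.2) h
    exact decide_eq_decide.mp h5
  have hsize := hc₁ a b ha hb (p1 g1) (p1 g2) (p1 g3) (p1 g4)
  have hind : ¬ ∃ s t : ℕ, 0 < t ∧ a ^ t = b ^ s := fun h =>
    hc₂ a b ha hb h ⟨(p2 g1).symm, (p2 g2).symm, (p2 g4).symm⟩
  have hcont := contents ha hb hind
  -- sizes
  set T := tower k b with hT
  have hbT : b ≤ T := by
    have := le_tower_mul k (show 1 ≤ b by omega)
    have h5 : 1 * b ≤ 2 ^ k * b := Nat.mul_le_mul_right b Nat.one_le_two_pow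
    omega
  have hT2 : (2:ℝ) ≤ T := by exact_mod_cast (show 2 ≤ T by omega)
  have ht : R * T ≤ tower (R + k) b := by
    rw [tower_add']
    refine le_trans ?_ (le_tower_mul R (show 1 ≤ tower k b by omega))
    exact Nat.mul_le_mul_right _ (Nat.lt_two_pow_self).le
  have hsize' : 2 ^ 2 ^ (tower (R + k) b) < a := by
    have : k + R + 2 = (R + k) + 2 := by ring
    rw [this] at hsize
    exact hsize
  set L := Real.log (Real.log a) with hLdef
  have hL : ((R * T : ℕ) : ℝ) / 2 - 1 ≤ L := by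
    refine le_trans ?_ (loglog hsize')
    have : ((R * T : ℕ) : ℝ) ≤ tower (R + k) b := by exact_mod_cast ht
    linarith
  have hRT : (20 * T : ℝ) / ε + 8 * T ≤ L := by
    have h5 : (40 / ε + 20) * T ≤ ((R * T : ℕ) : ℝ) := by
      push_cast
      exact mul_le_mul_of_nonneg_right hR (by linarith)
    have h6 : (40 / ε + 20) * T = 2 * ((20 * T : ℝ) / ε) + 20 * T := by ring
    linarith
  have hpos : 0 < (20 * T : ℝ) / ε := by positivity
  have hL1 : 1 ≤ L := by linarith
  have hla : 0 < Real.log a := log_pos_of ha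
  have hb0 : (0:ℝ) < b := by exact_mod_cast (show 0 < b by omega)
  have hlb : Real.log b + 1 ≤ T := by
    have h5 : Real.log b ≤ b - 1 := Real.log_le_sub_one_of_pos hb0
    have h6 : (b:ℝ) ≤ T := by exact_mod_cast hbT
    linarith
  have hlb0 : 0 ≤ Real.log b := Real.log_nonneg (by exact_mod_cast (show 1 ≤ b by omega))
  have hlT : Real.log T + 1 ≤ T := by
    have h5 : Real.log T ≤ T - 1 := Real.log_le_sub_one_of_pos (by linarith)
    linarith
  have hεL : 20 * T < ε * L := by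
    have k7 : ε * ((20 * T : ℝ) / ε + 8 * T) ≤ ε * L := mul_le_mul_of_nonneg_left hRT hε.le
    have k8 : ε * ((20 * T : ℝ) / ε + 8 * T) = 20 * T + ε * (8 * T) := by field_simp
    have k9 : 0 < ε * (8 * T) := by positivity
    linarith
  -- the numbers
  have hab : a ≤ a * b := Nat.le_mul_of_pos_right a (by omega)
  have haw : a ≤ a ^ b := Nat.le_self_pow (by omega) a
  have hz : a ≤ a ^ b * b := haw.trans (Nat.le_mul_of_pos_right _ (by omega))
  have hzz : a ^ b * b ≤ a ^ b * a ^ b :=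
    Nat.mul_le_mul_left _ ((Nat.lt_pow_self ha).le)
  have LLz : Real.log (Real.log ((a ^ b * b : ℕ) : ℝ)) ≤ 2 * L := by
    have h5 : Real.log ((a ^ b * b : ℕ) : ℝ) ≤ 2 * b * Real.log a := by
      have h6 : ((a ^ b * b : ℕ) : ℝ) ≤ (a:ℝ) ^ (2 * b) := by
        have : (a:ℝ) ^ (2 * b) = ((a ^ b * a ^ b : ℕ) : ℝ) := by
          push_cast; rw [two_mul, pow_add]
        rw [this]
        exact_mod_cast hzz
      have h7 := Real.log_le_log (by exact_mod_cast (show 0 < a ^ b * b by omega)) h6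
      rw [Real.log_pow] at h7
      push_cast at h7 ⊢
      exact h7
    have h8 := Real.log_le_log (log_pos_of (hn := (show 2 ≤ a ^ b * b by omega))) h5
    have h9 : Real.log (2 * b * Real.log a) = Real.log 2 + Real.log b + L := by
      rw [Real.log_mul (by positivity) hla.ne', Real.log_mul (by norm_num) hb0.ne']
    rw [h9] at h8
    linarith [log_two_le_one]
  have hGa : (0:ℝ) < G a := by exact_mod_cast G_pos ha
  have hGab : (0:ℝ) < G (a * b) := by exact_mod_cast G_pos (show 2 ≤ a * b by omega)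
  have hGz : (0:ℝ) < G (a ^ b * b) := by exact_mod_cast G_pos (show 2 ≤ a ^ b * b by omega)
  have k3 : Real.log (G a) + Real.log (G (a * b)) + Real.log (G (a ^ b * b)) ≤
      6 * Real.log b + L + 1 := by
    rw [← Real.log_mul hGa.ne' hGab.ne', ← Real.log_mul (by positivity) hGz.ne']
    have h5 : ((G a : ℝ) * G (a * b) * G (a ^ b * b)) ≤ (b:ℝ) ^ 6 * (2 * Real.log a) := by
      have h6 : ((G a : ℝ) * G (a * b) * G (a ^ b * b)) ≤ (b:ℝ) ^ 6 * (Nat.log 2 a : ℕ) := by
        exact_mod_cast hcont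
      refine h6.trans ?_
      exact mul_le_mul_of_nonneg_left (natlog_le ha) (by positivity)
    have h7 := Real.log_le_log (by positivity) h5
    have h8 : Real.log ((b:ℝ) ^ 6 * (2 * Real.log a)) = 6 * Real.log b + (Real.log 2 + L) := by
      rw [Real.log_mul (by positivity) (by positivity), Real.log_pow,
        Real.log_mul (by norm_num) hla.ne']
      push_cast
      ring
    linarith [log_two_le_one]
  -- upper bound for the three numbers
  have three : ∀ n : ℕ, a ≤ n → n ≤ a ^ b * b → f n = f a →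
      Real.log (G n) ≤ (1 / 3 + ε / 2) * Real.log (Real.log n) + 5 * T := by
    intro n hn1 hn2 hfn
    have hn : 2 ≤ n := by omega
    have hLn : L ≤ Real.log (Real.log n) := ll_mono ha hn1
    have hLn2 : Real.log (Real.log n) ≤ 2 * L := (ll_mono hn hn2).trans LLz
    have q1 := rel_low hNpos hn ha (hL1.trans hLn) hL1 (le_refl L) (p3 hfn)
    have q2 := rel_low hNpos hn (show 2 ≤ a * b by omega) (hL1.trans hLn) hL1 (ll_mono ha hab)
      (p3 (hfn.trans g2))
    have q3 := rel_low hNpos hn (show 2 ≤ a ^ b * b by omega) (hL1.trans hLn) hL1 (ll_mono ha hz)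
      (p3 (hfn.trans g4))
    have q4 : 3 * ((rel n - 1 / N) * L) ≤ 6 * Real.log b + L + 1 := by linarith
    have q5 : (1:ℝ) / N ≤ ε / 2 := by
      rw [div_le_div_iff₀ hN0 (by norm_num)]
      rw [div_le_iff₀ hε] at hN
      linarith
    have q6 : (rel n - (1 / 3 + ε / 2)) * L ≤ 2 * T := by
      have h5 : (rel n - 1 / 3 - ε / 2) * L ≤ (rel n - 1 / 3 - 1 / N) * L :=
        mul_le_mul_of_nonneg_right (by linarith) (by linarith)
      have h6 : (rel n - (1 / 3 + ε / 2)) * L = (rel n - 1 / 3 - ε / 2) * L := by ring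
      rw [h6]
      refine h5.trans ?_
      have h7 : (rel n - 1 / 3 - 1 / N) * L = (rel n - 1 / N) * L - L / 3 := by ring
      rw [h7]
      linarith
    have e1 : Real.log (G n) = rel n * Real.log (Real.log n) := by
      unfold rel
      rw [div_mul_cancel₀ _ (by linarith)]
    rw [e1]
    have h8 : rel n * Real.log (Real.log n) = (1 / 3 + ε / 2) * Real.log (Real.log n) +
      (rel n - (1 / 3 + ε / 2)) * Real.log (Real.log n) := by ring
    rw [h8]
    rcases le_or_gt (rel n - (1 / 3 + ε / 2)) 0 with h9 | h9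
    · have h10 : (rel n - (1 / 3 + ε / 2)) * Real.log (Real.log n) ≤ 0 :=
        mul_nonpos_of_nonpos_of_nonneg h9 (by linarith)
      linarith
    · have h10 : (rel n - (1 / 3 + ε / 2)) * Real.log (Real.log n) ≤
          (rel n - (1 / 3 + ε / 2)) * (2 * L) := mul_le_mul_of_nonneg_left hLn2 h9.le
      linarith
  have fin : ∀ n : ℕ, a ≤ n → Real.log (G n) ≤ (1 / 3 + ε / 2) * Real.log (Real.log n) + 6 * T →
      (G n : ℝ) * T < Real.log n ^ (1 / 3 + ε) := by
    intro n hn1 hn2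
    apply fin_est (show 2 ≤ n by omega) (by linarith)
    have hLn : L ≤ Real.log (Real.log n) := ll_mono ha hn1
    have h5 : ε * L ≤ ε * Real.log (Real.log n) := mul_le_mul_of_nonneg_left hLn hε.le
    have h6 : (1 / 3 + ε) * Real.log (Real.log n) = (1 / 3 + ε / 2) * Real.log (Real.log n) +
      (ε * Real.log (Real.log n)) / 2 := by ring
    rw [h6]
    linarith
  have main : ∀ n : ℕ, n = a ∨ n = a * b ∨ n = a ^ b ∨ n = a ^ b * b →
      (G n : ℝ) * T < Real.log n ^ (1 / 3 + ε) := by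
    intro n hn
    have hwz : a ^ b ≤ a ^ b * b := Nat.le_mul_of_pos_right _ (by omega)
    have habz : a * b ≤ a ^ b * b := Nat.mul_le_mul_right b haw
    rcases hn with rfl | rfl | rfl | rfl
    · apply fin _ le_rfl
      have := three n le_rfl hz rfl
      linarith
    · apply fin _ hab
      have := three (a * b) hab habz g2.symm
      linarith
    · apply fin _ haw
      have := three (a ^ b) haw hwz g3.symm
      linarith
    · apply fin _ hz
      have := three (a ^ b * b) hz le_rfl g4.symm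
      linarith
  refine ⟨main, ?_⟩
  apply (p4 g1).mp
  have h5 := main a (Or.inl rfl)
  refine lt_of_le_of_lt ?_ h5
  have h6 : (0:ℝ) ≤ G a := hGa.le
  nlinarith

end PRF2
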