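import Mathlib
import Pool.Agent.PRF2.Gap
import Pool.Agent.PRF.CommonData

/-!
# The smallest and the largest prime factors in a monochromatic pattern
-/

namespace PRF2

open PRF.TGap

section Order

variable (R : ℕ → ℕ → Prop) [DecidableRel R]

/-- number of elements of `S` before `p` -/
def cnt (S : Finset ℕ) (p : ℕ) : ℕ := (S.filter fun q => R q p).card

/-- the element of `S` with `i` elements before it (`0` if there is none) -/
noncomputable def sel (S : Finset ℕ) (i : ℕ) : ℕ := by
  classical
  exact if h : ∃ p ∈ S, cnt R S p = i then h.choose else 0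

variable {R}
variable (hirr : ∀ x, ¬ R x x) (htr : ∀ x y z, R x y → R y z → R x z) (htot : ∀ x y, x ≠ y → R x y ∨ R y x)

include hirr htr in
theorem cnt_lt {S : Finset ℕ} {p p' : ℕ} (hp : p ∈ S) (h : R p p') : cnt R S p < cnt R S p' := by
  apply Finset.card_lt_card
  rw [Finset.ssubset_iff_of_subset]
  · exact ⟨p, Finset.mem_filter.mpr ⟨hp, h⟩, fun h1 => hirr p (Finset.mem_filter.mp h1).2⟩
  · intro q hq
    rw [Finset.mem_filter] at hq ⊢
    exact ⟨hq.1, htr _ _ _ hq.2 h⟩

include hirr htr htot in
theorem cnt_inj {S : Finset ℕ} {p p' : ℕ} (hp : p ∈ S) (hp' : p' ∈ S) (h : cnt R S p = cnt R S p') :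
    p = p' := by
  by_contra hne
  rcases htot p p' hne with h1 | h1
  · exact (cnt_lt hirr htr hp h1).ne h
  · exact (cnt_lt hirr htr hp' h1).ne h.symm

include hirr htr htot in
theorem sel_eq {S : Finset ℕ} {p i : ℕ} (hp : p ∈ S) (hi : cnt R S p = i) : sel R S i = p := by
  classical
  unfold sel
  have h : ∃ p ∈ S, cnt R S p = i := ⟨p, hp, hi⟩
  rw [dif_pos h]
  exact cnt_inj hirr htr htot h.choose_spec.1 hp (h.choose_spec.2.trans hi.symm)

end Order

theorem two_le_two_pow (v : ℕ) (hv : 0 < v) : ∀ m : ℤ,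
    (1:ℝ) / 4 ≤ |(v:ℝ) * (1 / 2 ^ (1 + v.factorization 2)) - m| := by
  intro m
  have hv2 := Nat.ordProj_mul_ordCompl_eq_self v 2
  set u := v.factorization 2
  have hodd : ¬ 2 ∣ v / 2 ^ u := Nat.not_dvd_ordCompl Nat.prime_two hv.ne'
  obtain ⟨w, hw⟩ : ∃ w, v / 2 ^ u = 2 * w + 1 := ⟨v / 2 ^ u / 2, by omega⟩
  rw [hw] at hv2
  have h1 : (v:ℝ) * (1 / 2 ^ (1 + u)) - m = ((w:ℤ) - m : ℤ) + 1 / 2 := by
    rw [← hv2]
    push_cast
    rw [pow_add]
    field_simp
    ring
  rw [h1]
  rcases le_or_gt 0 ((w:ℤ) - m) with h2 | h2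
  · have h3 : (0:ℝ) ≤ (((w:ℤ) - m : ℤ) : ℝ) := by exact_mod_cast h2
    rw [abs_of_nonneg (by linarith)]
    linarith
  · have h3 : (((w:ℤ) - m : ℤ) : ℝ) ≤ -1 := by exact_mod_cast (show (w:ℤ) - m ≤ -1 by omega)
    rw [abs_of_neg (by linarith)]
    linarith

/-- weights -/
noncomputable def wt (x : ℕ × ℕ) (q : ℕ) : ℝ := if q = x.1 then 1 / 2 ^ (1 + x.2.factorization 2) else 0

theorem additive_wt {b Q : ℕ} (hQ : Q ∈ b.primeFactors) (v : ℕ) :
    Pool.Agent.Results.MP_1b773e_co.CommonData.additive (wt (Q, v)) b =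
      (b.factorization Q : ℝ) * (1 / 2 ^ (1 + v.factorization 2)) := by
  unfold Pool.Agent.Results.MP_1b773e_co.CommonData.additive
  rw [Finsupp.sum, Nat.support_factorization, Finset.sum_eq_single Q]
  · simp [wt]
  · intro q _ hq
    simp [wt, hq]
  · intro h
    exact absurd hQ h

theorem supp_same {a b : ℕ} (ha : 1 < a) (hb : 1 < b) :
    (a ^ b * b).primeFactors = (a * b).primeFactors := by
  rw [Nat.primeFactors_mul (pow_ne_zero _ (by omega)) (by omega), Nat.primeFactors_pow _ (by omega),
    Nat.primeFactors_mul (by omega) (by omega)]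

theorem f_ab {a b : ℕ} (ha : 1 < a) (hb : 1 < b) (p : ℕ) :
    (a * b).factorization p = a.factorization p + b.factorization p := by
  rw [Nat.factorization_mul (by omega) (by omega)]
  rfl

theorem f_z {a b : ℕ} (ha : 1 < a) (hb : 1 < b) (p : ℕ) :
    (a ^ b * b).factorization p = b * a.factorization p + b.factorization p := by
  rw [Nat.factorization_mul (pow_ne_zero _ (by omega)) (by omega), Nat.factorization_pow]
  rfl

section Main

variable (R : ℕ → ℕ → Prop) [DecidableRel R]
variable (hirr : ∀ x, ¬ R x x) (htr : ∀ x y z, R x y → R y z → R x z) (htot : ∀ x y, x ≠ y → R x y ∨ R y x)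

/-- the first data: the prime number `i` and its exponent -/
noncomputable def dat (i n : ℕ) : ℕ × ℕ := (sel R n.primeFactors i, n.factorization (sel R n.primeFactors i))

include hirr htr htot in
theorem not_new {a b i p : ℕ} (ha : 1 < a) (hb : 1 < b)
    (hK : dat R i (a * b) = dat R i (a ^ b * b) → ∃ m : ℤ,
      |Pool.Agent.Results.MP_1b773e_co.CommonData.additive (wt (dat R i (a * b))) b - m| < 1 / 4)
    (hp : p ∈ (a * b).primeFactors) (hi : cnt R (a * b).primeFactors p = i) : p ∈ a.primeFactors := by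
  by_contra hcon
  have hpb : p ∈ b.primeFactors := by
    rw [Nat.primeFactors_mul (by omega) (by omega), Finset.mem_union] at hp
    exact hp.resolve_left hcon
  have ha0 : a.factorization p = 0 := by
    rw [← Nat.support_factorization, Finsupp.notMem_support_iff] at hcon
    exact hcon
  have s1 : sel R (a * b).primeFactors i = p := sel_eq hirr htr htot hp hi
  have d1 : dat R i (a * b) = (p, b.factorization p) := by
    unfold dat
    rw [s1, f_ab ha hb, ha0, zero_add]
  have d2 : dat R i (a ^ b * b) = (p, b.factorization p) := by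
    unfold dat
    rw [supp_same ha hb, s1, f_z ha hb, ha0, mul_zero, zero_add]
  obtain ⟨m, hm⟩ := hK (d1.trans d2.symm)
  rw [d1, additive_wt hpb] at hm
  have hv : 0 < b.factorization p := by
    rw [← Nat.support_factorization, Finsupp.mem_support_iff] at hpb
    omega
  have := two_le_two_pow (b.factorization p) hv m
  linarith

/-- the second data -/
def cond (i j n : ℕ) : Prop :=
  ∃ q ∈ n.primeFactors, tower j (n.factorization q) ≤ n.factorization (sel R n.primeFactors i)

include hirr htr htot in
theorem climb {a b i p q₀ : ℕ} (ha : 1 < a) (hb : 1 < b) (hq₀b : q₀ ∈ b.primeFactors)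
    (hq₀a : q₀ ∉ a.primeFactors) (hp : p ∈ (a * b).primeFactors) (hi : cnt R (a * b).primeFactors p = i)
    (hold : ∀ q ∈ (a * b).primeFactors, cnt R (a * b).primeFactors q ≤ i → q ∈ a.primeFactors) (K : ℕ)
    (hcond : ∀ j ≤ K, cond R i j (a ^ b * b) → cond R i j (a ^ b)) :
    ∃ q ∈ a.primeFactors, tower K (b * a.factorization q) ≤ b * a.factorization p := by
  have hpa : p ∈ a.primeFactors := hold p hp hi.le
  have ha0 : a.factorization q₀ = 0 := by
    rw [← Nat.support_factorization, Finsupp.notMem_support_iff] at hq₀a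
    exact hq₀a
  have hsub : a.primeFactors ⊆ (a * b).primeFactors := by
    rw [Nat.primeFactors_mul (by omega) (by omega)]
    exact Finset.subset_union_left
  have hia : cnt R a.primeFactors p = i := by
    rw [← hi]
    unfold cnt
    congr 1
    ext q
    rw [Finset.mem_filter, Finset.mem_filter]
    constructor
    · rintro ⟨h1, h2⟩
      exact ⟨hsub h1, h2⟩
    · rintro ⟨h1, h2⟩
      refine ⟨hold q h1 ?_, h2⟩
      rw [← hi]
      exact (cnt_lt hirr htr h1 h2).le
  have s1 : sel R (a ^ b * b).primeFactors i = p := by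
    rw [supp_same ha hb]
    exact sel_eq hirr htr htot hp hi
  have s2 : sel R (a ^ b).primeFactors i = p := by
    rw [Nat.primeFactors_pow _ (by omega)]
    exact sel_eq hirr htr htot hpa hia
  have key : ∀ j ≤ K, ∃ q ∈ a.primeFactors, tower j (b * a.factorization q) ≤ b * a.factorization p := by
    intro j
    induction j with
    | zero => intro _; exact ⟨p, hpa, le_rfl⟩
    | succ j ih =>
      intro hj
      obtain ⟨q, hq, hle⟩ := ih (by omega)
      have hq1 : 1 ≤ a.factorization q := by
        rw [← Nat.support_factorization, Finsupp.mem_support_iff] at hq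
        omega
      have hc : cond R i (j + 1) (a ^ b * b) := by
        refine ⟨q₀, ?_, ?_⟩
        · rw [supp_same ha hb, Nat.primeFactors_mul (by omega) (by omega)]
          exact Finset.mem_union_right _ hq₀b
        · rw [s1, f_z ha hb, f_z ha hb, ha0, mul_zero, zero_add]
          have h1 : tower (j + 1) (b.factorization q₀) = tower j (2 ^ b.factorization q₀) :=
            tower_add' j 1 _
          have h2 : 2 ^ b.factorization q₀ ≤ b :=
            (Nat.pow_le_pow_right (by norm_num) (val_le_log b q₀ (by omega))).trans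
              (Nat.pow_log_le_self 2 (by omega))
          rw [h1]
          calc tower j (2 ^ b.factorization q₀) ≤ tower j (b * a.factorization q) :=
                tower_mono' j (h2.trans (Nat.le_mul_of_pos_right b hq1))
            _ ≤ b * a.factorization p := hle
            _ ≤ b * a.factorization p + b.factorization p := Nat.le_add_right _ _
      obtain ⟨q', hq', hle'⟩ := hcond (j + 1) hj hc
      rw [Nat.primeFactors_pow _ (by omega)] at hq'
      rw [s2, Nat.factorization_pow] at hle'
      exact ⟨q', hq', hle'⟩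
  exact key K le_rfl

end Main

theorem sq_lt (T : ℕ) : T * T < 2 ^ 2 ^ T := by
  have h1 : T < 2 ^ T := Nat.lt_two_pow_self
  have h2 : 2 * T ≤ 2 ^ T := by
    rcases Nat.eq_zero_or_pos T with h | h
    · subst h; norm_num
    · obtain ⟨u, rfl⟩ := Nat.exists_eq_add_of_le' h
      have := Nat.lt_two_pow_self (n := u)
      rw [pow_succ]
      omega
  calc T * T ≤ T * 2 ^ T := Nat.mul_le_mul_left T h1.le
    _ < 2 ^ T * 2 ^ T := Nat.mul_lt_mul_of_pos_right h1 (by positivity)
    _ = 2 ^ (2 * T) := by rw [two_mul, pow_add]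
    _ ≤ 2 ^ 2 ^ T := Nat.pow_le_pow_right (by norm_num) h2

theorem finish {k a b w : ℕ} (hv : 1 ≤ a) (hb : 1 < b)
    (h : tower (k + 2) (b * a) ≤ b * w) : tower k (b * a) < w := by
  set T := tower k (b * a) with hT
  have hbT : b ≤ T := by
    have h1 := le_tower_mul k (show 1 ≤ b * a from Nat.mul_pos (by omega) hv)
    have h2 : b * 1 ≤ b * a := Nat.mul_le_mul_left b hv
    have h3 : 1 * (b * a) ≤ 2 ^ k * (b * a) := Nat.mul_le_mul_right _ Nat.one_le_two_pow
    omega
  have h4 : 2 ^ 2 ^ T ≤ b * w := h
  have h5 := sq_lt T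
  by_contra hcon
  push Not at hcon
  have h6 : b * w ≤ T * T := Nat.mul_le_mul hbT hcon
  omega

/-- Main statement for both orders. -/
theorem extreme (k : ℕ) : ∃ (r : ℕ) (c : ℕ → Fin r), ∀ a b : ℕ, 1 < a → 1 < b →
    c a = c b → c a = c (a * b) → c a = c (a ^ b) → c a = c (a ^ b * b) →
    ∀ p ∈ (a * b).primeFactors,
      (((a * b).primeFactors.filter fun q => q < p).card < k ∨
        ((a * b).primeFactors.filter fun q => p < q).card < k) →
      p ∈ a.primeFactors ∧ (¬ b.primeFactors ⊆ a.primeFactors →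
      ∃ q ∈ a.primeFactors, tower k (b * a.factorization q) < a.factorization p) := by
  classical
  obtain ⟨r₀, hr₀⟩ := Pool.Agent.Results.MP_1b773e_co.CommonData.result (1 / 4) (by norm_num)
  let rel : Bool → ℕ → ℕ → Prop := fun s x y => if s then x < y else y < x
  have hirr : ∀ s x, ¬ rel s x x := by
    intro s x; cases s <;> simp [rel]
  have htr : ∀ s x y z, rel s x y → rel s y z → rel s x z := by
    intro s x y z; cases s <;> simp only [rel, if_true, Bool.false_eq_true, if_false] <;> omega
  have htot : ∀ s x y, x ≠ y → rel s x y ∨ rel s y x := by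
    intro s x y h; cases s <;> simp only [rel, if_true, Bool.false_eq_true, if_false] <;> omega
  choose c₀ hc₀ using fun (s : Bool) (i : Fin k) => hr₀ (ℕ × ℕ) (dat (rel s) i) wt
  let X := Bool → Fin k → Fin r₀ × (Fin (k + 3) → Bool)
  let f : ℕ → X := fun n s i => (c₀ s i n, fun j => decide (cond (rel s) i j n))
  refine ⟨Fintype.card X, fun n => Fintype.equivFin X (f n), ?_⟩
  intro a b ha hb h1 h2 h3 h4 p hp hpos
  have g1 : f a = f b := (Fintype.equivFin X).injective h1
  have g2 : f a = f (a * b) := (Fintype.equivFin X).injective h2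
  have g3 : f a = f (a ^ b) := (Fintype.equivFin X).injective h3
  have g4 : f a = f (a ^ b * b) := (Fintype.equivFin X).injective h4
  have e0 : ∀ (s : Bool) (i : Fin k) {x y : ℕ}, f x = f y → c₀ s i x = c₀ s i y := by
    intro s i x y h
    exact congrArg Prod.fst (congrFun (congrFun h s) i)
  have e1 : ∀ (s : Bool) (i : Fin k) (j : Fin (k + 3)) {x y : ℕ}, f x = f y →
      (cond (rel s) i j x ↔ cond (rel s) i j y) := by
    intro s i j x y h
    have h5 := congrFun (congrArg Prod.snd (congrFun (congrFun h s) i)) j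
    change decide (cond (rel s) i j x) = decide (cond (rel s) i j y) at h5
    exact decide_eq_decide.mp h5
  have hold : ∀ (s : Bool), ∀ i < k, ∀ q ∈ (a * b).primeFactors,
      cnt (rel s) (a * b).primeFactors q ≤ i → q ∈ a.primeFactors := by
    intro s i hi q hq hcnt
    exact not_new (rel s) (hirr s) (htr s) (htot s) ha hb
      (hc₀ s ⟨cnt (rel s) (a * b).primeFactors q, by omega⟩ a b ha hb
        (e0 s _ g1) (e0 s _ g2) (e0 s _ g3) (e0 s _ g4)) hq rfl
  have main : ∀ s : Bool, cnt (rel s) (a * b).primeFactors p < k →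
      p ∈ a.primeFactors ∧ (¬ b.primeFactors ⊆ a.primeFactors →
      ∃ q ∈ a.primeFactors, tower k (b * a.factorization q) < a.factorization p) := by
    intro s hs
    refine ⟨hold s _ hs p hp le_rfl, fun hnew => ?_⟩
    obtain ⟨q₀, hq₀b, hq₀a⟩ := Finset.not_subset.mp hnew
    obtain ⟨q, hq, hle⟩ := climb (rel s) (hirr s) (htr s) (htot s) ha hb hq₀b hq₀a hp rfl
      (hold s _ hs) (k + 2) (by
        intro j hj hc
        exact (e1 s ⟨_, hs⟩ ⟨j, by omega⟩ (g4.symm.trans g3)).mp hc)
    refine ⟨q, hq, finish ?_ hb hle⟩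
    rw [← Nat.support_factorization, Finsupp.mem_support_iff] at hq
    omega
  rcases hpos with h | h
  · exact main true (by simpa [cnt, rel] using h)
  · exact main false (by simpa [cnt, rel] using h)

end PRF2
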