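import Mathlib
import Pool.Agent.PRF2.Extreme

/-!
# Iterated powers

Every number of a monochromatic pattern is an iterated power of any given height.
-/

namespace PRF2

open PRF.TGap

/-- `n = x₁ ^ (x₂ ^ (… ^ (x_k ^ y)))` with `x_i ≥ 2` and `y ≥ M` -/
def It : ℕ → ℕ → ℕ → Prop
  | 0, M, n => M ≤ n
  | k + 1, M, n => ∃ x y : ℕ, 2 ≤ x ∧ It k M y ∧ n = x ^ y

theorem It.mono (k : ℕ) : ∀ {M M' n : ℕ}, M ≤ M' → It k M' n → It k M n := by
  induction k with
  | zero => intro M M' n h h1; exact le_trans h h1
  | succ k ih =>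
    rintro M M' n h ⟨x, y, hx, hy, hn⟩
    exact ⟨x, y, hx, ih h hy, hn⟩

theorem It.lower (k : ℕ) : ∀ {M n : ℕ}, It (k + 1) M n → It k (2 ^ M) n := by
  induction k with
  | zero =>
    rintro M n ⟨x, y, hx, hy, hn⟩
    change M ≤ y at hy
    change 2 ^ M ≤ n
    rw [hn]
    exact (Nat.pow_le_pow_right (by norm_num) hy).trans (Nat.pow_le_pow_left hx y)
  | succ k ih =>
    rintro M n ⟨x, y, hx, hy, hn⟩
    exact ⟨x, y, hx, ih hy, hn⟩

theorem It.tower (k i : ℕ) : ∀ {M n : ℕ}, It (k + i) M n → It k (tower i M) n := by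
  induction i with
  | zero => intro M n h; exact h
  | succ i ih =>
    intro M n h
    have h1 := It.lower (k + i) h
    have h2 := ih h1
    have h3 : PRF.TGap.tower i (2 ^ M) = PRF.TGap.tower (i + 1) M := (tower_add' i 1 M).symm
    rwa [h3] at h2

/-- the largest of the `k` smallest prime factors -/
def top (k n : ℕ) : ℕ :=
  (n.primeFactors.filter fun p => cnt (fun x y => x < y) n.primeFactors p < k).sup id

theorem le_top {k n p : ℕ} (hp : p ∈ n.primeFactors) (h : cnt (fun x y => x < y) n.primeFactors p < k) :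
    p ≤ top k n := by
  unfold top
  exact Finset.le_sup (f := id) (Finset.mem_filter.mpr ⟨hp, h⟩)

theorem top_le {k n M : ℕ} (h : ∀ p ∈ n.primeFactors, cnt (fun x y => x < y) n.primeFactors p < k → p ≤ M) :
    top k n ≤ M := by
  unfold top
  apply Finset.sup_le
  intro p hp
  rw [Finset.mem_filter] at hp
  exact h p hp.1 hp.2

theorem top_le_self (k : ℕ) {n : ℕ} (hn : n ≠ 0) : top k n ≤ n :=
  top_le fun _ hp _ => Nat.le_of_dvd (by omega) (Nat.dvd_of_mem_primeFactors hp)

theorem top_pow (k a : ℕ) {b : ℕ} (hb : b ≠ 0) : top k (a ^ b) = top k a := by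
  unfold top
  rw [Nat.primeFactors_pow _ hb]

theorem top_le_top {k a b : ℕ} (ha : 1 < a) (hb : 1 < b)
    (hold : ∀ q ∈ (a * b).primeFactors, cnt (fun x y => x < y) (a * b).primeFactors q < k →
      q ∈ a.primeFactors)
    (hω : k ≤ b.primeFactors.card ∨ a.primeFactors = b.primeFactors) : top k a ≤ top k b := by
  rcases hω with hω | hω
  · apply top_le
    intro p hp hcnt
    have hS : (a * b).primeFactors = a.primeFactors ∪ b.primeFactors :=
      Nat.primeFactors_mul (by omega) (by omega)
    -- all primes of `ab` below `p` divide `a`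
    have h1 : ∀ q, q ∈ (a * b).primeFactors → q < p → q ∈ a.primeFactors := by
      intro q
      induction q using Nat.strong_induction_on with
      | _ q ih =>
        intro hq hqp
        apply hold q hq
        refine lt_of_le_of_lt ?_ hcnt
        apply Finset.card_le_card
        intro u hu
        rw [Finset.mem_filter] at hu ⊢
        exact ⟨ih u hu.2 hu.1 (hu.2.trans hqp), hu.2.trans hqp⟩
    have h2 : (b.primeFactors.filter fun q => q < p).card < k := by
      refine lt_of_le_of_lt (Finset.card_le_card ?_) hcnt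
      intro u hu
      rw [Finset.mem_filter] at hu ⊢
      exact ⟨h1 u (by rw [hS]; exact Finset.mem_union_right _ hu.1) hu.2, hu.2⟩
    have h3 : ∃ q, q ∈ b.primeFactors ∧ p ≤ q := by
      by_contra hcon
      push Not at hcon
      have h4 : (b.primeFactors.filter fun q => q < p) = b.primeFactors :=
        Finset.filter_true_of_mem hcon
      rw [h4] at h2
      omega
    classical
    obtain ⟨hq1, hq2⟩ := Nat.find_spec h3
    refine hq2.trans (le_top hq1 ?_)
    refine lt_of_le_of_lt (Finset.card_le_card ?_) h2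
    intro u hu
    rw [Finset.mem_filter] at hu ⊢
    refine ⟨hu.1, ?_⟩
    by_contra hcon
    push Not at hcon
    exact Nat.find_min h3 hu.2 ⟨hu.1, hcon⟩
  · unfold top
    rw [hω]

theorem It.le (k : ℕ) : ∀ {M n : ℕ}, It k M n → M ≤ n := by
  induction k with
  | zero => intro M n h; exact h
  | succ k ih =>
    rintro M n ⟨x, y, hx, hy, hn⟩
    have h1 := ih hy
    have h2 : y < x ^ y := Nat.lt_pow_self hx
    omega

theorem It.le_G {k M n : ℕ} (hn : 2 ≤ n) (h : It (k + 1) M n) : M ≤ G n := by
  obtain ⟨x, y, hx, hy, hxy⟩ := h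
  exact (It.le k hy).trans (Nat.le_of_dvd (G_pos hn) (dvd_G_pow hxy))

theorem exists_root {n d : ℕ} (hn : 2 ≤ n) (h : d ∣ G n) : ∃ s, n = s ^ d := by
  refine ⟨∏ p ∈ n.primeFactors, p ^ (n.factorization p / d), ?_⟩
  rw [← Finset.prod_pow]
  conv_lhs => rw [← Nat.prod_factorization_pow_eq_self (show n ≠ 0 by omega)]
  rw [Finsupp.prod, Nat.support_factorization]
  refine Finset.prod_congr rfl fun p _ => ?_
  rw [← pow_mul, Nat.div_mul_cancel (h.trans (G_dvd n p))]

theorem val_prod {P a b : ℕ} (ha : 1 < a) (hb : 1 < b) :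
    b.factorization P ≤ (G (a ^ b)).factorization P := by
  rw [G_power (by omega), Nat.factorization_mul (by omega) (G_pos ha).ne']
  exact Nat.le_add_right _ _

/-- Main statement. -/
theorem iterated (k : ℕ) : ∃ (r : ℕ) (c : ℕ → Fin r), ∀ a b : ℕ, 1 < a → 1 < b →
    c a = c b → c a = c (a * b) → c a = c (a ^ b) → c a = c (a ^ b * b) →
    ∀ n : ℕ, n = a ∨ n = b ∨ n = a * b ∨ n = a ^ b ∨ n = a ^ b * b → ∀ p ∈ n.primeFactors,
      (n.primeFactors.filter fun q => q < p).card < k → It k (tower k p) n ∧
        ((a * b).minFac ∣ b → ∃ s j : ℕ, tower k p ≤ j ∧ n = s ^ (a * b).minFac ^ j) := by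
  classical
  obtain ⟨r₀, hr₀⟩ := Pool.Agent.Results.MP_1b773e_co.CommonData.result (1 / 4) (by norm_num)
  have hirr : ∀ x : ℕ, ¬ x < x := fun x => lt_irrefl x
  have htr : ∀ x y z : ℕ, x < y → y < z → x < z := fun x y z => lt_trans
  have htot : ∀ x y : ℕ, x ≠ y → x < y ∨ y < x := fun x y => Nat.lt_or_gt_of_ne
  choose c₀ hc₀ using fun (i : Fin k) => hr₀ (ℕ × ℕ) (dat (fun x y => x < y) i) wt
  let X := (Fin k → Fin r₀) × Fin (k + 1) × (Fin (2 * k + 1) → Bool) × (Fin (k + 1) → Bool)
  let f : ℕ → X := fun n => (fun i => c₀ i n,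
    ⟨min n.primeFactors.card k, by have := min_le_right n.primeFactors.card k; omega⟩,
    fun j => decide (It j (top k n) n),
    fun j => decide (tower j (top k n) ≤ (G n).factorization n.minFac))
  refine ⟨Fintype.card X, fun n => Fintype.equivFin X (f n), ?_⟩
  intro a b ha hb h1 h2 h3 h4
  have g1 : f a = f b := (Fintype.equivFin X).injective h1
  have g2 : f a = f (a * b) := (Fintype.equivFin X).injective h2
  have g3 : f a = f (a ^ b) := (Fintype.equivFin X).injective h3
  have g4 : f a = f (a ^ b * b) := (Fintype.equivFin X).injective h4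
  have p0 : ∀ (i : Fin k) {x y : ℕ}, f x = f y → c₀ i x = c₀ i y := fun i _ _ h =>
    congrFun (congrArg (fun z => z.1) h) i
  have p1 : ∀ {x y : ℕ}, f x = f y → min x.primeFactors.card k = min y.primeFactors.card k :=
    fun h => congrArg (fun z => z.2.1.val) h
  have p2 : ∀ (j : Fin (2 * k + 1)) {x y : ℕ}, f x = f y → (It j (top k x) x ↔ It j (top k y) y) := by
    intro j x y h
    have h5 : decide (It j (top k x) x) = decide (It j (top k y) y) :=
      congrFun (congrArg (fun z => z.2.2.1) h) j
    exact decide_eq_decide.mp h5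
  have p3 : ∀ (j : Fin (k + 1)) {x y : ℕ}, f x = f y →
      (tower j (top k x) ≤ (G x).factorization x.minFac ↔ tower j (top k y) ≤ (G y).factorization y.minFac) := by
    intro j x y h
    have h5 : decide (tower j (top k x) ≤ (G x).factorization x.minFac) =
        decide (tower j (top k y) ≤ (G y).factorization y.minFac) :=
      congrFun (congrArg (fun z => z.2.2.2) h) j
    exact decide_eq_decide.mp h5
  have hold : ∀ q ∈ (a * b).primeFactors, cnt (fun x y => x < y) (a * b).primeFactors q < k →
      q ∈ a.primeFactors := by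
    intro q hq hcnt
    exact not_new (fun x y => x < y) hirr htr htot ha hb
      (hc₀ ⟨cnt (fun x y => x < y) (a * b).primeFactors q, hcnt⟩ a b ha hb
        (p0 _ g1) (p0 _ g2) (p0 _ g3) (p0 _ g4)) hq rfl
  have hS : (a * b).primeFactors = a.primeFactors ∪ b.primeFactors :=
    Nat.primeFactors_mul (by omega) (by omega)
  have hω : k ≤ b.primeFactors.card ∨ a.primeFactors = b.primeFactors := by
    rcases le_or_gt k b.primeFactors.card with h | h
    · exact Or.inl h
    · right
      have e1 := p1 g1
      have e2 := p1 g2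
      have s1 : a.primeFactors ⊆ (a * b).primeFactors := by rw [hS]; exact Finset.subset_union_left
      have s2 : b.primeFactors ⊆ (a * b).primeFactors := by rw [hS]; exact Finset.subset_union_right
      rw [Finset.eq_of_subset_of_card_le s1 (by omega), ← Finset.eq_of_subset_of_card_le s2 (by omega)]
  have htop := top_le_top ha hb hold hω
  -- all five numbers are iterated powers
  have main : ∀ j ≤ 2 * k, It j (top k a) a := by
    intro j
    induction j with
    | zero => intro _; exact top_le_self k (by omega)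
    | succ j ih =>
      intro hj
      have e1 : It j (top k b) b := (p2 ⟨j, by omega⟩ g1).mp (ih (by omega))
      have e2 : It (j + 1) (top k (a ^ b)) (a ^ b) := by
        rw [top_pow k a (by omega)]
        exact ⟨a, b, ha, It.mono j htop e1, rfl⟩
      exact (p2 ⟨j + 1, by omega⟩ g3).mpr e2
  have all : ∀ n : ℕ, n = a ∨ n = b ∨ n = a * b ∨ n = a ^ b ∨ n = a ^ b * b →
      It (2 * k) (top k n) n := by
    intro n hn
    have h5 := main (2 * k) le_rfl
    rcases hn with rfl | rfl | rfl | rfl | rfl
    · exact h5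
    · exact (p2 ⟨2 * k, by omega⟩ g1).mp h5
    · exact (p2 ⟨2 * k, by omega⟩ g2).mp h5
    · exact (p2 ⟨2 * k, by omega⟩ g3).mp h5
    · exact (p2 ⟨2 * k, by omega⟩ g4).mp h5
  intro n hn p hp hcnt
  refine ⟨?_, ?_⟩
  · have h5 := all n hn
    rw [two_mul] at h5
    exact It.mono k (tower_mono' k (le_top hp hcnt)) (It.tower k k h5)
  · -- the least prime factor divides `b`
    intro hPb
    have hk : 0 < k := by omega
    set P := (a * b).minFac with hP
    have hab : 2 ≤ a * b := by nlinarith
    have hPp : P.Prime := Nat.minFac_prime (by omega)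
    have hPab : P ∈ (a * b).primeFactors := Nat.mem_primeFactors.mpr ⟨hPp, Nat.minFac_dvd _, by omega⟩
    have hPcnt : cnt (fun x y => x < y) (a * b).primeFactors P = 0 := by
      unfold cnt
      rw [Finset.card_eq_zero, Finset.filter_eq_empty_iff]
      intro q hq hlt
      have := Nat.minFac_le_of_dvd (Nat.prime_of_mem_primeFactors hq).two_le (Nat.dvd_of_mem_primeFactors hq)
      omega
    have hPa : P ∈ a.primeFactors := hold P hPab (by omega)
    have hmin : ∀ m : ℕ, m.primeFactors ⊆ (a * b).primeFactors → P ∈ m.primeFactors → m.minFac = P := by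
      intro m hm hPm
      have hm1 : m ≠ 1 := by rintro rfl; simp at hPm
      have hm0 : m ≠ 0 := by rintro rfl; simp at hPm
      apply le_antisymm
      · exact Nat.minFac_le_of_dvd hPp.two_le (Nat.dvd_of_mem_primeFactors hPm)
      · have h5 : m.minFac ∈ (a * b).primeFactors :=
          hm (Nat.mem_primeFactors.mpr ⟨Nat.minFac_prime hm1, Nat.minFac_dvd m, hm0⟩)
        exact Nat.minFac_le_of_dvd (Nat.minFac_prime hm1).two_le (Nat.dvd_of_mem_primeFactors h5)
    have ma : a.minFac = P := hmin a (by rw [hS]; exact Finset.subset_union_left) hPa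
    have mb : b.minFac = P := hmin b (by rw [hS]; exact Finset.subset_union_right)
      (Nat.mem_primeFactors.mpr ⟨hPp, hPb, by omega⟩)
    have mw : (a ^ b).minFac = P := by
      apply hmin
      · rw [Nat.primeFactors_pow _ (by omega), hS]; exact Finset.subset_union_left
      · rw [Nat.primeFactors_pow _ (by omega)]; exact hPa
    have mz : (a ^ b * b).minFac = P := by
      apply hmin
      · rw [supp_same ha hb]
      · rw [supp_same ha hb]; exact hPab
    have hu : 0 < b.factorization P := hPp.factorization_pos_of_dvd (by omega) hPb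
    have hGb : G b ≤ b.factorization P := Nat.le_of_dvd hu (G_dvd b P)
    have hDb : top k b ≤ G b := by
      have h5 := all b (Or.inr (Or.inl rfl))
      obtain ⟨k', hk'⟩ : ∃ k', 2 * k = k' + 1 := ⟨2 * k - 1, by omega⟩
      rw [hk'] at h5
      exact It.le_G hb h5
    have key : ∀ j ≤ k, tower j (top k (a ^ b)) ≤ (G (a ^ b)).factorization (a ^ b).minFac := by
      intro j
      induction j with
      | zero =>
        intro _
        rw [top_pow k a (by omega), mw]
        exact htop.trans (hDb.trans (hGb.trans (val_prod ha hb)))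
      | succ j ih =>
        intro hj
        have e1 := (p3 ⟨j, by omega⟩ (g3.symm.trans g1)).mp (ih (by omega))
        rw [mb] at e1
        change tower j (top k b) ≤ (G b).factorization P at e1
        rw [top_pow k a (by omega), mw]
        calc tower (j + 1) (top k a) ≤ tower (j + 1) (top k b) := tower_mono' _ htop
          _ = 2 ^ tower j (top k b) := rfl
          _ ≤ 2 ^ (G b).factorization P := Nat.pow_le_pow_right (by norm_num) e1
          _ ≤ P ^ (G b).factorization P := Nat.pow_le_pow_left hPp.two_le _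
          _ ≤ G b := Nat.ordProj_le P (G_pos hb).ne'
          _ ≤ b.factorization P := hGb
          _ ≤ _ := val_prod ha hb
    have hkey := key k le_rfl
    have hfin : tower k (top k n) ≤ (G n).factorization n.minFac ∧ n.minFac = P ∧ 2 ≤ n := by
      have hw2 : 1 < a ^ b := Nat.one_lt_pow (by omega) ha
      rcases hn with rfl | rfl | rfl | rfl | rfl
      · exact ⟨(p3 ⟨k, by omega⟩ g3).mpr hkey, ma, ha⟩
      · exact ⟨(p3 ⟨k, by omega⟩ (g1.symm.trans g3)).mpr hkey, mb, hb⟩
      · exact ⟨(p3 ⟨k, by omega⟩ (g2.symm.trans g3)).mpr hkey, rfl, hab⟩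
      · exact ⟨hkey, mw, hw2⟩
      · exact ⟨(p3 ⟨k, by omega⟩ (g4.symm.trans g3)).mpr hkey, mz, by nlinarith⟩
    obtain ⟨f1, f2, f3⟩ := hfin
    rw [f2] at f1
    obtain ⟨s, hs⟩ := exists_root f3 (Nat.ordProj_dvd (G n) P)
    exact ⟨s, (G n).factorization P, (tower_mono' k (le_top hp hcnt)).trans f1, hs⟩

end PRF2
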