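import Mathlib
import Pool.Agent.PRF2.Iter

/-!
# Contents if `b` has a prime factor which does not divide `a`
-/

namespace PRF2

open PRF.TGap

theorem small (k : ℕ) : ∃ (r : ℕ) (c : ℕ → Fin r), ∀ a b : ℕ, 1 < a → 1 < b →
    c a = c b → c a = c (a * b) → c a = c (a ^ b) → c a = c (a ^ b * b) →
    ¬ b.primeFactors ⊆ a.primeFactors →
    ∀ n : ℕ, n = a ∨ n = b ∨ n = a * b ∨ n = a ^ b ∨ n = a ^ b * b → tower k (G n) < n := by
  classical
  obtain ⟨r₀, c₀, hc₀⟩ := tower_all k
  let X := Fin r₀ × Bool
  let f : ℕ → X := fun n => (c₀ n, decide (tower k (G n) < n))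
  refine ⟨Fintype.card X, fun n => Fintype.equivFin X (f n), ?_⟩
  intro a b ha hb h1 h2 h3 h4 hnew n hn
  have g1 : f a = f b := (Fintype.equivFin X).injective h1
  have g2 : f a = f (a * b) := (Fintype.equivFin X).injective h2
  have g3 : f a = f (a ^ b) := (Fintype.equivFin X).injective h3
  have g4 : f a = f (a ^ b * b) := (Fintype.equivFin X).injective h4
  have p0 : ∀ {x y : ℕ}, f x = f y → c₀ x = c₀ y := fun h => congrArg (fun z => z.1) h
  have p1 : ∀ {x y : ℕ}, f x = f y → (tower k (G x) < x ↔ tower k (G y) < y) := by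
    intro x y h
    have h5 : decide (tower k (G x) < x) = decide (tower k (G y) < y) := congrArg (fun z => z.2) h
    exact decide_eq_decide.mp h5
  have hsize := hc₀ a b ha hb (p0 g1) (p0 g2) (p0 g3) (p0 g4)
  obtain ⟨q, hqb, hqa⟩ := Finset.not_subset.mp hnew
  have ha0 : a.factorization q = 0 := by
    rw [← Nat.support_factorization, Finsupp.notMem_support_iff] at hqa
    exact hqa
  have hq1 : 0 < b.factorization q := by
    rw [← Nat.support_factorization, Finsupp.mem_support_iff] at hqb
    omega
  have hz : tower k (G (a ^ b * b)) < a ^ b * b := by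
    have e1 : G (a ^ b * b) ≤ b.factorization q := by
      apply Nat.le_of_dvd hq1
      have h5 := G_dvd (a ^ b * b) q
      rw [f_z ha hb, ha0, mul_zero, zero_add] at h5
      exact h5
    have e2 : b.factorization q ≤ b := (val_le_log b q (by omega)).trans (Nat.log_le_self 2 b)
    have e3 : a ≤ a ^ b * b :=
      (Nat.le_self_pow (by omega) a).trans (Nat.le_mul_of_pos_right _ (by omega))
    exact lt_of_le_of_lt (tower_mono' k (e1.trans e2)) (lt_of_lt_of_le hsize e3)
  have hA : tower k (G a) < a := (p1 g4).mpr hz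
  rcases hn with rfl | rfl | rfl | rfl | rfl
  · exact hA
  · exact (p1 g1).mp hA
  · exact (p1 g2).mp hA
  · exact (p1 g3).mp hA
  · exact hz

end PRF2
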