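import Mathlib
import Pool.Agent.PRF2.Small

/-!
# The least exponent

If some prime factor of `b` does not divide `a`, then the least exponent of `a ^ b * b` belongs to such a prime. By
Kronecker's theorem the least exponent of `a * b` belongs to a prime factor of `a`. All these exponents are at most
`log₂ b`, but the least exponent of `a ^ b` is at least `b`.
-/

namespace PRF2

open PRF.TGap

/-- the towers `1, 2, 4, 16, …` -/
def tt : ℕ → ℕ
  | 0 => 1
  | n + 1 => 2 ^ tt n

theorem tt_lt (n : ℕ) : n < tt n := by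
  induction n with
  | zero => exact one_pos
  | succ n ih => exact lt_of_le_of_lt ih (Nat.lt_two_pow_self)

theorem tt_mono : Monotone tt := monotone_nat_of_le_succ fun _ => (Nat.lt_two_pow_self).le

theorem tt_add (i k : ℕ) : tt (i + k) = tower k (tt i) := by
  induction k with
  | zero => rfl
  | succ k ih => rw [← Nat.add_assoc, tt, ih, tower]

theorem exists_tt (n : ℕ) : ∃ i, n < tt i := ⟨n, tt_lt n⟩

/-- the level of a number -/
def lev (n : ℕ) : ℕ := Nat.find (exists_tt n)

theorem lt_tt_lev (n : ℕ) : n < tt (lev n) := Nat.find_spec (exists_tt n)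

theorem le_of_lt_lev {n i : ℕ} (h : i < lev n) : tt i ≤ n := by
  have := Nat.find_min (exists_tt n) h
  omega

theorem lev_lt {x y : ℕ} (h : 2 ^ x ≤ y) : lev x < lev y := by
  by_contra hcon
  push Not at hcon
  have h1 := lt_tt_lev y
  rcases Nat.eq_zero_or_pos (lev y) with h0 | h0
  · rw [h0] at h1
    have : 1 ≤ 2 ^ x := Nat.one_le_two_pow
    change y < 1 at h1
    omega
  · obtain ⟨i, hi⟩ : ∃ i, lev y = i + 1 := ⟨lev y - 1, by omega⟩
    rw [hi] at h1 hcon
    have h2 : tt i ≤ x := le_of_lt_lev (by omega)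
    have h3 : tt (i + 1) ≤ 2 ^ x := Nat.pow_le_pow_right (by norm_num) h2
    omega

theorem tower_lt_tower (k : ℕ) {m n : ℕ} (h : m < n) : tower k m < tower k n := by
  induction k with
  | zero => exact h
  | succ k ih => exact Nat.pow_lt_pow_right (by norm_num) ih

/-- Numbers `x` and `y ≥ 2 ^ x` of the same colour are far apart. -/
theorem level (k : ℕ) : ∃ c : ℕ → Fin (k + 1), ∀ x y : ℕ, 2 ^ x ≤ y → c x = c y → tower k x < y := by
  refine ⟨fun n => ⟨lev n % (k + 1), Nat.mod_lt _ (by omega)⟩, ?_⟩
  intro x y hxy hc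
  have h1 : lev x % (k + 1) = lev y % (k + 1) := congrArg Fin.val hc
  have h2 := lev_lt hxy
  have h3 : lev x + (k + 1) ≤ lev y := by
    have h4 : (k + 1) ∣ lev y - lev x := (Nat.modEq_iff_dvd' h2.le).mp h1
    have := Nat.le_of_dvd (by omega) h4
    omega
  have h5 : tt (lev x + k) ≤ y := le_of_lt_lev (by omega)
  rw [tt_add] at h5
  exact lt_of_lt_of_le (tower_lt_tower k (lt_tt_lev x)) h5

/-- `x, y` with `y ≤ b * b` -/
theorem level_sq {k x b y : ℕ} (hy : y ≤ b * b) (h : tower (k + 2) x < y) : tower k x < b := by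
  by_contra hcon
  push Not at hcon
  have h1 : b * b ≤ tower k x * tower k x := Nat.mul_le_mul hcon hcon
  have h2 := sq_lt (tower k x)
  have h3 : tower (k + 2) x = 2 ^ 2 ^ tower k x := rfl
  omega

/-- the least exponent -/
noncomputable def mu (n : ℕ) : ℕ := sInf {v | ∃ q ∈ n.primeFactors, v = n.factorization q}

/-- the least prime factor with this exponent -/
noncomputable def mp (n : ℕ) : ℕ := sInf {q | q ∈ n.primeFactors ∧ n.factorization q = mu n}

theorem mu_le {n q : ℕ} (hq : q ∈ n.primeFactors) : mu n ≤ n.factorization q := Nat.sInf_le ⟨q, hq, rfl⟩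

theorem mu_mem {n : ℕ} (hn : 2 ≤ n) : ∃ q ∈ n.primeFactors, mu n = n.factorization q :=
  Nat.sInf_mem (s := {v | ∃ q ∈ n.primeFactors, v = n.factorization q})
    ⟨_, n.minFac, Nat.mem_primeFactors.mpr ⟨Nat.minFac_prime (by omega), Nat.minFac_dvd n, by omega⟩, rfl⟩

theorem mp_mem {n : ℕ} (hn : 2 ≤ n) : mp n ∈ n.primeFactors ∧ n.factorization (mp n) = mu n := by
  obtain ⟨q, hq, h⟩ := mu_mem hn
  exact Nat.sInf_mem (s := {q | q ∈ n.primeFactors ∧ n.factorization q = mu n}) ⟨q, hq, h.symm⟩

theorem mp_congr {m n : ℕ} (h : ∀ q, (q ∈ m.primeFactors ∧ m.factorization q = mu m) ↔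
    (q ∈ n.primeFactors ∧ n.factorization q = mu n)) : mp m = mp n := by
  unfold mp
  congr 1
  ext q
  exact h q

theorem low (k : ℕ) : ∃ (r : ℕ) (c : ℕ → Fin r), ∀ a b : ℕ, 1 < a → 1 < b →
    c a = c b → c a = c (a * b) → c a = c (a ^ b) → c a = c (a ^ b * b) →
    ∀ p ∈ b.primeFactors, p ∉ a.primeFactors →
    (∃ q ∈ a.primeFactors, a.factorization q + b.factorization q ≤ b.factorization p ∧
      tower k (a.factorization q + b.factorization q) < b) ∧
    ∀ n : ℕ, n = a ∨ n = b ∨ n = a * b ∨ n = a ^ b * b → G n ≤ b.factorization p ∧ tower k (G n) < b := by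
  classical
  obtain ⟨r₀, hr₀⟩ := Pool.Agent.Results.MP_1b773e_co.CommonData.result (1 / 4) (by norm_num)
  obtain ⟨c₀, hc₀⟩ := hr₀ (ℕ × ℕ) (fun n => (mp n, mu n)) wt
  obtain ⟨c₁, hc₁⟩ := level (k + 2)
  let X := Fin r₀ × Fin (k + 2 + 1)
  let f : ℕ → X := fun n => (c₀ n, c₁ (mu n))
  refine ⟨Fintype.card X, fun n => Fintype.equivFin X (f n), ?_⟩
  intro a b ha hb h1 h2 h3 h4 p hpb hpa
  have g1 : f a = f b := (Fintype.equivFin X).injective h1
  have g2 : f a = f (a * b) := (Fintype.equivFin X).injective h2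
  have g3 : f a = f (a ^ b) := (Fintype.equivFin X).injective h3
  have g4 : f a = f (a ^ b * b) := (Fintype.equivFin X).injective h4
  have p0 : ∀ {x y : ℕ}, f x = f y → c₀ x = c₀ y := fun h => congrArg (fun z => z.1) h
  have p1 : ∀ {x y : ℕ}, f x = f y → c₁ (mu x) = c₁ (mu y) := fun h => congrArg (fun z => z.2) h
  have hfac : ∀ {n q : ℕ}, q ∉ n.primeFactors → n.factorization q = 0 := by
    intro n q h
    rw [← Nat.support_factorization, Finsupp.notMem_support_iff] at h
    exact h
  have hfac' : ∀ {n q : ℕ}, q ∈ n.primeFactors → 0 < n.factorization q := by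
    intro n q h
    rw [← Nat.support_factorization, Finsupp.mem_support_iff] at h
    omega
  have hw : 1 < a ^ b := Nat.one_lt_pow (by omega) ha
  have hz2 : 2 ≤ a ^ b * b := by nlinarith
  have hab2 : 2 ≤ a * b := by nlinarith
  have hS : (a * b).primeFactors = a.primeFactors ∪ b.primeFactors := Nat.primeFactors_mul (by omega) (by omega)
  have hS' : (a ^ b * b).primeFactors = a.primeFactors ∪ b.primeFactors := by rw [supp_same ha hb, hS]
  -- the least new exponent is the least exponent of `a ^ b * b`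
  have hlog : ∀ q, 2 ^ b.factorization q ≤ b := fun q =>
    (Nat.pow_le_pow_right (by norm_num) (val_le_log b q (by omega))).trans (Nat.pow_log_le_self 2 (by omega))
  have hlt : ∀ q, b.factorization q < b := fun q => lt_of_lt_of_le (Nat.lt_two_pow_self) (hlog q)
  have hzp : ∀ q, q ∉ a.primeFactors → (a ^ b * b).factorization q = b.factorization q := by
    intro q hq
    rw [f_z ha hb, hfac hq, mul_zero, zero_add]
  have hzo : ∀ q, q ∈ a.primeFactors → b ≤ (a ^ b * b).factorization q := by
    intro q hq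
    rw [f_z ha hb]
    exact (Nat.le_mul_of_pos_right b (hfac' hq)).trans (Nat.le_add_right _ _)
  set ν := mu (a ^ b * b) with hν
  have hνp : ∀ q ∈ b.primeFactors, q ∉ a.primeFactors → ν ≤ b.factorization q := by
    intro q hq hqa
    rw [← hzp q hqa]
    exact mu_le (by rw [hS']; exact Finset.mem_union_right _ hq)
  have hνb : ν < b := lt_of_le_of_lt (hνp p hpb hpa) (hlt p)
  obtain ⟨p₀, hp₀, hp₀ν⟩ := mu_mem hz2
  have hp₀a : p₀ ∉ a.primeFactors := by
    intro h
    have := hzo p₀ h
    omega
  have hp₀b : p₀ ∈ b.primeFactors := by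
    rw [hS', Finset.mem_union] at hp₀
    exact hp₀.resolve_left hp₀a
  have hνb' : ν = b.factorization p₀ := by rw [← hzp p₀ hp₀a]; exact hp₀ν
  have h2ν : 2 ^ ν ≤ b := by rw [hνb']; exact hlog p₀
  -- the least exponent of `ab` belongs to a prime factor of `a`
  have hex : ∃ q ∈ a.primeFactors, (a * b).factorization q ≤ ν := by
    by_contra hcon
    push Not at hcon
    have hmu : mu (a * b) = ν := by
      obtain ⟨q, hq, hqe⟩ := mu_mem hab2
      have e1 : mu (a * b) ≤ ν := by
        rw [hνb']
        have := mu_le (n := a * b) (q := p₀) (by rw [hS]; exact Finset.mem_union_right _ hp₀b)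
        rwa [f_ab ha hb, hfac hp₀a, zero_add] at this
      have e2 : q ∉ a.primeFactors := by
        intro h
        have := hcon q h
        omega
      have e3 : q ∈ b.primeFactors := by
        rw [hS, Finset.mem_union] at hq
        exact hq.resolve_left e2
      have e4 := hνp q e3 e2
      rw [f_ab ha hb, hfac e2, zero_add] at hqe
      omega
    have hmp : mp (a * b) = mp (a ^ b * b) := by
      apply mp_congr
      intro q
      rw [hmu, hS, hS', ← hν]
      by_cases hqa : q ∈ a.primeFactors
      · have e1 := hcon q hqa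
        have e2 := hzo q hqa
        constructor
        · rintro ⟨-, h⟩; omega
        · rintro ⟨-, h⟩; omega
      · rw [hzp q hqa, f_ab ha hb, hfac hqa, zero_add]
    obtain ⟨u1, u2⟩ := mp_mem hz2
    have hQa : mp (a ^ b * b) ∉ a.primeFactors := by
      intro h
      have := hzo _ h
      omega
    have hQb : mp (a ^ b * b) ∈ b.primeFactors := by
      rw [hS', Finset.mem_union] at u1
      exact u1.resolve_left hQa
    obtain ⟨m, hm⟩ := hc₀ a b ha hb (p0 g1) (p0 g2) (p0 g3) (p0 g4) (by
      rw [hmp, hmu])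
    change |Pool.Agent.Results.MP_1b773e_co.CommonData.additive (wt (mp (a * b), mu (a * b))) b - m| < 1 / 4 at hm
    rw [hmp, hmu, additive_wt hQb] at hm
    have e5 : b.factorization (mp (a ^ b * b)) = ν := by
      rw [← hzp _ hQa]
      exact u2
    have := two_le_two_pow ν (by rw [← e5]; exact hfac' hQb) m
    rw [e5] at hm
    linarith
  obtain ⟨q₁, hq₁, hq₁ν⟩ := hex
  -- the least exponent of `ab`
  obtain ⟨q, hqa, hqmin⟩ := Finset.exists_min_image a.primeFactors (fun q => (a * b).factorization q) ⟨q₁, hq₁⟩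
  have hqν : (a * b).factorization q ≤ ν := (hqmin q₁ hq₁).trans hq₁ν
  have hmuab : mu (a * b) = (a * b).factorization q := by
    apply le_antisymm
    · exact mu_le (by rw [hS]; exact Finset.mem_union_left _ hqa)
    · obtain ⟨s, hs, hse⟩ := mu_mem hab2
      rw [hse]
      by_cases hsa : s ∈ a.primeFactors
      · exact hqmin s hsa
      · have e1 : s ∈ b.primeFactors := by
          rw [hS, Finset.mem_union] at hs
          exact hs.resolve_left hsa
        have e2 := hνp s e1 hsa
        have e3 : (a * b).factorization s = b.factorization s := by rw [f_ab ha hb, hfac hsa, zero_add]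
        omega
  have hμa1 : 1 ≤ mu a := by
    obtain ⟨s, hs, hse⟩ := mu_mem (n := a) ha
    rw [hse]
    exact hfac' hs
  have hμa2 : mu a ≤ b := by
    have e1 := mu_le hqa
    have e2 := f_ab ha hb q
    omega
  have hμw : mu (a ^ b) = b * mu a := by
    obtain ⟨s, hs, hse⟩ := mu_mem (n := a) ha
    obtain ⟨s', hs', hse'⟩ := mu_mem (n := a ^ b) hw
    rw [Nat.primeFactors_pow _ (by omega)] at hs'
    rw [Nat.factorization_pow, Finsupp.smul_apply, smul_eq_mul] at hse'
    apply le_antisymm
    · have e1 := mu_le (n := a ^ b) (q := s) (by rw [Nat.primeFactors_pow _ (by omega)]; exact hs)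
      rw [Nat.factorization_pow, Finsupp.smul_apply, smul_eq_mul, ← hse] at e1
      exact e1
    · rw [hse']
      exact Nat.mul_le_mul_left b (mu_le hs')
  have hle : mu (a ^ b) ≤ b * b := by rw [hμw]; exact Nat.mul_le_mul_left b hμa2
  have hge : b ≤ mu (a ^ b) := by rw [hμw]; exact Nat.le_mul_of_pos_right b hμa1
  have t1 : tower k ((a * b).factorization q) < b := by
    apply level_sq hle
    apply hc₁ _ _ ((Nat.pow_le_pow_right (by norm_num) hqν).trans (h2ν.trans hge))
    rw [← hmuab]
    exact (p1 g2).symm.trans (p1 g3)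
  have t2 : tower k ν < b := by
    apply level_sq hle
    apply hc₁ _ _ (h2ν.trans hge)
    exact (p1 g4).symm.trans (p1 g3)
  have hνle := hνp p hpb hpa
  refine ⟨⟨q, hqa, ?_, ?_⟩, ?_⟩
  · rw [← f_ab ha hb]
    exact hqν.trans hνle
  · rw [← f_ab ha hb]
    exact t1
  · have hν0 : 0 < ν := by rw [hνb']; exact hfac' hp₀b
    have key : ∀ n, G n ≤ ν → G n ≤ b.factorization p ∧ tower k (G n) < b := fun n hn =>
      ⟨hn.trans hνle, lt_of_le_of_lt (tower_mono' k hn) t2⟩
    intro n hn
    apply key
    rcases hn with rfl | rfl | rfl | rfl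
    · have e1 := f_ab ha hb q
      have e2 := Nat.le_of_dvd (hfac' hqa) (G_dvd n q)
      omega
    · rw [hνb']
      exact Nat.le_of_dvd (hfac' hp₀b) (G_dvd n p₀)
    · have e2 := Nat.le_of_dvd (hfac' (by rw [hS]; exact Finset.mem_union_left _ hqa)) (G_dvd (a * b) q)
      omega
    · have e2 := Nat.le_of_dvd (hfac' hp₀) (G_dvd (a ^ b * b) p₀)
      omega

end PRF2
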