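import Mathlib
import Pool.Agent.PRF.Forest
import Pool.Agent.PRF2.Low

/-!
# Coprime pairs: largest exponents, parts of a number, and the graph
-/

namespace PRF2

open PRF PRF.TGap

theorem fz0 {n q : ℕ} (h : q ∉ n.primeFactors) : n.factorization q = 0 := by
  rw [← Nat.support_factorization, Finsupp.notMem_support_iff] at h
  exact h

theorem fpos {n q : ℕ} (h : q ∈ n.primeFactors) : 0 < n.factorization q := by
  rw [← Nat.support_factorization, Finsupp.mem_support_iff] at h
  omega

theorem mem_of_pos {n q : ℕ} (h : 0 < n.factorization q) : q ∈ n.primeFactors := by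
  rw [← Nat.support_factorization, Finsupp.mem_support_iff]
  omega

theorem minFac_mem {n : ℕ} (hn : 2 ≤ n) : n.minFac ∈ n.primeFactors :=
  Nat.mem_primeFactors.mpr ⟨Nat.minFac_prime (by omega), Nat.minFac_dvd n, by omega⟩

/-- the largest exponent -/
def mx (n : ℕ) : ℕ := n.primeFactors.sup fun q => n.factorization q

theorem le_mx (n q : ℕ) : n.factorization q ≤ mx n := by
  by_cases h : q ∈ n.primeFactors
  · exact Finset.le_sup (f := fun q => n.factorization q) h
  · rw [fz0 h]
    exact Nat.zero_le _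

theorem exists_top {n : ℕ} (hn : 2 ≤ n) : ∃ p ∈ n.primeFactors, n.factorization p = mx n := by
  obtain ⟨p, hp, h⟩ := Finset.exists_mem_eq_sup n.primeFactors ⟨_, minFac_mem hn⟩ (fun q => n.factorization q)
  exact ⟨p, hp, h.symm⟩

theorem mx_pos {n : ℕ} (hn : 2 ≤ n) : 0 < mx n := lt_of_lt_of_le (fpos (minFac_mem hn)) (le_mx _ _)

theorem two_pow_f {n : ℕ} (hn : n ≠ 0) (q : ℕ) : 2 ^ n.factorization q ≤ n :=
  (Nat.pow_le_pow_right (by norm_num) (val_le_log n q hn)).trans (Nat.pow_log_le_self 2 hn)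

theorem f_lt {n : ℕ} (hn : n ≠ 0) (q : ℕ) : n.factorization q < n :=
  lt_of_lt_of_le (Nat.lt_two_pow_self) (two_pow_f hn q)

theorem mu_le_mx {n : ℕ} (hn : 2 ≤ n) : mu n ≤ mx n := (mu_le (minFac_mem hn)).trans (le_mx _ _)

theorem mu_pos {n : ℕ} (hn : 2 ≤ n) : 1 ≤ mu n := by
  obtain ⟨q, hq, h⟩ := mu_mem hn
  rw [h]
  exact fpos hq

theorem mx_lt {n : ℕ} (hn : 2 ≤ n) : mx n < n := by
  obtain ⟨p, -, h⟩ := exists_top hn
  rw [← h]
  exact f_lt (by omega) p

theorem four_mx {n : ℕ} (hn : 64 ≤ n) : 4 * mx n < n := by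
  obtain ⟨p, -, h⟩ := exists_top (n := n) (by omega)
  have h1 := two_pow_f (n := n) (by omega) p
  rw [h] at h1
  rcases le_or_gt (mx n) 4 with h2 | h2
  · omega
  · obtain ⟨u, hu⟩ := Nat.exists_eq_add_of_le h2
    have h3 : u < 2 ^ u := Nat.lt_two_pow_self
    rw [hu] at h1 ⊢
    have h4 : 2 ^ (4 + 1 + u) = 32 * 2 ^ u := by rw [pow_add]; norm_num
    have h5 : 2 ^ (Nat.succ 4 + u) = 32 * 2 ^ u := h4
    omega

section pair

variable {x b : ℕ} (hx : 2 ≤ x) (hb : 2 ≤ b) (hco : Nat.Coprime x b)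

include hco in
theorem co_b {q : ℕ} (hq : q ∈ x.primeFactors) : b.factorization q = 0 := by
  apply fz0
  intro h
  exact Finset.disjoint_left.mp hco.disjoint_primeFactors hq h

include hco in
theorem co_x {q : ℕ} (hq : q ∈ b.primeFactors) : x.factorization q = 0 := by
  apply fz0
  intro h
  exact Finset.disjoint_left.mp hco.disjoint_primeFactors h hq

include hx hb in
theorem pf_z : (x ^ b * b).primeFactors = x.primeFactors ∪ b.primeFactors := by
  rw [supp_same (by omega) (by omega), Nat.primeFactors_mul (by omega) (by omega)]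

include hx hb hco in
theorem card_z : (x ^ b * b).primeFactors.card = x.primeFactors.card + b.primeFactors.card := by
  rw [pf_z hx hb, Finset.card_union_of_disjoint hco.disjoint_primeFactors]

include hx hb hco in
theorem mx_z : mx (x ^ b * b) = b * mx x := by
  apply le_antisymm
  · apply Finset.sup_le
    intro q _
    rw [f_z (by omega) (by omega)]
    by_cases hq : q ∈ x.primeFactors
    · rw [co_b hco hq, add_zero]
      exact Nat.mul_le_mul_left b (le_mx _ _)
    · rw [fz0 hq, mul_zero, zero_add]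
      exact (f_lt (by omega) q).le.trans (Nat.le_mul_of_pos_right b (mx_pos hx))
  · obtain ⟨p, hp, h⟩ := exists_top hx
    rw [← h]
    refine le_trans ?_ (le_mx (x ^ b * b) p)
    rw [f_z (by omega) (by omega)]
    exact Nat.le_add_right _ _

include hx hb hco in
theorem top_z {p : ℕ} : (x ^ b * b).factorization p = mx (x ^ b * b) ↔ x.factorization p = mx x := by
  rw [mx_z hx hb hco, f_z (by omega) (by omega)]
  have h1 := mx_pos hx
  have h2 : b * 1 ≤ b * mx x := Nat.mul_le_mul_left b h1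
  constructor
  · intro h
    by_cases hq : p ∈ x.primeFactors
    · rw [co_b hco hq, add_zero] at h
      exact Nat.eq_of_mul_eq_mul_left (by omega) h
    · exfalso
      rw [fz0 hq, mul_zero, zero_add] at h
      have := f_lt (n := b) (by omega) p
      omega
  · intro h
    have hq : p ∈ x.primeFactors := mem_of_pos (by omega)
    rw [co_b hco hq, h, add_zero]

include hx hb hco in
theorem fmx_z {q : ℕ} (hq : q ∈ x.primeFactors) :
    (mx (x ^ b * b)).factorization q = (mx x).factorization q := by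
  have h1 := mx_pos hx
  rw [mx_z hx hb hco, Nat.factorization_mul (by omega) (by omega), Finsupp.add_apply, co_b hco hq, zero_add]

end pair

/-- the part of `x` prime to `S` -/
def bot (S : Finset ℕ) (x : ℕ) : ℕ := (x.factorization.filter (· ∉ S)).prod (· ^ ·)

theorem bot_f (S : Finset ℕ) (x : ℕ) : (bot S x).factorization = x.factorization.filter (· ∉ S) := by
  apply Nat.prod_pow_factorization_eq_self
  intro p hp
  rw [Finsupp.support_filter, Finset.mem_filter, Nat.support_factorization] at hp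
  exact Nat.prime_of_mem_primeFactors hp.1

theorem bot_in {S : Finset ℕ} {q : ℕ} (x : ℕ) (h : q ∈ S) : (bot S x).factorization q = 0 := by
  rw [bot_f]
  exact Finsupp.filter_apply_neg _ _ (by simpa using h)

theorem bot_out {S : Finset ℕ} {q : ℕ} (x : ℕ) (h : q ∉ S) : (bot S x).factorization q = x.factorization q := by
  rw [bot_f]
  exact Finsupp.filter_apply_pos _ _ h

theorem bot_ne (S : Finset ℕ) (x : ℕ) : bot S x ≠ 0 := by
  unfold bot
  rw [Finsupp.prod]
  apply Finset.prod_ne_zero_iff.mpr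
  intro p hp
  rw [Finsupp.support_filter, Finset.mem_filter, Nat.support_factorization] at hp
  exact pow_ne_zero _ (Nat.prime_of_mem_primeFactors hp.1).ne_zero

theorem bot_pf (S : Finset ℕ) (x : ℕ) : (bot S x).primeFactors = x.primeFactors \ S := by
  ext q
  rw [Finset.mem_sdiff]
  by_cases h : q ∈ S
  · simp only [h, not_true_eq_false, and_false, iff_false]
    intro h1
    have := fpos h1
    rw [bot_in x h] at this
    omega
  · simp only [h, not_false_eq_true, and_true]
    constructor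
    · intro h1
      have := fpos h1
      rw [bot_out x h] at this
      exact mem_of_pos this
    · intro h1
      apply mem_of_pos
      rw [bot_out x h]
      exact fpos h1

theorem bot_two {S : Finset ℕ} {x q : ℕ} (h : q ∉ S) (h1 : q ∈ x.primeFactors) : 2 ≤ bot S x := by
  have h2 : q ∈ (bot S x).primeFactors := by rw [bot_pf]; exact Finset.mem_sdiff.mpr ⟨h1, h⟩
  have h3 := Nat.le_of_mem_primeFactors h2
  have h4 := (Nat.prime_of_mem_primeFactors h2).two_le
  omega

theorem bot_z {S : Finset ℕ} {x b : ℕ} (hx : 2 ≤ x) (hb : 2 ≤ b) (h : ∀ q ∈ S, b.factorization q = 0) :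
    bot S (x ^ b * b) = bot S x ^ b * b := by
  apply Nat.eq_of_factorization_eq (bot_ne _ _) (mul_ne_zero (pow_ne_zero _ (bot_ne _ _)) (by omega))
  intro q
  rw [Nat.factorization_mul (pow_ne_zero _ (bot_ne _ _)) (by omega), Nat.factorization_pow, Finsupp.add_apply,
    Finsupp.smul_apply, smul_eq_mul]
  by_cases hq : q ∈ S
  · rw [bot_in _ hq, bot_in _ hq, h q hq]
    simp
  · rw [bot_out _ hq, bot_out _ hq, f_z (by omega) (by omega)]

theorem bot_pow {S : Finset ℕ} {x D : ℕ} (hx : x ≠ 0) (h : ∃ s, x = s ^ D) : ∃ s, bot S x = s ^ D := by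
  obtain ⟨s, rfl⟩ := h
  refine ⟨bot S s, ?_⟩
  apply Nat.eq_of_factorization_eq (bot_ne _ _) (pow_ne_zero _ (bot_ne _ _))
  intro q
  rw [Nat.factorization_pow, Finsupp.smul_apply, smul_eq_mul]
  by_cases hq : q ∈ S
  · rw [bot_in _ hq, bot_in _ hq, mul_zero]
  · rw [bot_out _ hq, bot_out _ hq, Nat.factorization_pow]
    rfl

/-- the least exponent lies outside `S` -/
theorem bot_mu {S : Finset ℕ} {x : ℕ} (h2 : 2 ≤ bot S x)
    (h : ∀ q ∈ S, ∀ r, r ∉ S → x.factorization r < x.factorization q) : mu (bot S x) = mu x := by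
  obtain ⟨q, hq, hq1⟩ := mu_mem h2
  have hq2 : q ∈ x.primeFactors \ S := by rw [← bot_pf]; exact hq
  rw [Finset.mem_sdiff] at hq2
  rw [bot_out x hq2.2] at hq1
  have hx2 : 2 ≤ x := by
    have h3 := Nat.le_of_mem_primeFactors hq2.1
    have h4 := (Nat.prime_of_mem_primeFactors hq2.1).two_le
    omega
  apply le_antisymm
  · obtain ⟨r, hr, hr1⟩ := mu_mem hx2
    rw [hr1]
    by_cases hrS : r ∈ S
    · rw [hq1]
      exact (h r hrS q hq2.2).le
    · rw [← bot_out x hrS]
      exact mu_le (by rw [bot_pf]; exact Finset.mem_sdiff.mpr ⟨hr, hrS⟩)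
  · rw [hq1]
    exact mu_le hq2.1

/-- the edges -/
def Eg (D : ℕ) (x n : ℕ) : Prop := ∃ b, 2 ≤ x ∧ 64 ≤ b ∧ Nat.Coprime x b ∧ (∃ s, x = s ^ D) ∧ (∃ s, b = s ^ D) ∧
  mu x ≤ mu b ∧ n = x ^ b * b

/-- the vertices with at most `M` prime factors -/
def Qd (M n : ℕ) : Prop := 2 ≤ n ∧ n.primeFactors.card ≤ M

/-- invariants of a walk -/
theorem walk_inv {D : ℕ} {Q : ℕ → Prop} {x y l : ℕ} (h : Wk (Eg D) Q x y l) :
    (∀ p, x.factorization p = mx x ↔ y.factorization p = mx y) ∧
    (2 ≤ x → ∀ p, x.factorization p = mx x → (mx x).factorization p = (mx y).factorization p) ∧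
    (2 ≤ x → 2 ≤ y) ∧ ∃ P R : ℕ, 0 < P ∧ 0 < R ∧ mx x * R ^ D = mx y * P ^ D := by
  induction h with
  | refl h => exact ⟨fun _ => Iff.rfl, fun _ _ _ => rfl, id, 1, 1, one_pos, one_pos, rfl⟩
  | step y z l h h1 h2 ih =>
    obtain ⟨i1, i2, i3, P, R, hP, hR, i4⟩ := ih
    rcases h1 with ⟨b, hy2, hb, hco, -, ⟨s, hs⟩, -, hz⟩ | ⟨b, hz2, hb, hco, -, ⟨s, hs⟩, -, hy⟩
    · have hb2 : 2 ≤ b := by omega
      have hs0 : 0 < s := by
        rcases Nat.eq_zero_or_pos s with h0 | h0
        · rcases Nat.eq_zero_or_pos D with h5 | h5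
          · rw [h5, pow_zero] at hs; omega
          · rw [h0, zero_pow (by omega)] at hs; omega
        · exact h0
      subst hz
      refine ⟨fun p => (i1 p).trans (top_z hy2 hb2 hco).symm, fun hx2 p hp => ?_, fun _ => ?_, P, R * s, hP,
        Nat.mul_pos hR hs0, ?_⟩
      · rw [i2 hx2 p hp]
        have hp' := (i1 p).mp hp
        have := mx_pos hy2
        exact (fmx_z hy2 hb2 hco (mem_of_pos (by omega))).symm
      · have h5 : 1 < y ^ b := Nat.one_lt_pow (by omega) hy2
        nlinarith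
      · rw [mx_z hy2 hb2 hco, mul_pow, ← hs]
        calc mx x * (R ^ D * b) = (mx x * R ^ D) * b := by ring
          _ = (mx y * P ^ D) * b := by rw [i4]
          _ = b * mx y * P ^ D := by ring
    · have hb2 : 2 ≤ b := by omega
      have hs0 : 0 < s := by
        rcases Nat.eq_zero_or_pos s with h0 | h0
        · rcases Nat.eq_zero_or_pos D with h5 | h5
          · rw [h5, pow_zero] at hs; omega
          · rw [h0, zero_pow (by omega)] at hs; omega
        · exact h0
      subst hy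
      refine ⟨fun p => (i1 p).trans (top_z hz2 hb2 hco), fun hx2 p hp => ?_, fun _ => hz2, P * s, R,
        Nat.mul_pos hP hs0, hR, ?_⟩
      · rw [i2 hx2 p hp]
        have hp' := (top_z hz2 hb2 hco).mp ((i1 p).mp hp)
        have := mx_pos hz2
        exact fmx_z hz2 hb2 hco (mem_of_pos (by omega))
      · rw [i4, mx_z hz2 hb2 hco, mul_pow, ← hs]
        ring

theorem four_pow_gt (Q : ℕ) : Q * Q < 2 ^ (2 * Q) := by
  have h : Q < 2 ^ Q := Nat.lt_two_pow_self
  rw [two_mul, pow_add]
  exact Nat.mul_lt_mul'' h h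

/-- Two numbers whose quotient is a `D`-th power are equal if they are close to each other. -/
theorem near {D A B P R : ℕ} (hD : 2 ≤ D) (hA : 0 < A) (hP : 0 < P) (hR : 0 < R) (h : A * R ^ D = B * P ^ D)
    (hAB : A ≤ B) (hc : 2 ^ (B - A) ≤ B) : A = B := by
  -- coprime `P`, `R`
  obtain ⟨g, P', R', hg, hcop, hP', hR'⟩ : ∃ g P' R', 0 < g ∧ Nat.Coprime P' R' ∧ P = P' * g ∧ R = R' * g := by
    obtain ⟨P', R', hcop, e1, e2⟩ := Nat.exists_coprime P R
    exact ⟨Nat.gcd P R, P', R', Nat.gcd_pos_of_pos_left _ hP, hcop, e1, e2⟩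
  have hP0 : 0 < P' := by
    apply Nat.pos_of_ne_zero
    rintro rfl
    rw [zero_mul] at hP'
    omega
  have hR0 : 0 < R' := by
    apply Nat.pos_of_ne_zero
    rintro rfl
    rw [zero_mul] at hR'
    omega
  have h1 : A * R' ^ D = B * P' ^ D := by
    have h2 : (A * R' ^ D) * g ^ D = (B * P' ^ D) * g ^ D := by
      rw [mul_assoc, ← mul_pow, ← hR', h, hP', mul_pow]
      ring
    exact Nat.eq_of_mul_eq_mul_right (pow_pos hg D) h2
  have hdvd : P' ^ D ∣ A := by
    have h2 : P' ^ D ∣ A * R' ^ D := ⟨B, by rw [h1]; ring⟩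
    exact (Nat.Coprime.pow D D hcop).dvd_of_dvd_mul_right h2
  obtain ⟨m, hm⟩ := hdvd
  have hm0 : 0 < m := by
    apply Nat.pos_of_ne_zero
    rintro rfl
    rw [mul_zero] at hm
    omega
  have hB : B = m * R' ^ D := by
    rw [hm] at h1
    have h2 : (m * R' ^ D) * P' ^ D = B * P' ^ D := by rw [← h1]; ring
    exact (Nat.eq_of_mul_eq_mul_right (pow_pos hP0 D) h2).symm
  by_contra hne
  have hlt : A < B := lt_of_le_of_ne hAB hne
  have hPR : P' < R' := by
    by_contra hcon
    push Not at hcon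
    have h2 := Nat.mul_le_mul_left m (Nat.pow_le_pow_left hcon D)
    rw [← hB] at h2
    rw [hm, mul_comm] at hlt
    omega
  obtain ⟨u, hu⟩ : ∃ u, R' = u + 1 := ⟨R' - 1, by omega⟩
  obtain ⟨d, hd⟩ : ∃ d, D = d + 2 := ⟨D - 2, by omega⟩
  -- `B - A ≥ m R'^(D-2) (2 R' - 1)`
  have h3 : A + m * R' ^ d * (2 * u + 1) ≤ B := by
    have h4 : P' ^ D ≤ u ^ D := Nat.pow_le_pow_left (by omega) D
    have h5 : u ^ D ≤ R' ^ d * (u * u) := by
      rw [hd, pow_add, pow_two]
      exact Nat.mul_le_mul_right _ (Nat.pow_le_pow_left (by omega) d)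
    have h6 : A ≤ m * (R' ^ d * (u * u)) := by
      rw [hm, mul_comm]
      exact Nat.mul_le_mul_left m (h4.trans h5)
    calc A + m * R' ^ d * (2 * u + 1) ≤ m * (R' ^ d * (u * u)) + m * R' ^ d * (2 * u + 1) :=
          Nat.add_le_add_right h6 _
      _ = m * (R' ^ d * (u + 1) ^ 2) := by ring
      _ = B := by rw [hB, hd, pow_add, ← hu]
  have h7 : 2 ^ (m * R' ^ d * (2 * u + 1)) ≤ B := (Nat.pow_le_pow_right (by norm_num) (by omega)).trans hc
  set w := m * R' ^ d with hw
  have hw1 : 1 ≤ w := Nat.mul_pos hm0 (pow_pos hR0 d)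
  have hBw : B = w * (R' * R') := by rw [hB, hd, pow_add, hw]; ring
  have h8 : R' * R' < 2 ^ (2 * u + 1) * 1 := by
    rw [hu, mul_one]
    have h9 : ∀ v : ℕ, (v + 1) * (v + 1) < 2 ^ (2 * v + 1) ∨ v = 0 := by
      intro v
      induction v with
      | zero => right; rfl
      | succ v ih =>
        left
        rcases ih with ih | ih
        · have e1 : 2 ^ (2 * (v + 1) + 1) = 4 * 2 ^ (2 * v + 1) := by
            rw [show 2 * (v + 1) + 1 = (2 * v + 1) + 2 by ring, pow_add]; ring
          rw [e1]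
          nlinarith
        · subst ih; norm_num
    rcases h9 u with h10 | h10
    · exact h10
    · exfalso; omega
  obtain ⟨w', hw'⟩ : ∃ w', w = w' + 1 := ⟨w - 1, by omega⟩
  have h9 : w * (R' * R') < 2 ^ (w * (2 * u + 1)) := by
    have e1 : w ≤ 2 ^ (w' * (2 * u + 1)) := by
      have e2 : w' < 2 ^ w' := Nat.lt_two_pow_self
      have e3 : 2 ^ w' ≤ 2 ^ (w' * (2 * u + 1)) :=
        Nat.pow_le_pow_right (by norm_num) (Nat.le_mul_of_pos_right w' (by omega))
      omega
    calc w * (R' * R') < w * (2 ^ (2 * u + 1)) := by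
          apply Nat.mul_lt_mul_of_pos_left _ (by omega)
          rwa [mul_one] at h8
      _ ≤ 2 ^ (w' * (2 * u + 1)) * 2 ^ (2 * u + 1) := Nat.mul_le_mul_right _ e1
      _ = 2 ^ (w * (2 * u + 1)) := by rw [← pow_add, hw']; congr 1; ring
  omega

end PRF2
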