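import Mathlib
import Pool.Agent.PRF2.Cop

/-!
# Coprime pairs: the vertices reached from a vertex with the least number of prime factors
-/

namespace PRF2

open PRF PRF.TGap

/-- separation -/
def SepC (D M : ℕ) : Prop := ∀ x x' l, Wk (Eg D) (Qd M) x x' l → ∀ e e', 0 < e → 0 < e' → e ≤ mu x → e' ≤ mu x' →
  e' * x' * mx x = e * x * mx x' → x = x'

/-- closed walks have even length -/
def EvnC (D M : ℕ) : Prop := ∀ x l, Wk (Eg D) (Qd M) x x l → Even l

/-- the description of the vertices reached from `C` -/
def StC (D M C n l : ℕ) : Prop := (n = C ∧ Even l) ∨ (2 ≤ bot C.primeFactors n ∧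
  (∀ q ∈ C.primeFactors, n.factorization q * mx C = C.factorization q * mx n) ∧
  (∀ q ∈ C.primeFactors, ∀ r, r ∉ C.primeFactors → n.factorization r < n.factorization q) ∧
  (∀ q ∈ C.primeFactors, (mx n).factorization q = (mx C).factorization q) ∧
  ∃ Y l', 64 ≤ Y ∧ mu C ≤ mu Y ∧ Wk (Eg D) (Qd M) Y (bot C.primeFactors n) l' ∧ Even (l + l' + 1) ∧
    mx n * mx Y = mx C * Y * mx (bot C.primeFactors n))

theorem SepC.mono {D M M' : ℕ} (h : M' ≤ M) (hS : SepC D M) : SepC D M' := by
  intro x x' l hw
  exact hS x x' l (hw.mono fun n hn => ⟨hn.1, hn.2.trans h⟩)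

theorem EvnC.mono {D M M' : ℕ} (h : M' ≤ M) (hE : EvnC D M) : EvnC D M' := by
  intro x l hw
  exact hE x l (hw.mono fun n hn => ⟨hn.1, hn.2.trans h⟩)

theorem card_pos' {n : ℕ} (hn : 2 ≤ n) : 0 < n.primeFactors.card := Finset.card_pos.mpr ⟨_, minFac_mem hn⟩

theorem mu_prop {C y : ℕ} (hC : 2 ≤ C) (hy : 2 ≤ y) (hS : y.primeFactors = C.primeFactors)
    (h : ∀ q ∈ C.primeFactors, y.factorization q * mx C = C.factorization q * mx y) :
    mu y * mx C = mu C * mx y := by
  apply le_antisymm
  · obtain ⟨q, hq, h1⟩ := mu_mem hC
    rw [h1, ← h q hq]
    exact Nat.mul_le_mul_right _ (mu_le (by rw [hS]; exact hq))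
  · obtain ⟨q, hq, h1⟩ := mu_mem hy
    rw [hS] at hq
    rw [h1, h q hq]
    exact Nat.mul_le_mul_right _ (mu_le hq)

theorem stateC {D M C n l : ℕ} (hC : 2 ≤ C) (hS : SepC D M) (hE : EvnC D M)
    (h : Wk (Eg D) (fun n => Qd (M + 1) n ∧ C.primeFactors.card ≤ n.primeFactors.card) C n l) :
    StC D M C n l := by
  have hCc := card_pos' hC
  have hmC := mx_pos hC
  have h0S : 0 ∉ C.primeFactors := fun h => absurd (Nat.prime_of_mem_primeFactors h) Nat.not_prime_zero
  induction h with
  | refl h => exact Or.inl ⟨rfl, Even.zero⟩
  | step x y l h h1 h2 ih =>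
    rcases ih with ⟨hx, hl⟩ | ⟨ht2, hpr, hord, hfm, Y, l', hY, hmu, hw, hl, hmx⟩
    · subst hx
      rcases h1 with ⟨b, hx2, hb, hco, hD1, hD2, hm, hy⟩ | ⟨b, hy2, hb, hco, hD1, hD2, hm, hx⟩
      · -- up from `C`
        have hb2 : 2 ≤ b := by omega
        subst hy
        have hbC : ∀ q ∈ x.primeFactors, b.factorization q = 0 := fun q hq => co_b hco hq
        have hbot : bot x.primeFactors (x ^ b * b) = b := by
          apply Nat.eq_of_factorization_eq (bot_ne _ _) (by omega)
          intro q
          by_cases hq : q ∈ x.primeFactors
          · rw [bot_in _ hq, hbC q hq]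
          · rw [bot_out _ hq, f_z (by omega) (by omega), fz0 hq, mul_zero, zero_add]
        have hcard := card_z hx2 hb2 hco
        refine Or.inr ⟨by rw [hbot]; exact hb2, ?_, ?_, ?_, b, 0, hb, hm, ?_, ?_, ?_⟩
        · intro q hq
          rw [f_z (by omega) (by omega), hbC q hq, add_zero, mx_z hx2 hb2 hco]
          ring
        · intro q hq r hr
          rw [f_z (by omega) (by omega), f_z (by omega) (by omega), fz0 hr, hbC q hq, mul_zero, zero_add, add_zero]
          exact lt_of_lt_of_le (f_lt (by omega) r) (Nat.le_mul_of_pos_right b (fpos hq))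
        · intro q hq
          exact fmx_z hx2 hb2 hco hq
        · rw [hbot]
          refine Wk.refl ⟨hb2, ?_⟩
          have := h2.1.2
          omega
        · obtain ⟨k, hk⟩ := hl
          exact ⟨k + 1, by omega⟩
        · rw [hbot, mx_z hx2 hb2 hco]
          ring
      · -- down from `C`
        exfalso
        have hb2 : 2 ≤ b := by omega
        have hcard := card_z hy2 hb2 hco
        rw [← hx] at hcard
        have := card_pos' hb2
        have := h2.2
        omega
    · have hSx : ∀ q ∈ C.primeFactors, q ∈ x.primeFactors := by
        intro q hq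
        apply mem_of_pos
        have := hord q hq 0 h0S
        omega
      rcases h1 with ⟨b, hx2, hb, hco, hD1, hD2, hm, hy⟩ | ⟨b, hy2, hb, hco, hD1, hD2, hm, hx⟩
      · -- up
        have hb2 : 2 ≤ b := by omega
        subst hy
        have hbC : ∀ q ∈ C.primeFactors, b.factorization q = 0 := fun q hq => co_b hco (hSx q hq)
        have hbot := bot_z (S := C.primeFactors) hx2 hb2 hbC
        have hcot : Nat.Coprime (bot C.primeFactors x) b := by
          apply (Nat.disjoint_primeFactors (bot_ne _ _) (by omega)).mp
          rw [bot_pf]
          exact Finset.disjoint_of_subset_left Finset.sdiff_subset hco.disjoint_primeFactors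
        have hSy : C.primeFactors ⊆ (x ^ b * b).primeFactors := by
          intro q hq
          rw [pf_z hx2 hb2]
          exact Finset.mem_union_left _ (hSx q hq)
        have hcard : (bot C.primeFactors (x ^ b * b)).primeFactors.card ≤ M := by
          rw [bot_pf, Finset.card_sdiff_of_subset hSy]
          have := h2.1.2
          omega
        have ht' : 2 ≤ bot C.primeFactors (x ^ b * b) := by
          rw [hbot]
          have h5 : 1 < bot C.primeFactors x ^ b := Nat.one_lt_pow (by omega) ht2
          nlinarith
        refine Or.inr ⟨ht', ?_, ?_, ?_, Y, l' + 1, hY, hmu, ?_, ?_, ?_⟩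
        · intro q hq
          rw [f_z (by omega) (by omega), hbC q hq, add_zero, mx_z hx2 hb2 hco]
          calc b * x.factorization q * mx C = b * (x.factorization q * mx C) := by ring
            _ = b * (C.factorization q * mx x) := by rw [hpr q hq]
            _ = C.factorization q * (b * mx x) := by ring
        · intro q hq r hr
          rw [f_z (by omega) (by omega), f_z (by omega) (by omega), hbC q hq, add_zero]
          have h5 := hord q hq r hr
          by_cases hrx : r ∈ x.primeFactors
          · rw [co_b hco hrx, add_zero]
            exact Nat.mul_lt_mul_of_pos_left h5 (by omega)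
          · rw [fz0 hrx, mul_zero, zero_add]
            exact lt_of_lt_of_le (f_lt (by omega) r) (Nat.le_mul_of_pos_right b (fpos (hSx q hq)))
        · intro q hq
          rw [fmx_z hx2 hb2 hco (hSx q hq)]
          exact hfm q hq
        · refine Wk.step _ _ l' hw (Or.inl ⟨b, ht2, hb, hcot, bot_pow (by omega) hD1, hD2, ?_, hbot⟩) ⟨ht', hcard⟩
          rw [bot_mu ht2 hord]
          exact hm
        · obtain ⟨k, hk⟩ := hl
          exact ⟨k + 1, by omega⟩
        · rw [hbot, mx_z ht2 hb2 hcot, mx_z hx2 hb2 hco]
          calc b * mx x * mx Y = b * (mx x * mx Y) := by ring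
            _ = b * (mx C * Y * mx (bot C.primeFactors x)) := by rw [hmx]
            _ = _ := by ring
      · -- down
        have hb2 : 2 ≤ b := by omega
        subst hx
        have hbC : ∀ q ∈ C.primeFactors, b.factorization q = 0 := by
          intro q hq
          by_contra hne
          have hqb : q ∈ b.primeFactors := mem_of_pos (by omega)
          have hqy : y.factorization q = 0 := co_x hco hqb
          have e1 : (y ^ b * b).factorization q = b.factorization q := by
            rw [f_z (by omega) (by omega), hqy, mul_zero, zero_add]
          have hsub : y.primeFactors ⊆ C.primeFactors.erase q := by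
            intro r hr
            rw [Finset.mem_erase]
            constructor
            · rintro rfl
              have := fpos hr
              omega
            · by_contra hrS
              have e2 := hord q hq r hrS
              rw [e1, f_z (by omega) (by omega)] at e2
              have e3 := f_lt (n := b) (by omega) q
              have e4 : b * 1 ≤ b * y.factorization r := Nat.mul_le_mul_left b (fpos hr)
              omega
          have h5 := Finset.card_le_card hsub
          rw [Finset.card_erase_of_mem hq] at h5
          have := h2.2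
          omega
        have hSy : ∀ q ∈ C.primeFactors, q ∈ y.primeFactors := by
          intro q hq
          apply mem_of_pos
          have h5 := fpos (hSx q hq)
          rw [f_z (by omega) (by omega), hbC q hq, add_zero] at h5
          exact Nat.pos_of_mul_pos_left h5 |> fun h => h
        have hpr' : ∀ q ∈ C.primeFactors, y.factorization q * mx C = C.factorization q * mx y := by
          intro q hq
          have h5 := hpr q hq
          rw [f_z (by omega) (by omega), hbC q hq, add_zero, mx_z hy2 hb2 hco] at h5
          apply Nat.eq_of_mul_eq_mul_left (show 0 < b by omega)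
          calc b * (y.factorization q * mx C) = b * y.factorization q * mx C := by ring
            _ = _ := by rw [h5]; ring
        have hord' : ∀ q ∈ C.primeFactors, ∀ r, r ∉ C.primeFactors → y.factorization r < y.factorization q := by
          intro q hq r hr
          have h5 := hord q hq r hr
          rw [f_z (by omega) (by omega), f_z (by omega) (by omega), hbC q hq, add_zero] at h5
          exact Nat.lt_of_mul_lt_mul_left (a := b) (by omega)
        have hfm' : ∀ q ∈ C.primeFactors, (mx y).factorization q = (mx C).factorization q := by
          intro q hq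
          rw [← hfm q hq, fmx_z hy2 hb2 hco (hSy q hq)]
        have hbot := bot_z (S := C.primeFactors) hy2 hb2 hbC
        have hcot : Nat.Coprime (bot C.primeFactors y) b := by
          apply (Nat.disjoint_primeFactors (bot_ne _ _) (by omega)).mp
          rw [bot_pf]
          exact Finset.disjoint_of_subset_left Finset.sdiff_subset hco.disjoint_primeFactors
        rcases le_or_gt 2 (bot C.primeFactors y) with hby | hby
        · have hcard : (bot C.primeFactors y).primeFactors.card ≤ M := by
            rw [bot_pf, Finset.card_sdiff_of_subset (fun q hq => hSy q hq)]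
            have := h2.1.2
            omega
          refine Or.inr ⟨hby, hpr', hord', hfm', Y, l' + 1, hY, hmu, ?_, ?_, ?_⟩
          · refine Wk.step _ _ l' hw (Or.inr ⟨b, hby, hb, hcot, bot_pow (by omega) hD1, hD2, ?_, hbot⟩) ⟨hby, hcard⟩
            rw [bot_mu hby hord']
            exact hm
          · obtain ⟨k, hk⟩ := hl
            exact ⟨k + 1, by omega⟩
          · rw [hbot, mx_z hby hb2 hcot, mx_z hy2 hb2 hco] at hmx
            apply Nat.eq_of_mul_eq_mul_left (show 0 < b by omega)
            calc b * (mx y * mx Y) = b * mx y * mx Y := by ring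
              _ = mx C * Y * (b * mx (bot C.primeFactors y)) := hmx
              _ = _ := by ring
        · -- back to `C`
          have hb1 : bot C.primeFactors y = 1 := by
            have := bot_ne C.primeFactors y
            omega
          have hsupp : y.primeFactors = C.primeFactors := by
            apply Finset.Subset.antisymm
            · intro q hq
              by_contra hqS
              have := bot_two hqS hq
              omega
            · exact fun q hq => hSy q hq
          rw [hb1, one_pow, one_mul] at hbot
          rw [hbot] at hw hmx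
          rw [mx_z hy2 hb2 hco] at hmx
          have hmp := mu_prop hC hy2 hsupp hpr'
          have hYb : Y = b := by
            apply hS Y b l' hw (mu C) (mu y) (mu_pos hC) (mu_pos hy2) hmu hm
            apply Nat.eq_of_mul_eq_mul_right hmC
            calc mu y * b * mx Y * mx C = (mu y * mx C) * (b * mx Y) := by ring
              _ = (mu C * mx y) * (b * mx Y) := by rw [hmp]
              _ = mu C * (b * mx y * mx Y) := by ring
              _ = mu C * (mx C * Y * mx b) := by rw [hmx]
              _ = _ := by ring
          subst hYb
          have hmy : mx y = mx C := by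
            have h5 : 0 < Y * mx Y := Nat.mul_pos (by omega) (mx_pos hb2)
            apply Nat.eq_of_mul_eq_mul_right h5
            calc mx y * (Y * mx Y) = Y * mx y * mx Y := by ring
              _ = mx C * Y * mx Y := hmx
              _ = _ := by ring
          refine Or.inl ⟨?_, ?_⟩
          · apply Nat.eq_of_factorization_eq (by omega) (by omega)
            intro q
            by_cases hq : q ∈ C.primeFactors
            · have h5 := hpr' q hq
              rw [hmy] at h5
              exact Nat.eq_of_mul_eq_mul_right hmC h5
            · rw [fz0 hq, fz0 (by rw [hsupp]; exact hq)]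
          · have h6 := hE Y l' hw
            obtain ⟨k, hk⟩ := hl
            obtain ⟨k', hk'⟩ := h6
            exact ⟨k - k', by omega⟩

/-- decomposition of a walk into the data of `stateC` at both ends -/
theorem splitC {D M a b l : ℕ} (hS : SepC D M) (hE : EvnC D M) (h : Wk (Eg D) (Qd (M + 1)) a b l) :
    ∃ C l1 l2, 2 ≤ C ∧ StC D M C a l1 ∧ StC D M C b l2 ∧ l = l1 + l2 := by
  obtain ⟨c, l1, l2, h1, h2, hl⟩ := h.exists_min (fun n => n.primeFactors.card)
  have hc : 2 ≤ c := h1.left.1.1
  exact ⟨c, l1, l2, hc, stateC hc hS hE h1, stateC hc hS hE h2, hl⟩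

/-- A prime whose exponent in `t` is not small divides all numbers of a walk which ends in `t`. -/
theorem topKey {D M Y t l p : ℕ} (hS : SepC D M) (hE : EvnC D M) (hw : Wk (Eg D) (Qd M) Y t l)
    (hp : p ∈ t.primeFactors) (h4 : mx t ≤ 4 * t.factorization p) :
    (mx Y).factorization p = (mx t).factorization p := by
  rcases Nat.eq_zero_or_pos M with hM | hM
  · exfalso
    have h5 := hw.right
    have := card_pos' h5.1
    have := h5.2
    omega
  obtain ⟨M', rfl⟩ : ∃ M', M = M' + 1 := ⟨M - 1, by omega⟩
  obtain ⟨C, l1, l2, hC, h1, h2, -⟩ := splitC (hS.mono (Nat.le_succ M')) (hE.mono (Nat.le_succ M')) hw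
  have hpC : p ∈ C.primeFactors := by
    rcases h2 with ⟨h, -⟩ | ⟨hs2, -, -, -, Z, l', hZ, -, hwz, -, hmx⟩
    · rw [← h]; exact hp
    · by_contra hcon
      have e1 : t.factorization p ≤ mx (bot C.primeFactors t) := by
        rw [← bot_out t hcon]
        exact le_mx _ _
      have e2 := four_mx hZ
      have e3 := mx_pos hC
      have e4 := mx_pos (n := Z) (by omega)
      have e5 := mx_pos hs2
      have e6 : Z * mx (bot C.primeFactors t) ≤ mx t * mx Z := by
        rw [hmx]
        calc Z * mx (bot C.primeFactors t) = 1 * (Z * mx (bot C.primeFactors t)) := by ring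
          _ ≤ mx C * (Z * mx (bot C.primeFactors t)) := Nat.mul_le_mul_right _ e3
          _ = _ := by ring
      have e7 : (4 * mx Z) * mx (bot C.primeFactors t) < Z * mx (bot C.primeFactors t) :=
        Nat.mul_lt_mul_of_pos_right e2 e5
      have e8 : 4 * mx (bot C.primeFactors t) * mx Z < mx t * mx Z := by
        calc 4 * mx (bot C.primeFactors t) * mx Z = (4 * mx Z) * mx (bot C.primeFactors t) := by ring
          _ < _ := lt_of_lt_of_le e7 e6
      have e9 := Nat.lt_of_mul_lt_mul_right e8
      omega
  have key : ∀ n l, StC D M' C n l → (mx n).factorization p = (mx C).factorization p := by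
    intro n l h
    rcases h with ⟨h, -⟩ | ⟨-, -, -, h, -⟩
    · rw [h]
    · exact h p hpC
  rw [key Y l1 h1, key t l2 h2]

end PRF2
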