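import Mathlib
import Pool.Agent.PRF2.Cop2
import Pool.Agent.PRF.Forest2

/-!
# Coprime pairs: the induction and the two-colouring
-/

namespace PRF2

open PRF PRF.TGap

theorem top_of_walk {D M Y t l : ℕ} (hw : Wk (Eg D) (Qd M) Y t l) {p : ℕ} (hp : t.factorization p = mx t) :
    Y.factorization p = mx Y ∧ (mx Y).factorization p = (mx t).factorization p := by
  obtain ⟨i1, i2, -, -⟩ := walk_inv hw
  have h1 := (i1 p).mpr hp
  exact ⟨h1, i2 hw.left.1 p h1⟩

/-- comparison of two walks which end in numbers with `e' t' = e t` -/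
theorem topLe {D M Y Y' t t' l l' e e' : ℕ} (hS : SepC D M) (hE : EvnC D M) (hw : Wk (Eg D) (Qd M) Y t l)
    (hw' : Wk (Eg D) (Qd M) Y' t' l') (he : 0 < e) (he' : 0 < e') (het : e ≤ mu t) (het' : e' ≤ mu t')
    (h : e' * t' = e * t) (hst : Y * mx t * mx Y' = Y' * mx t' * mx Y) :
    mx Y ≤ mx Y' ∧ (mx t ≤ mx t' → 2 ^ (mx t' - mx t) ≤ mx t') := by
  have ht := hw.right.1
  have ht' := hw'.right.1
  have hY := hw.left.1
  have hY' := hw'.left.1
  have hf : ∀ q, e'.factorization q + t'.factorization q = e.factorization q + t.factorization q := by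
    intro q
    have h1 := congrArg (fun n => n.factorization q) h
    rw [Nat.factorization_mul (by omega) (by omega), Nat.factorization_mul (by omega) (by omega),
      Finsupp.add_apply, Finsupp.add_apply] at h1
    exact h1
  obtain ⟨p, hp, hpt⟩ := exists_top ht
  obtain ⟨p', hp', hpt'⟩ := exists_top ht'
  have hmt := mx_pos ht
  have hmt' := mx_pos ht'
  have i1 := hf p
  have i2 := hf p'
  rw [hpt] at i1
  rw [hpt'] at i2
  have j1 := le_mx t p'
  have j2 := two_pow_f (show e ≠ 0 by omega) p'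
  have j3 := f_lt (show e ≠ 0 by omega) p'
  have j4 := mu_le_mx ht
  have j5 := two_pow_f (show e' ≠ 0 by omega) p
  have j6 := mu_le_mx ht'
  have hlt2 : mx t' < 2 * mx t := by omega
  -- the prime `p` divides `t'`
  have hpt2 : p ∈ t'.primeFactors := by
    apply mem_of_pos
    by_contra hcon
    have h0 : t'.factorization p = 0 := by omega
    have h1 : mx t ≤ e'.factorization p := by omega
    have h2 : 2 ^ mx t ≤ e' := (Nat.pow_le_pow_right (by norm_num) h1).trans j5
    obtain ⟨u, hu⟩ : ∃ u, mx t = u + 1 := ⟨mx t - 1, by omega⟩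
    have h3 : u < 2 ^ u := Nat.lt_two_pow_self
    rw [hu, pow_succ] at h2
    omega
  have j7 : e' ≤ t'.factorization p := het'.trans (mu_le hpt2)
  have j8 := f_lt (show e' ≠ 0 by omega) p
  have h4 : mx t' ≤ 4 * t'.factorization p := by omega
  have k1 := topKey hS hE hw' hpt2 h4
  obtain ⟨k2, k3⟩ := top_of_walk hw hpt
  constructor
  · have h5 := congrArg (fun n => n.factorization p) hst
    have e1 := mx_pos hY
    have e2 := mx_pos hY'
    have z1 : Y * mx t ≠ 0 := mul_ne_zero (by omega) (by omega)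
    have z2 : Y' * mx t' ≠ 0 := mul_ne_zero (by omega) (by omega)
    rw [Nat.factorization_mul z1 (by omega), Nat.factorization_mul z2 (by omega),
      Nat.factorization_mul (by omega) (by omega), Nat.factorization_mul (by omega) (by omega)] at h5
    simp only [Finsupp.add_apply] at h5
    rw [k1, k3, k2] at h5
    have h6 : mx Y = Y'.factorization p := by omega
    rw [h6]
    exact le_mx _ _
  · intro hle
    refine (Nat.pow_le_pow_right (by norm_num) (show mx t' - mx t ≤ e.factorization p' by omega)).trans ?_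
    omega

theorem sep_stepC {D M : ℕ} (hD : 2 ≤ D) (hS : SepC D M) (hE : EvnC D M) : SepC D (M + 1) := by
  intro x x' l hw e e' he he' hex hex' heq
  have hx := hw.left.1
  have hx' := hw.right.1
  have hmx := mx_pos hx
  have hmx' := mx_pos hx'
  -- the largest exponents are equal
  have hV : mx x = mx x' := by
    obtain ⟨i1, i2, -, P, R, hP, hR, i4⟩ := walk_inv hw
    obtain ⟨p, hp, hpx⟩ := exists_top hx
    have hpx' := (i1 p).mp hpx
    have i5 := i2 hx p hpx
    have h1 := congrArg (fun n => n.factorization p) heq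
    rw [Nat.factorization_mul (mul_ne_zero (by omega) (by omega)) (by omega),
      Nat.factorization_mul (mul_ne_zero (by omega) (by omega)) (by omega),
      Nat.factorization_mul (by omega) (by omega), Nat.factorization_mul (by omega) (by omega)] at h1
    simp only [Finsupp.add_apply] at h1
    rw [hpx, hpx', i5] at h1
    have j1 := two_pow_f (show e ≠ 0 by omega) p
    have j2 := two_pow_f (show e' ≠ 0 by omega) p
    have j3 := mu_le_mx hx
    have j4 := mu_le_mx hx'
    rcases le_total (mx x) (mx x') with hle | hle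
    · apply near hD hmx hP hR i4 hle
      refine (Nat.pow_le_pow_right (by norm_num) (show mx x' - mx x ≤ e.factorization p by omega)).trans ?_
      omega
    · symm
      apply near hD hmx' hR hP i4.symm hle
      refine (Nat.pow_le_pow_right (by norm_num) (show mx x - mx x' ≤ e'.factorization p by omega)).trans ?_
      omega
  have heq2 : e' * x' = e * x := by
    rw [hV] at heq
    exact Nat.eq_of_mul_eq_mul_right hmx' heq
  obtain ⟨C, l1, l2, hC, h1, h2, -⟩ := splitC hS hE hw
  have hmC := mx_pos hC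
  -- the mixed case
  have hmix : ∀ n, mx n = mx C → ¬ (2 ≤ bot C.primeFactors n ∧ ∃ Y : ℕ, 64 ≤ Y ∧
      mx n * mx Y = mx C * Y * mx (bot C.primeFactors n)) := by
    rintro n hn ⟨hb, Y, hY, hm⟩
    have e1 := mx_lt (n := Y) (by omega)
    have e2 := mx_pos hb
    rw [hn, mul_assoc] at hm
    have h3 := Nat.eq_of_mul_eq_mul_left hmC hm
    have h4 : Y * 1 ≤ Y * mx (bot C.primeFactors n) := Nat.mul_le_mul_left Y e2
    omega
  rcases h1 with ⟨h1, -⟩ | ⟨hb1, hpr1, hord1, -, Y, k1, hY, hmu1, hw1, -, hm1⟩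
  · rcases h2 with ⟨h2, -⟩ | ⟨hb2, hpr2, hord2, -, Y', k2, hY', hmu2, hw2, -, hm2⟩
    · rw [h1, h2]
    · exact absurd ⟨hb2, Y', hY', hm2⟩ (hmix x' (by rw [← hV, h1]))
  · rcases h2 with ⟨h2, -⟩ | ⟨hb2, hpr2, hord2, -, Y', k2, hY', hmu2, hw2, -, hm2⟩
    · exact absurd ⟨hb1, Y, hY, hm1⟩ (hmix x (by rw [hV, h2]))
    · -- both are nontrivial
      have hin : ∀ q ∈ C.primeFactors, x.factorization q = x'.factorization q := by
        intro q hq
        have e1 := hpr1 q hq
        have e2 := hpr2 q hq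
        rw [hV, ← e2] at e1
        exact Nat.eq_of_mul_eq_mul_right hmC e1
      have hf : ∀ q, e'.factorization q + x'.factorization q = e.factorization q + x.factorization q := by
        intro q
        have h1 := congrArg (fun n => n.factorization q) heq2
        rw [Nat.factorization_mul (by omega) (by omega), Nat.factorization_mul (by omega) (by omega),
          Finsupp.add_apply, Finsupp.add_apply] at h1
        exact h1
      set t := bot C.primeFactors x with ht
      set t' := bot C.primeFactors x' with ht'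
      have ht2 : e' * t' = e * t := by
        apply Nat.eq_of_factorization_eq (mul_ne_zero (by omega) (by omega)) (mul_ne_zero (by omega) (by omega))
        intro q
        rw [Nat.factorization_mul (by omega) (by omega), Nat.factorization_mul (by omega) (by omega),
          Finsupp.add_apply, Finsupp.add_apply]
        have h3 := hf q
        by_cases hq : q ∈ C.primeFactors
        · rw [ht, ht', bot_in _ hq, bot_in _ hq]
          have := hin q hq
          omega
        · rw [ht, ht', bot_out _ hq, bot_out _ hq]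
          exact h3
      have hst : Y * mx t * mx Y' = Y' * mx t' * mx Y := by
        apply Nat.eq_of_mul_eq_mul_left hmC
        calc mx C * (Y * mx t * mx Y') = (mx C * Y * mx t) * mx Y' := by ring
          _ = (mx x * mx Y) * mx Y' := by rw [hm1]
          _ = (mx x' * mx Y') * mx Y := by rw [hV]; ring
          _ = (mx C * Y' * mx t') * mx Y := by rw [hm2]
          _ = _ := by ring
      have het : e ≤ mu t := by rw [ht, bot_mu hb1 hord1]; exact hex
      have het' : e' ≤ mu t' := by rw [ht', bot_mu hb2 hord2]; exact hex'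
      obtain ⟨a1, a2⟩ := topLe hS hE hw1 hw2 he he' het het' ht2 hst
      obtain ⟨b1, b2⟩ := topLe hS hE hw2 hw1 he' he het' het ht2.symm hst.symm
      have hVY : mx Y = mx Y' := le_antisymm a1 b1
      have hmY := mx_pos (n := Y) (by omega)
      obtain ⟨-, -, -, P₁, R₁, hP₁, hR₁, i₁⟩ := walk_inv hw1
      obtain ⟨-, -, -, P₂, R₂, hP₂, hR₂, i₂⟩ := walk_inv hw2
      have hrat : mx t * (P₁ * R₂) ^ D = mx t' * (P₂ * R₁) ^ D := by
        rw [mul_pow, mul_pow]
        calc mx t * (P₁ ^ D * R₂ ^ D) = (mx t * P₁ ^ D) * R₂ ^ D := by ring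
          _ = (mx Y * R₁ ^ D) * R₂ ^ D := by rw [i₁]
          _ = (mx Y' * R₂ ^ D) * R₁ ^ D := by rw [hVY]; ring
          _ = (mx t' * P₂ ^ D) * R₁ ^ D := by rw [i₂]
          _ = _ := by ring
      have hVt : mx t = mx t' := by
        rcases le_total (mx t) (mx t') with hle | hle
        · exact near hD (mx_pos hb1) (Nat.mul_pos hP₂ hR₁) (Nat.mul_pos hP₁ hR₂) hrat hle (a2 hle)
        · exact (near hD (mx_pos hb2) (Nat.mul_pos hP₁ hR₂) (Nat.mul_pos hP₂ hR₁) hrat.symm hle (b2 hle)).symm
      have hYY : Y = Y' := by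
        rw [hVt, hVY] at hst
        have h5 : 0 < mx t' * mx Y' := Nat.mul_pos (mx_pos hb2) (by omega)
        rw [mul_assoc, mul_assoc] at hst
        exact Nat.eq_of_mul_eq_mul_right h5 hst
      subst hYY
      have htt : t = t' := by
        apply hS t t' _ (hw1.symm.trans hw2) e e' he he' het het'
        rw [ht2, hVt]
      apply Nat.eq_of_factorization_eq (by omega) (by omega)
      intro q
      by_cases hq : q ∈ C.primeFactors
      · exact hin q hq
      · rw [← bot_out x hq, ← bot_out x' hq, ← ht, ← ht', htt]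

theorem evn_stepC {D M : ℕ} (hS : SepC D M) (hE : EvnC D M) : EvnC D (M + 1) := by
  intro x l hw
  obtain ⟨C, l1, l2, hC, h1, h2, hl⟩ := splitC hS hE hw
  have hbC : bot C.primeFactors C = 1 := by
    apply Nat.eq_of_factorization_eq (bot_ne _ _) one_ne_zero
    intro q
    by_cases hq : q ∈ C.primeFactors
    · rw [bot_in _ hq]; simp
    · rw [bot_out _ hq, fz0 hq]; simp
  rcases h1 with ⟨h1, hl1⟩ | ⟨hb1, hpr1, hord1, -, Y, k1, hY, hmu1, hw1, hl1, hm1⟩
  · rcases h2 with ⟨h2, hl2⟩ | ⟨hb2, hpr2, hord2, -, Y', k2, hY', hmu2, hw2, hl2, hm2⟩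
    · rw [hl]; exact hl1.add hl2
    · exfalso
      rw [h1, hbC] at hb2
      omega
  · rcases h2 with ⟨h2, hl2⟩ | ⟨hb2, hpr2, hord2, -, Y', k2, hY', hmu2, hw2, hl2, hm2⟩
    · exfalso
      rw [h2, hbC] at hb1
      omega
    · have hmC := mx_pos hC
      have hYY : Y = Y' := by
        apply hS Y Y' _ (hw1.trans hw2.symm) 1 1 one_pos one_pos (mu_pos (by omega)) (mu_pos (by omega))
        have h5 : 0 < mx C * mx (bot C.primeFactors x) := Nat.mul_pos hmC (mx_pos hb1)
        apply Nat.eq_of_mul_eq_mul_right h5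
        calc 1 * Y' * mx Y * (mx C * mx (bot C.primeFactors x)) = (mx C * Y' * mx (bot C.primeFactors x)) * mx Y := by
              ring
          _ = (mx x * mx Y') * mx Y := by rw [hm2]
          _ = (mx x * mx Y) * mx Y' := by ring
          _ = (mx C * Y * mx (bot C.primeFactors x)) * mx Y' := by rw [hm1]
          _ = _ := by ring
      subst hYY
      have h8 := hE Y _ (hw1.trans hw2.symm)
      obtain ⟨u1, hu1⟩ := hl1
      obtain ⟨u2, hu2⟩ := hl2
      obtain ⟨u3, hu3⟩ := h8
      exact ⟨u1 + u2 - u3 - 1, by omega⟩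

theorem mainC {D : ℕ} (hD : 2 ≤ D) (M : ℕ) : SepC D M ∧ EvnC D M := by
  induction M with
  | zero =>
    constructor
    · intro x x' l h
      exfalso
      have := h.left.2
      have := card_pos' h.left.1
      omega
    · intro x l h
      exfalso
      have := h.left.2
      have := card_pos' h.left.1
      omega
  | succ M ih => exact ⟨sep_stepC hD ih.1 ih.2, evn_stepC ih.1 ih.2⟩

theorem wk_of_walkC {G : SimpleGraph ℕ} {R : ℕ → ℕ → Prop} (hG : ∀ a b, G.Adj a b → R a b ∨ R b a)
    (hR : ∀ a b, R a b → 2 ≤ a ∧ 2 ≤ b) {a b : ℕ} (w : G.Walk a b) (ha : 2 ≤ a) :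
    ∃ M, Wk R (Qd M) a b w.length := by
  induction w with
  | nil => exact ⟨_, Wk.refl ⟨ha, le_rfl⟩⟩
  | @cons a b c h w ih =>
    have h1 := hG _ _ h
    have hb : 2 ≤ b := by
      rcases h1 with h1 | h1
      · exact (hR _ _ h1).2
      · exact (hR _ _ h1).1
    obtain ⟨M, hM⟩ := ih hb
    refine ⟨M + a.primeFactors.card, ?_⟩
    have h2 : Wk R (Qd (M + a.primeFactors.card)) b c w.length := hM.mono (fun n hn => ⟨hn.1, by
      have := hn.2
      omega⟩)
    have h3 : Wk R (Qd (M + a.primeFactors.card)) a b 1 :=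
      Wk.step a b 0 (Wk.refl ⟨ha, by omega⟩) h1 h2.left
    have h4 := h3.trans h2
    rw [SimpleGraph.Walk.length_cons, add_comm w.length 1]
    exact h4

theorem eg_two {D x n : ℕ} (h : Eg D x n) : 2 ≤ x ∧ 2 ≤ n := by
  obtain ⟨b, hx, hb, -, -, -, -, rfl⟩ := h
  have h5 : 1 < x ^ b := Nat.one_lt_pow (by omega) hx
  exact ⟨hx, by nlinarith⟩

/-- the two-colouring -/
theorem two_colC {D : ℕ} (hD : 2 ≤ D) : ∃ f : ℕ → Fin 2, ∀ x n, Eg D x n → f x ≠ f n := by
  classical
  have hne : ∀ x n, Eg D x n → x ≠ n := by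
    rintro x n ⟨b, hx, hb, hco, -, -, -, hn⟩ h
    have h1 := card_z hx (by omega) hco
    rw [← hn, ← h] at h1
    have := card_pos' (n := b) (by omega)
    omega
  let G : SimpleGraph ℕ := SimpleGraph.fromRel (Eg D)
  have hG : ∀ a b, G.Adj a b → Eg D a b ∨ Eg D b a := fun a b hab => by
    rw [SimpleGraph.fromRel_adj] at hab
    exact hab.2
  have h2 : G.Colorable 2 := by
    rw [SimpleGraph.two_colorable_iff_forall_loop_even]
    intro a w
    rcases lt_or_ge a 2 with ha | ha
    · cases w with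
      | nil => exact Even.zero
      | cons h0 w =>
        exfalso
        rcases hG _ _ h0 with h1 | h1
        · have := (eg_two h1).1
          omega
        · have := (eg_two h1).2
          omega
    · obtain ⟨M, hM⟩ := wk_of_walkC hG (fun _ _ h => eg_two h) w ha
      exact (mainC hD M).2 a _ hM
  obtain ⟨col⟩ := h2
  refine ⟨col, fun x n hxn => ?_⟩
  exact col.valid (by rw [SimpleGraph.fromRel_adj]; exact ⟨hne x n hxn, Or.inl hxn⟩)

/-- In a monochromatic pattern with coprime `a` and `b` there are no `D`-th powers. -/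
theorem coprime_powers (k : ℕ) : ∃ (r : ℕ) (c : ℕ → Fin r), ∀ a b : ℕ, 1 < a → 1 < b →
    c a = c b → c a = c (a * b) → c a = c (a ^ b) → c a = c (a ^ b * b) → Nat.Coprime a b →
    ∀ n : ℕ, n = a ∨ n = b ∨ n = a * b ∨ n = a ^ b ∨ n = a ^ b * b → ∀ s D : ℕ, 2 ≤ D → D ≤ k → n ≠ s ^ D := by
  classical
  obtain ⟨r₀, c₀, hc₀⟩ := low k
  have hcol : ∀ D : Fin (k + 1), ∃ f : ℕ → Fin 2, 2 ≤ (D : ℕ) → ∀ x n, Eg D x n → f x ≠ f n := by
    intro D
    by_cases hD : 2 ≤ (D : ℕ)
    · obtain ⟨f, hf⟩ := two_colC hD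
      exact ⟨f, fun _ => hf⟩
    · exact ⟨fun _ => 0, fun h => absurd h hD⟩
  choose g hg using hcol
  let X := (Fin r₀ × Fin 65) × ((D : Fin (k + 1)) → Fin 2 × Bool)
  let f : ℕ → X := fun n => ((c₀ n, ⟨min n 64, by omega⟩), fun D => (g D n, decide (∃ s, n = s ^ (D : ℕ))))
  refine ⟨Fintype.card X, fun n => Fintype.equivFin X (f n), ?_⟩
  intro a b ha hb h1 h2 h3 h4 hco n hn s D hD hDk hns
  have g1 : f a = f b := (Fintype.equivFin X).injective h1
  have g2 : f a = f (a * b) := (Fintype.equivFin X).injective h2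
  have g3 : f a = f (a ^ b) := (Fintype.equivFin X).injective h3
  have g4 : f a = f (a ^ b * b) := (Fintype.equivFin X).injective h4
  have p0 : ∀ {x y : ℕ}, f x = f y → c₀ x = c₀ y := fun h => congrArg (fun z => z.1.1) h
  have p1 : ∀ {x y : ℕ}, f x = f y → min x 64 = min y 64 := fun h => congrArg (fun z => z.1.2.val) h
  have p2 : ∀ {x y : ℕ}, f x = f y → ∀ D, g D x = g D y := fun h D =>
    congrArg Prod.fst (congrFun (congrArg (fun z => z.2) h) D)
  have p3 : ∀ {x y : ℕ}, f x = f y → ∀ D : Fin (k + 1), ((∃ s, x = s ^ (D : ℕ)) ↔ (∃ s, y = s ^ (D : ℕ))) := by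
    intro x y h D
    have h5 := congrArg Prod.snd (congrFun (congrArg (fun z => z.2) h) D)
    change decide (∃ s, x = s ^ (D : ℕ)) = decide (∃ s, y = s ^ (D : ℕ)) at h5
    exact decide_eq_decide.mp h5
  let D' : Fin (k + 1) := ⟨D, by omega⟩
  have hA : ∃ s, a = s ^ D := by
    rcases hn with rfl | rfl | rfl | rfl | rfl
    · exact ⟨s, hns⟩
    · exact (p3 g1 D').mpr ⟨s, hns⟩
    · exact (p3 g2 D').mpr ⟨s, hns⟩
    · exact (p3 g3 D').mpr ⟨s, hns⟩
    · exact (p3 g4 D').mpr ⟨s, hns⟩
  have hB : ∃ s, b = s ^ D := (p3 g1 D').mp hA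
  have hb64 : 64 ≤ b := by
    by_contra hcon
    have h5 := p1 g1
    have h6 : a = b := by omega
    rw [h6] at hco
    have := (Nat.coprime_self b).mp hco
    omega
  have hmu : mu a ≤ mu b := by
    obtain ⟨p, hp, hpm⟩ := mu_mem (n := b) hb
    have hpa : p ∉ a.primeFactors := fun h => Finset.disjoint_left.mp hco.disjoint_primeFactors h hp
    obtain ⟨⟨q, hq, hle, -⟩, -⟩ := hc₀ a b ha hb (p0 g1) (p0 g2) (p0 g3) (p0 g4) p hp hpa
    rw [hpm]
    exact (mu_le hq).trans ((Nat.le_add_right _ _).trans hle)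
  exact hg D' hD a (a ^ b * b) ⟨b, ha, hb64, hco, hA, hB, hmu, rfl⟩ (p2 g4 D')

end PRF2
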