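import Mathlib
import Pool.Agent.PRF2.Cop2

/-!
# Coprime pairs without conditions on powers: the graph, labels, and the separation of labels
-/

namespace PRF2

open PRF PRF.TGap

/-- the property of labels -/
def Lab (n : ℕ) : Prop := 64 ≤ n ∧ ∀ w, 0 < w → w ≤ mu n * mu n → ¬ mx n ∣ n * w

/-- `x` and `b` are `m`-th powers for an `m` which is large in terms of the least exponent of `x` -/
def Con (x b : ℕ) : Prop := ∃ m, (∃ s, x = s ^ m) ∧ (∃ s, b = s ^ m) ∧ mu x < m * m

/-- the edges -/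
def Ec (x n : ℕ) : Prop := ∃ b, 2 ≤ x ∧ Lab b ∧ Nat.Coprime x b ∧ Con x b ∧ mu x ≤ mu b ∧ n = x ^ b * b

/-- invariants of a walk -/
theorem walk_invc {Q : ℕ → Prop} {x y l : ℕ} (h : Wk Ec Q x y l) :
    (∀ p, x.factorization p = mx x ↔ y.factorization p = mx y) ∧
    (2 ≤ x → ∀ p, x.factorization p = mx x → (mx x).factorization p = (mx y).factorization p) ∧
    (2 ≤ x → 2 ≤ y) := by
  induction h with
  | refl h => exact ⟨fun _ => Iff.rfl, fun _ _ _ => rfl, id⟩
  | step y z l h h1 h2 ih =>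
    obtain ⟨i1, i2, i3⟩ := ih
    rcases h1 with ⟨b, hy2, ⟨hb, -⟩, hco, -, -, hz⟩ | ⟨b, hz2, ⟨hb, -⟩, hco, -, -, hy⟩
    · have hb2 : 2 ≤ b := by omega
      subst hz
      refine ⟨fun p => (i1 p).trans (top_z hy2 hb2 hco).symm, fun hx2 p hp => ?_, fun _ => ?_⟩
      · rw [i2 hx2 p hp]
        have hp' := (i1 p).mp hp
        have := mx_pos hy2
        exact (fmx_z hy2 hb2 hco (mem_of_pos (by omega))).symm
      · have h5 : 1 < y ^ b := Nat.one_lt_pow (by omega) hy2
        nlinarith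
    · have hb2 : 2 ≤ b := by omega
      subst hy
      refine ⟨fun p => (i1 p).trans (top_z hz2 hb2 hco), fun hx2 p hp => ?_, fun _ => hz2⟩
      rw [i2 hx2 p hp]
      have hp' := (top_z hz2 hb2 hco).mp ((i1 p).mp hp)
      have := mx_pos hz2
      exact fmx_z hz2 hb2 hco (mem_of_pos (by omega))

/-- separation of numbers with equal largest exponents -/
def SepW (M : ℕ) : Prop := ∀ x x' l, Wk Ec (Qd M) x x' l → mx x = mx x' → ∀ e e', 0 < e → 0 < e' →
  e ≤ mu x → e' ≤ mu x' → e' * x' = e * x → x = x'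

/-- closed walks have even length -/
def EvnW (M : ℕ) : Prop := ∀ x l, Wk Ec (Qd M) x x l → Even l

theorem lab_aux {Y Y' e e' : ℕ} (hY : Lab Y) (he : 0 < e) (he' : 0 < e') (hle : e ≤ mu Y) (hle' : e' ≤ mu Y)
    (h : e' * Y' * mx Y = e * Y * mx Y') {p : ℕ}
    (hp : e'.factorization p + mx Y' = e.factorization p + mx Y) : mx Y = mx Y' := by
  have j1 := f_lt (show e ≠ 0 by omega) p
  have j2 := f_lt (show e' ≠ 0 by omega) p
  by_contra hne
  have h1 : mx Y ∣ e * Y * mx Y' := ⟨e' * Y', by rw [← h]; ring⟩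
  have h2 : mx Y ∣ e * Y * mx Y := Dvd.intro_left _ rfl
  rcases lt_or_gt_of_ne hne with hlt | hlt
  · obtain ⟨d, hd⟩ := Nat.exists_eq_add_of_lt hlt
    apply hY.2 (e * (d + 1)) (by positivity)
    · exact Nat.mul_le_mul hle (by omega)
    · have h3 := (Nat.dvd_sub h1 h2)
      have h4 : e * Y * mx Y' - e * Y * mx Y = Y * (e * (d + 1)) := by
        rw [← Nat.mul_sub]
        have : mx Y' - mx Y = d + 1 := by omega
        rw [this]; ring
      rwa [h4] at h3
  · obtain ⟨d, hd⟩ := Nat.exists_eq_add_of_lt hlt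
    apply hY.2 (e * (d + 1)) (by positivity)
    · exact Nat.mul_le_mul hle (by omega)
    · have h3 := (Nat.dvd_sub h2 h1)
      have h4 : e * Y * mx Y - e * Y * mx Y' = Y * (e * (d + 1)) := by
        rw [← Nat.mul_sub]
        have : mx Y - mx Y' = d + 1 := by omega
        rw [this]; ring
      rwa [h4] at h3

/-- separation of labels -/
theorem labSep {M Y Y' l : ℕ} (hS : SepW M) (hw : Wk Ec (Qd M) Y Y' l) (hY : Lab Y) (hY' : Lab Y') {e e' : ℕ}
    (he : 0 < e) (he' : 0 < e') (hle : e ≤ mu Y) (hle' : e' ≤ mu Y') (h : e' * Y' * mx Y = e * Y * mx Y') :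
    Y = Y' := by
  have hY2 : 2 ≤ Y := by have := hY.1; omega
  have hY2' : 2 ≤ Y' := by have := hY'.1; omega
  have hmY := mx_pos hY2
  have hmY' := mx_pos hY2'
  have hmm : mx Y = mx Y' := by
    obtain ⟨i1, i2, -⟩ := walk_invc hw
    obtain ⟨p, hp, hpx⟩ := exists_top hY2
    have hpx' := (i1 p).mp hpx
    have i5 := i2 hY2 p hpx
    have h1 := congrArg (fun n => n.factorization p) h
    rw [Nat.factorization_mul (mul_ne_zero (by omega) (by omega)) (by omega),
      Nat.factorization_mul (mul_ne_zero (by omega) (by omega)) (by omega),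
      Nat.factorization_mul (by omega) (by omega), Nat.factorization_mul (by omega) (by omega)] at h1
    simp only [Finsupp.add_apply] at h1
    rw [hpx, hpx', i5] at h1
    rcases le_total (mu Y') (mu Y) with hle2 | hle2
    · exact lab_aux hY he he' hle (hle'.trans hle2) h (p := p) (by omega)
    · exact (lab_aux hY' he' he hle' (hle.trans hle2) h.symm (p := p) (by omega)).symm
  apply hS Y Y' l hw hmm e e' he he' hle hle'
  rw [hmm] at h
  exact Nat.eq_of_mul_eq_mul_right hmY' h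

/-- two labels of one vertex are powers with a common exponent -/
theorem con_two {C Y Y' : ℕ} (hC : 2 ≤ C) (h : Con C Y) (h' : Con C Y') :
    ∃ D P R, 2 ≤ D ∧ Y = P ^ D ∧ Y' = R ^ D := by
  obtain ⟨m, ⟨s, hs⟩, ⟨t, ht⟩, hm⟩ := h
  obtain ⟨m', ⟨s', hs'⟩, ⟨t', ht'⟩, hm'⟩ := h'
  obtain ⟨q, hq, hq1⟩ := mu_mem hC
  have hmu := mu_pos hC
  have d1 : m ∣ mu C := by
    rw [hq1, hs, Nat.factorization_pow]
    exact Dvd.intro _ rfl
  have d2 : m' ∣ mu C := by
    rw [hq1, hs', Nat.factorization_pow]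
    exact Dvd.intro _ rfl
  have h3 : Nat.lcm m m' ≤ mu C := Nat.le_of_dvd hmu (Nat.lcm_dvd d1 d2)
  have h4 := Nat.gcd_mul_lcm m m'
  have h5 : 2 ≤ Nat.gcd m m' := by
    by_contra hcon
    have h6 : Nat.gcd m m' ≤ 1 := by omega
    have h7 : m * m' ≤ mu C := by
      rw [← h4]
      calc Nat.gcd m m' * Nat.lcm m m' ≤ 1 * mu C := Nat.mul_le_mul h6 h3
        _ = mu C := one_mul _
    have h8 : (mu C) * (mu C) < (m * m) * (m' * m') := Nat.mul_lt_mul'' hm hm'
    have h9 : (m * m') * (m * m') ≤ mu C * mu C := Nat.mul_le_mul h7 h7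
    have h10 : (m * m) * (m' * m') = (m * m') * (m * m') := by ring
    omega
  obtain ⟨u, hu⟩ := Nat.gcd_dvd_left m m'
  obtain ⟨u', hu'⟩ := Nat.gcd_dvd_right m m'
  refine ⟨Nat.gcd m m', t ^ u, t' ^ u', h5, ?_, ?_⟩
  · rw [← pow_mul, mul_comm, ← hu]
    exact ht
  · rw [← pow_mul, mul_comm, ← hu']
    exact ht'

end PRF2
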