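import Mathlib
import Pool.Agent.PRF2.Cp2
import Pool.Agent.PRF2.Cop3

/-!
# Coprime pairs: the induction and the two-colouring
-/

namespace PRF2

open PRF PRF.TGap

theorem top_of_walkW {M Y t l : ℕ} (hw : Wk Ec (Qd M) Y t l) {p : ℕ} (hp : t.factorization p = mx t) :
    Y.factorization p = mx Y ∧ (mx Y).factorization p = (mx t).factorization p := by
  obtain ⟨i1, i2, -⟩ := walk_invc hw
  have h1 := (i1 p).mpr hp
  exact ⟨h1, i2 hw.left.1 p h1⟩

/-- comparison of two walks which end in numbers with `e' t' = e t` -/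
theorem topLeW {M Y Y' t t' l l' e e' : ℕ} (hS : SepW M) (hE : EvnW M) (hw : Wk Ec (Qd M) Y t l)
    (hw' : Wk Ec (Qd M) Y' t' l') (he : 0 < e) (he' : 0 < e') (het : e ≤ mu t) (het' : e' ≤ mu t')
    (h : e' * t' = e * t) (hst : Y * mx t * mx Y' = Y' * mx t' * mx Y) :
    mx Y ≤ mx Y' ∧ (mx t ≤ mx t' → 2 ^ (mx t' - mx t) ≤ mx t') := by
  have ht := hw.right.1
  have ht' := hw'.right.1
  have hY := hw.left.1
  have hY' := hw'.left.1
  have hf : ∀ q, e'.factorization q + t'.factorization q = e.factorization q + t.factorization q := by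
    intro q
    have h1 := congrArg (fun n => n.factorization q) h
    rw [Nat.factorization_mul (by omega) (by omega), Nat.factorization_mul (by omega) (by omega),
      Finsupp.add_apply, Finsupp.add_apply] at h1
    exact h1
  obtain ⟨p, hp, hpt⟩ := exists_top ht
  obtain ⟨p', hp', hpt'⟩ := exists_top ht'
  have hmt := mx_pos ht
  have hmt' := mx_pos ht'
  have i1 := hf p
  have i2 := hf p'
  rw [hpt] at i1
  rw [hpt'] at i2
  have j1 := le_mx t p'
  have j2 := two_pow_f (show e ≠ 0 by omega) p'
  have j3 := f_lt (show e ≠ 0 by omega) p'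
  have j4 := mu_le_mx ht
  have j5 := two_pow_f (show e' ≠ 0 by omega) p
  have j6 := mu_le_mx ht'
  have hlt2 : mx t' < 2 * mx t := by omega
  -- the prime `p` divides `t'`
  have hpt2 : p ∈ t'.primeFactors := by
    apply mem_of_pos
    by_contra hcon
    have h0 : t'.factorization p = 0 := by omega
    have h1 : mx t ≤ e'.factorization p := by omega
    have h2 : 2 ^ mx t ≤ e' := (Nat.pow_le_pow_right (by norm_num) h1).trans j5
    obtain ⟨u, hu⟩ : ∃ u, mx t = u + 1 := ⟨mx t - 1, by omega⟩
    have h3 : u < 2 ^ u := Nat.lt_two_pow_self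
    rw [hu, pow_succ] at h2
    omega
  have j7 : e' ≤ t'.factorization p := het'.trans (mu_le hpt2)
  have j8 := f_lt (show e' ≠ 0 by omega) p
  have h4 : mx t' ≤ 4 * t'.factorization p := by omega
  have k1 := topKeyW hS hE hw' hpt2 h4
  obtain ⟨k2, k3⟩ := top_of_walkW hw hpt
  constructor
  · have h5 := congrArg (fun n => n.factorization p) hst
    have e1 := mx_pos hY
    have e2 := mx_pos hY'
    have z1 : Y * mx t ≠ 0 := mul_ne_zero (by omega) (by omega)
    have z2 : Y' * mx t' ≠ 0 := mul_ne_zero (by omega) (by omega)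
    rw [Nat.factorization_mul z1 (by omega), Nat.factorization_mul z2 (by omega),
      Nat.factorization_mul (by omega) (by omega), Nat.factorization_mul (by omega) (by omega)] at h5
    simp only [Finsupp.add_apply] at h5
    rw [k1, k3, k2] at h5
    have h6 : mx Y = Y'.factorization p := by omega
    rw [h6]
    exact le_mx _ _
  · intro hle
    refine (Nat.pow_le_pow_right (by norm_num) (show mx t' - mx t ≤ e.factorization p' by omega)).trans ?_
    omega

theorem sep_stepW {M : ℕ} (hS : SepW M) (hE : EvnW M) : SepW (M + 1) := by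
  intro x x' l hw hV e e' he he' hex hex' heq2
  have hx := hw.left.1
  have hx' := hw.right.1
  have hmx := mx_pos hx
  have hmx' := mx_pos hx'
  obtain ⟨C, l1, l2, hC, h1, h2, -⟩ := splitW hS hE hw
  have hmC := mx_pos hC
  -- the mixed case
  have hmix : ∀ n, mx n = mx C → ¬ (2 ≤ bot C.primeFactors n ∧ ∃ Y : ℕ, 64 ≤ Y ∧
      mx n * mx Y = mx C * Y * mx (bot C.primeFactors n)) := by
    rintro n hn ⟨hb, Y, hY, hm⟩
    have e1 := mx_lt (n := Y) (by omega)
    have e2 := mx_pos hb
    rw [hn, mul_assoc] at hm
    have h3 := Nat.eq_of_mul_eq_mul_left hmC hm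
    have h4 : Y * 1 ≤ Y * mx (bot C.primeFactors n) := Nat.mul_le_mul_left Y e2
    omega
  rcases h1 with ⟨h1, -⟩ | ⟨hb1, hpr1, hord1, -, Y, k1, hY, hc1, hmu1, hw1, -, hm1⟩
  · rcases h2 with ⟨h2, -⟩ | ⟨hb2, hpr2, hord2, -, Y', k2, hY', hc2, hmu2, hw2, -, hm2⟩
    · rw [h1, h2]
    · exact absurd ⟨hb2, Y', hY'.1, hm2⟩ (hmix x' (by rw [← hV, h1]))
  · rcases h2 with ⟨h2, -⟩ | ⟨hb2, hpr2, hord2, -, Y', k2, hY', hc2, hmu2, hw2, -, hm2⟩
    · exact absurd ⟨hb1, Y, hY.1, hm1⟩ (hmix x (by rw [hV, h2]))
    · -- both are nontrivial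
      have hY64 := hY.1
      have hY64' := hY'.1
      have hin : ∀ q ∈ C.primeFactors, x.factorization q = x'.factorization q := by
        intro q hq
        have e1 := hpr1 q hq
        have e2 := hpr2 q hq
        rw [hV, ← e2] at e1
        exact Nat.eq_of_mul_eq_mul_right hmC e1
      have hf : ∀ q, e'.factorization q + x'.factorization q = e.factorization q + x.factorization q := by
        intro q
        have h1 := congrArg (fun n => n.factorization q) heq2
        rw [Nat.factorization_mul (by omega) (by omega), Nat.factorization_mul (by omega) (by omega),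
          Finsupp.add_apply, Finsupp.add_apply] at h1
        exact h1
      set t := bot C.primeFactors x with ht
      set t' := bot C.primeFactors x' with ht'
      have ht2 : e' * t' = e * t := by
        apply Nat.eq_of_factorization_eq (mul_ne_zero (by omega) (by omega)) (mul_ne_zero (by omega) (by omega))
        intro q
        rw [Nat.factorization_mul (by omega) (by omega), Nat.factorization_mul (by omega) (by omega),
          Finsupp.add_apply, Finsupp.add_apply]
        have h3 := hf q
        by_cases hq : q ∈ C.primeFactors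
        · rw [ht, ht', bot_in _ hq, bot_in _ hq]
          have := hin q hq
          omega
        · rw [ht, ht', bot_out _ hq, bot_out _ hq]
          exact h3
      have hst : Y * mx t * mx Y' = Y' * mx t' * mx Y := by
        apply Nat.eq_of_mul_eq_mul_left hmC
        calc mx C * (Y * mx t * mx Y') = (mx C * Y * mx t) * mx Y' := by ring
          _ = (mx x * mx Y) * mx Y' := by rw [hm1]
          _ = (mx x' * mx Y') * mx Y := by rw [hV]; ring
          _ = (mx C * Y' * mx t') * mx Y := by rw [hm2]
          _ = _ := by ring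
      have het : e ≤ mu t := by rw [ht, bot_mu hb1 hord1]; exact hex
      have het' : e' ≤ mu t' := by rw [ht', bot_mu hb2 hord2]; exact hex'
      obtain ⟨a1, a2⟩ := topLeW hS hE hw1 hw2 he he' het het' ht2 hst
      obtain ⟨b1, b2⟩ := topLeW hS hE hw2 hw1 he' he het' het ht2.symm hst.symm
      have hVY : mx Y = mx Y' := le_antisymm a1 b1
      have hmY := mx_pos (n := Y) (by omega)
      have hst2 : Y * mx t = Y' * mx t' := by
        rw [hVY] at hst
        exact Nat.eq_of_mul_eq_mul_right (by omega) hst
      obtain ⟨D, P, R, hD, hP, hR⟩ := con_two hC hc1 hc2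
      have hP0 : 0 < P := by
        apply Nat.pos_of_ne_zero
        rintro rfl
        rw [zero_pow (by omega)] at hP
        omega
      have hR0 : 0 < R := by
        apply Nat.pos_of_ne_zero
        rintro rfl
        rw [zero_pow (by omega)] at hR
        omega
      have hrat : mx t * P ^ D = mx t' * R ^ D := by
        rw [← hP, ← hR, mul_comm, hst2, mul_comm]
      have hVt : mx t = mx t' := by
        rcases le_total (mx t) (mx t') with hle | hle
        · exact near hD (mx_pos hb1) hR0 hP0 hrat hle (a2 hle)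
        · exact (near hD (mx_pos hb2) hP0 hR0 hrat.symm hle (b2 hle)).symm
      have hYY : Y = Y' := by
        rw [hVt] at hst2
        exact Nat.eq_of_mul_eq_mul_right (mx_pos hb2) hst2
      subst hYY
      have htt : t = t' := hS t t' _ (hw1.symm.trans hw2) hVt e e' he he' het het' ht2
      apply Nat.eq_of_factorization_eq (by omega) (by omega)
      intro q
      by_cases hq : q ∈ C.primeFactors
      · exact hin q hq
      · rw [← bot_out x hq, ← bot_out x' hq, ← ht, ← ht', htt]

theorem evn_stepW {M : ℕ} (hS : SepW M) (hE : EvnW M) : EvnW (M + 1) := by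
  intro x l hw
  obtain ⟨C, l1, l2, hC, h1, h2, hl⟩ := splitW hS hE hw
  have hbC : bot C.primeFactors C = 1 := by
    apply Nat.eq_of_factorization_eq (bot_ne _ _) one_ne_zero
    intro q
    by_cases hq : q ∈ C.primeFactors
    · rw [bot_in _ hq]; simp
    · rw [bot_out _ hq, fz0 hq]; simp
  rcases h1 with ⟨h1, hl1⟩ | ⟨hb1, hpr1, hord1, -, Y, k1, hY, hc1, hmu1, hw1, hl1, hm1⟩
  · rcases h2 with ⟨h2, hl2⟩ | ⟨hb2, hpr2, hord2, -, Y', k2, hY', hc2, hmu2, hw2, hl2, hm2⟩
    · rw [hl]; exact hl1.add hl2
    · exfalso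
      rw [h1, hbC] at hb2
      omega
  · rcases h2 with ⟨h2, hl2⟩ | ⟨hb2, hpr2, hord2, -, Y', k2, hY', hc2, hmu2, hw2, hl2, hm2⟩
    · exfalso
      rw [h2, hbC] at hb1
      omega
    · have hmC := mx_pos hC
      have hY64 := hY.1
      have hY64' := hY'.1
      have hYY : Y = Y' := by
        apply labSep hS (hw1.trans hw2.symm) hY hY' one_pos one_pos (mu_pos (by omega)) (mu_pos (by omega))
        have h5 : 0 < mx C * mx (bot C.primeFactors x) := Nat.mul_pos hmC (mx_pos hb1)
        apply Nat.eq_of_mul_eq_mul_right h5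
        calc 1 * Y' * mx Y * (mx C * mx (bot C.primeFactors x)) = (mx C * Y' * mx (bot C.primeFactors x)) * mx Y := by
              ring
          _ = (mx x * mx Y') * mx Y := by rw [hm2]
          _ = (mx x * mx Y) * mx Y' := by ring
          _ = (mx C * Y * mx (bot C.primeFactors x)) * mx Y' := by rw [hm1]
          _ = _ := by ring
      subst hYY
      have h8 := hE Y _ (hw1.trans hw2.symm)
      obtain ⟨u1, hu1⟩ := hl1
      obtain ⟨u2, hu2⟩ := hl2
      obtain ⟨u3, hu3⟩ := h8
      exact ⟨u1 + u2 - u3 - 1, by omega⟩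

theorem mainW (M : ℕ) : SepW M ∧ EvnW M := by
  induction M with
  | zero =>
    constructor
    · intro x x' l h
      exfalso
      have := h.left.2
      have := card_pos' h.left.1
      omega
    · intro x l h
      exfalso
      have := h.left.2
      have := card_pos' h.left.1
      omega
  | succ M ih => exact ⟨sep_stepW ih.1 ih.2, evn_stepW ih.1 ih.2⟩

theorem ec_two {x n : ℕ} (h : Ec x n) : 2 ≤ x ∧ 2 ≤ n := by
  obtain ⟨b, hx, ⟨hb, -⟩, -, -, -, rfl⟩ := h
  have h5 : 1 < x ^ b := Nat.one_lt_pow (by omega) hx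
  exact ⟨hx, by nlinarith⟩

/-- the two-colouring -/
theorem two_colW : ∃ f : ℕ → Fin 2, ∀ x n, Ec x n → f x ≠ f n := by
  classical
  have hne : ∀ x n, Ec x n → x ≠ n := by
    rintro x n ⟨b, hx, ⟨hb, -⟩, hco, -, -, hn⟩ h
    have h1 := card_z hx (by omega) hco
    rw [← hn, ← h] at h1
    have := card_pos' (n := b) (by omega)
    omega
  let G : SimpleGraph ℕ := SimpleGraph.fromRel Ec
  have hG : ∀ a b, G.Adj a b → Ec a b ∨ Ec b a := fun a b hab => by
    rw [SimpleGraph.fromRel_adj] at hab
    exact hab.2
  have h2 : G.Colorable 2 := by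
    rw [SimpleGraph.two_colorable_iff_forall_loop_even]
    intro a w
    rcases lt_or_ge a 2 with ha | ha
    · cases w with
      | nil => exact Even.zero
      | cons h0 w =>
        exfalso
        rcases hG _ _ h0 with h1 | h1
        · have := (ec_two h1).1
          omega
        · have := (ec_two h1).2
          omega
    · obtain ⟨M, hM⟩ := wk_of_walkC hG (fun _ _ h => ec_two h) w ha
      exact (mainW M).2 a _ hM
  obtain ⟨col⟩ := h2
  refine ⟨col, fun x n hxn => ?_⟩
  exact col.valid (by rw [SimpleGraph.fromRel_adj]; exact ⟨hne x n hxn, Or.inl hxn⟩)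

end PRF2
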