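import Mathlib
import Pool.Agent.PRF2.Gap

/-!
# Chains of divisors in the same colour

In a monochromatic pattern `a * b` is a product `y * m` of a monochromatic pair. If the colour records whether this is
possible, then `a` is such a product too. Iterating we get a chain `a = y₀, y₁, …` with `y_j = y_{j+1} m_{j+1}`
whose members have the same colour.
-/

namespace PRF2

open PRF.TGap

/-- the pattern is monochromatic -/
def Mono {X : Type} (c : ℕ → X) (a b : ℕ) : Prop :=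
  1 < a ∧ 1 < b ∧ c a = c b ∧ c a = c (a * b) ∧ c a = c (a ^ b) ∧ c a = c (a ^ b * b)

theorem chain (r : ℕ) (c : ℕ → Fin r) (J : ℕ) : ∃ (r' : ℕ) (c' : ℕ → Fin r'), ∀ a b : ℕ, Mono c' a b →
    Mono c a b ∧ ∃ y m : ℕ → ℕ, y 0 = a ∧ ∀ j < J, y j = y (j + 1) * m (j + 1) ∧
      Mono c (y (j + 1)) (m (j + 1)) := by
  classical
  induction J with
  | zero =>
    refine ⟨r, c, fun a b h => ⟨h, fun _ => a, fun _ => 0, rfl, ?_⟩⟩
    intro j hj
    omega
  | succ J ih =>
    obtain ⟨r', c', hc'⟩ := ih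
    let X := Fin r' × Bool
    let f : ℕ → X := fun n => (c' n, decide (∃ y m : ℕ, Mono c' y m ∧ n = y * m))
    refine ⟨Fintype.card X, fun n => Fintype.equivFin X (f n), ?_⟩
    rintro a b ⟨ha, hb, h1, h2, h3, h4⟩
    have g1 : f a = f b := (Fintype.equivFin X).injective h1
    have g2 : f a = f (a * b) := (Fintype.equivFin X).injective h2
    have g3 : f a = f (a ^ b) := (Fintype.equivFin X).injective h3
    have g4 : f a = f (a ^ b * b) := (Fintype.equivFin X).injective h4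
    have p0 : ∀ {x y : ℕ}, f x = f y → c' x = c' y := fun h => congrArg (fun z => z.1) h
    have hM : Mono c' a b := ⟨ha, hb, p0 g1, p0 g2, p0 g3, p0 g4⟩
    have h5 : decide (∃ y m : ℕ, Mono c' y m ∧ a = y * m) = decide (∃ y m : ℕ, Mono c' y m ∧ a * b = y * m) :=
      congrArg (fun z => z.2) g2
    obtain ⟨y₁, m₁, hM1, hy1⟩ := (decide_eq_decide.mp h5).mpr ⟨a, b, hM, rfl⟩
    obtain ⟨-, y, m, hy0, hym⟩ := hc' y₁ m₁ hM1
    refine ⟨(hc' a b hM).1, fun j => if j = 0 then a else y (j - 1), fun j => if j = 1 then m₁ else m (j - 1),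
      rfl, ?_⟩
    intro j hj
    rcases Nat.eq_zero_or_pos j with h0 | h0
    · subst h0
      simp only [if_true, Nat.zero_add, one_ne_zero, if_false, Nat.sub_self, hy0]
      exact ⟨hy1, (hc' y₁ m₁ hM1).1⟩
    · have e1 : j ≠ 0 := by omega
      have e2 : j + 1 ≠ 0 := by omega
      have e3 : j + 1 ≠ 1 := by omega
      simp only [e1, e2, e3, if_false, Nat.add_sub_cancel]
      have := hym (j - 1) (by omega)
      have e4 : j - 1 + 1 = j := by omega
      rw [e4] at this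
      exact this

/-- the least common multiple of the first `n` members -/
def lc (κ : ℕ → ℕ) : ℕ → ℕ
  | 0 => 1
  | n + 1 => Nat.lcm (lc κ n) (κ n)

theorem lc_dvd {κ : ℕ → ℕ} {X : ℕ} : ∀ {n : ℕ}, (∀ i < n, κ i ∣ X) → lc κ n ∣ X := by
  intro n
  induction n with
  | zero => intro _; exact one_dvd _
  | succ n ih =>
    intro h
    exact Nat.lcm_dvd (ih fun i hi => h i (by omega)) (h n (by omega))

theorem gcd_lc {κ : ℕ → ℕ} {B κ' : ℕ} (hκ' : 0 < κ') : ∀ {n : ℕ},
    (∀ i < n, Nat.gcd κ' (κ i) ≤ B) → Nat.gcd κ' (lc κ n) ≤ B ^ n := by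
  intro n
  induction n with
  | zero => intro _; simp [lc]
  | succ n ih =>
    intro h
    have h1 : Nat.gcd κ' (lc κ (n + 1)) ∣ Nat.gcd κ' (lc κ n) * Nat.gcd κ' (κ n) := by
      refine dvd_trans ?_ (Nat.gcd_mul_right_dvd_mul_gcd κ' (lc κ n) (κ n))
      exact Nat.gcd_dvd_gcd_of_dvd_right _ (Nat.lcm_dvd (Dvd.intro _ rfl) (Dvd.intro_left _ rfl))
    refine (Nat.le_of_dvd (Nat.mul_pos (Nat.gcd_pos_of_pos_left _ hκ') (Nat.gcd_pos_of_pos_left _ hκ')) h1).trans ?_
    rw [pow_succ]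
    exact Nat.mul_le_mul (ih fun i hi => h i (by omega)) (h n (by omega))

theorem prod_le {κ : ℕ → ℕ} {B : ℕ} (hB : 1 ≤ B) : ∀ {n : ℕ}, (∀ i < n, 0 < κ i) →
    (∀ i < n, ∀ j < i, Nat.gcd (κ i) (κ j) ≤ B) → ∏ i ∈ Finset.range n, κ i ≤ B ^ (n * n) * lc κ n := by
  intro n
  induction n with
  | zero => intro _ _; simp [lc]
  | succ n ih =>
    intro h0 h
    rw [Finset.prod_range_succ]
    have h1 := ih (fun i hi => h0 i (by omega)) (fun i hi j hj => h i (by omega) j hj)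
    have h2 : Nat.gcd (κ n) (lc κ n) ≤ B ^ n := gcd_lc (h0 n (by omega)) (h n (by omega))
    have h3 : lc κ n * κ n = Nat.gcd (κ n) (lc κ n) * lc κ (n + 1) := by
      rw [Nat.gcd_comm]
      exact (Nat.gcd_mul_lcm _ _).symm
    calc (∏ i ∈ Finset.range n, κ i) * κ n ≤ (B ^ (n * n) * lc κ n) * κ n := Nat.mul_le_mul_right _ h1
      _ = B ^ (n * n) * (Nat.gcd (κ n) (lc κ n) * lc κ (n + 1)) := by rw [mul_assoc, h3]
      _ ≤ B ^ (n * n) * (B ^ n * lc κ (n + 1)) := by gcongr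
      _ = B ^ (n * n + n) * lc κ (n + 1) := by rw [pow_add]; ring
      _ ≤ B ^ ((n + 1) * (n + 1)) * lc κ (n + 1) := by
        apply Nat.mul_le_mul_right
        apply Nat.pow_le_pow_right hB
        nlinarith

end PRF2
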