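import Mathlib
import Pool.Agent.PRF2.Low
import Pool.Agent.PRF2.Chain

/-!
# Different exponents, and powers with small exponents of the base

Both statements concern pairs for which some prime factor of `b` does not divide `a`.
-/

namespace PRF2

open PRF.TGap

/-- the different exponents of a number -/
def ex (n : ℕ) : Finset ℕ := n.primeFactors.image fun q => n.factorization q

theorem ex_step {y m : ℕ} (hy : 1 < y) (hm : 1 < m) (hnew : ¬ m.primeFactors ⊆ y.primeFactors) :
    (ex y).card + 1 ≤ (ex (y ^ m * m)).card := by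
  classical
  obtain ⟨p, hpm, hpy⟩ := Finset.not_subset.mp hnew
  have hS' : (y ^ m * m).primeFactors = y.primeFactors ∪ m.primeFactors := by
    rw [supp_same hy hm, Nat.primeFactors_mul (by omega) (by omega)]
  have hlt : ∀ q, m.factorization q < m := fun q =>
    lt_of_lt_of_le (Nat.lt_two_pow_self)
      ((Nat.pow_le_pow_right (by norm_num) (val_le_log m q (by omega))).trans (Nat.pow_log_le_self 2 (by omega)))
  have hp0 : y.factorization p = 0 := by
    rw [← Nat.support_factorization, Finsupp.notMem_support_iff] at hpy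
    exact hpy
  have hch : ∀ v ∈ ex y, ∃ q ∈ y.primeFactors, y.factorization q = v := fun v hv => Finset.mem_image.mp hv
  choose! g hg1 hg2 using hch
  let F : ℕ → ℕ := fun v => (y ^ m * m).factorization (g v)
  have hF : ∀ v ∈ ex y, F v = m * v + m.factorization (g v) := by
    intro v hv
    change (y ^ m * m).factorization (g v) = _
    rw [f_z hy hm, hg2 v hv]
  have hvpos : ∀ v ∈ ex y, 1 ≤ v := by
    intro v hv
    rw [← hg2 v hv]
    have := hg1 v hv
    rw [← Nat.support_factorization, Finsupp.mem_support_iff] at this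
    omega
  have hinj : Set.InjOn F (ex y) := by
    intro v hv v' hv' h
    rw [hF v hv, hF v' hv'] at h
    have e1 := hlt (g v)
    have e2 := hlt (g v')
    rcases lt_trichotomy v v' with h5 | h5 | h5
    · exfalso
      have : m * (v + 1) ≤ m * v' := Nat.mul_le_mul_left m h5
      rw [mul_add, mul_one] at this
      omega
    · exact h5
    · exfalso
      have : m * (v' + 1) ≤ m * v := Nat.mul_le_mul_left m h5
      rw [mul_add, mul_one] at this
      omega
  have hsub : insert (m.factorization p) ((ex y).image F) ⊆ ex (y ^ m * m) := by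
    intro w hw
    rw [Finset.mem_insert] at hw
    rcases hw with rfl | hw
    · refine Finset.mem_image.mpr ⟨p, by rw [hS']; exact Finset.mem_union_right _ hpm, ?_⟩
      rw [f_z hy hm, hp0, mul_zero, zero_add]
    · obtain ⟨v, hv, rfl⟩ := Finset.mem_image.mp hw
      exact Finset.mem_image.mpr ⟨g v, by rw [hS']; exact Finset.mem_union_left _ (hg1 v hv), rfl⟩
  have hnot : m.factorization p ∉ (ex y).image F := by
    intro h
    obtain ⟨v, hv, hv2⟩ := Finset.mem_image.mp h
    rw [hF v hv] at hv2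
    have e1 := hlt p
    have e2 : m * 1 ≤ m * v := Nat.mul_le_mul_left m (hvpos v hv)
    omega
  have h5 := Finset.card_le_card hsub
  rw [Finset.card_insert_of_notMem hnot, Finset.card_image_of_injOn hinj] at h5
  exact h5

theorem five_ge {a b n : ℕ} (ha : 1 < a) (hb : 1 < b)
    (hn : n = a ∨ n = b ∨ n = a * b ∨ n = a ^ b ∨ n = a ^ b * b) : 2 ≤ n := by
  have hw : 1 < a ^ b := Nat.one_lt_pow (by omega) ha
  rcases hn with rfl | rfl | rfl | rfl | rfl
  · exact ha
  · exact hb
  · nlinarith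
  · exact hw
  · nlinarith

/-- Each number of the pattern has many different exponents. -/
theorem many (k : ℕ) : ∃ (r : ℕ) (c : ℕ → Fin r), ∀ a b : ℕ, 1 < a → 1 < b →
    c a = c b → c a = c (a * b) → c a = c (a ^ b) → c a = c (a ^ b * b) → ¬ b.primeFactors ⊆ a.primeFactors →
    ∀ n : ℕ, n = a ∨ n = b ∨ n = a * b ∨ n = a ^ b ∨ n = a ^ b * b → k < (ex n).card := by
  classical
  induction k with
  | zero =>
    refine ⟨1, fun _ => 0, fun a b ha hb _ _ _ _ _ n hn => ?_⟩
    have hn2 := five_ge ha hb hn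
    apply Finset.card_pos.mpr
    exact ⟨_, Finset.mem_image.mpr ⟨n.minFac, Nat.mem_primeFactors.mpr
      ⟨Nat.minFac_prime (by omega), Nat.minFac_dvd n, by omega⟩, rfl⟩⟩
  | succ k ih =>
    obtain ⟨r, c, hc⟩ := ih
    let f : ℕ → Fin r × Bool := fun n => (c n,
      decide (∃ y m : ℕ, Mono c y m ∧ ¬ m.primeFactors ⊆ y.primeFactors ∧ n = y ^ m * m))
    refine ⟨Fintype.card (Fin r × Bool), fun n => Fintype.equivFin _ (f n), ?_⟩
    intro a b ha hb h1 h2 h3 h4 hnew n hn
    have g1 : f a = f b := (Fintype.equivFin _).injective h1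
    have g2 : f a = f (a * b) := (Fintype.equivFin _).injective h2
    have g3 : f a = f (a ^ b) := (Fintype.equivFin _).injective h3
    have g4 : f a = f (a ^ b * b) := (Fintype.equivFin _).injective h4
    have p0 : ∀ {x y : ℕ}, f x = f y → c x = c y := fun h => congrArg (fun z => z.1) h
    have p1 : ∀ {x x' : ℕ}, f x = f x' →
        ((∃ y m : ℕ, Mono c y m ∧ ¬ m.primeFactors ⊆ y.primeFactors ∧ x = y ^ m * m) ↔
        (∃ y m : ℕ, Mono c y m ∧ ¬ m.primeFactors ⊆ y.primeFactors ∧ x' = y ^ m * m)) := by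
      intro x x' h
      have h5 : decide (∃ y m : ℕ, Mono c y m ∧ ¬ m.primeFactors ⊆ y.primeFactors ∧ x = y ^ m * m) =
        decide (∃ y m : ℕ, Mono c y m ∧ ¬ m.primeFactors ⊆ y.primeFactors ∧ x' = y ^ m * m) :=
        congrArg (fun z => z.2) h
      exact decide_eq_decide.mp h5
    have hz : ∃ y m : ℕ, Mono c y m ∧ ¬ m.primeFactors ⊆ y.primeFactors ∧ a ^ b * b = y ^ m * m :=
      ⟨a, b, ⟨ha, hb, p0 g1, p0 g2, p0 g3, p0 g4⟩, hnew, rfl⟩
    have hA := (p1 g4).mpr hz
    have hn' : ∃ y m : ℕ, Mono c y m ∧ ¬ m.primeFactors ⊆ y.primeFactors ∧ n = y ^ m * m := by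
      rcases hn with rfl | rfl | rfl | rfl | rfl
      · exact hA
      · exact (p1 g1).mp hA
      · exact (p1 g2).mp hA
      · exact (p1 g3).mp hA
      · exact hz
    obtain ⟨y, m, ⟨u1, u2, u3, u4, u5, u6⟩, hnew', rfl⟩ := hn'
    have h5 := hc y m u1 u2 u3 u4 u5 u6 hnew' y (Or.inl rfl)
    have h6 := ex_step u1 u2 hnew'
    omega

/-- Each number of the pattern is a power with an exponent which is large compared to an exponent of the base. -/
theorem own (k : ℕ) : ∃ (r : ℕ) (c : ℕ → Fin r), ∀ a b : ℕ, 1 < a → 1 < b →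
    c a = c b → c a = c (a * b) → c a = c (a ^ b) → c a = c (a ^ b * b) → ¬ b.primeFactors ⊆ a.primeFactors →
    ∀ n : ℕ, n = a ∨ n = b ∨ n = a * b ∨ n = a ^ b ∨ n = a ^ b * b →
      ∃ s m : ℕ, n = s ^ m ∧ (∃ r ∈ m.primeFactors, ¬ r ∣ n) ∧ ∃ q ∈ s.primeFactors, tower k (s.factorization q) < m := by
  classical
  obtain ⟨r, c, hc⟩ := low k
  let P : ℕ → Prop := fun n => ∃ s m : ℕ, n = s ^ m ∧ (∃ r ∈ m.primeFactors, ¬ r ∣ n) ∧
    ∃ q ∈ s.primeFactors, tower k (s.factorization q) < m
  let f : ℕ → Fin r × Bool := fun n => (c n, decide (P n))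
  refine ⟨Fintype.card (Fin r × Bool), fun n => Fintype.equivFin _ (f n), ?_⟩
  intro a b ha hb h1 h2 h3 h4 hnew n hn
  have g1 : f a = f b := (Fintype.equivFin _).injective h1
  have g2 : f a = f (a * b) := (Fintype.equivFin _).injective h2
  have g3 : f a = f (a ^ b) := (Fintype.equivFin _).injective h3
  have g4 : f a = f (a ^ b * b) := (Fintype.equivFin _).injective h4
  have p0 : ∀ {x y : ℕ}, f x = f y → c x = c y := fun h => congrArg (fun z => z.1) h
  have p1 : ∀ {x x' : ℕ}, f x = f x' → (P x ↔ P x') := by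
    intro x x' h
    have h5 : decide (P x) = decide (P x') := congrArg (fun z => z.2) h
    exact decide_eq_decide.mp h5
  obtain ⟨p, hpb, hpa⟩ := Finset.not_subset.mp hnew
  obtain ⟨⟨q, hq, -, hlt⟩, -⟩ := hc a b ha hb (p0 g1) (p0 g2) (p0 g3) (p0 g4) p hpb hpa
  have hw : P (a ^ b) := by
    refine ⟨a, b, rfl, ⟨p, hpb, fun h => hpa ?_⟩, q, hq, lt_of_le_of_lt (tower_mono' k (Nat.le_add_right _ _)) hlt⟩
    have hpp := Nat.prime_of_mem_primeFactors hpb
    exact Nat.mem_primeFactors.mpr ⟨hpp, hpp.dvd_of_dvd_pow h, by omega⟩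
  have hA : P a := (p1 g3).mpr hw
  change P n
  rcases hn with rfl | rfl | rfl | rfl | rfl
  · exact hA
  · exact (p1 g1).mp hA
  · exact (p1 g2).mp hA
  · exact hw
  · exact (p1 g4).mp hA

end PRF2
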