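import Mathlib
import Pool.Agent.PRF2.Cp3
import Pool.Agent.PRF2.Many
import Pool.Agent.Hhelper34.Cop.Three

/-!
# No monochromatic pattern with coprime `a` and `b`
-/

namespace PRF2

open PRF PRF.TGap

/-- the divisibility property of labels -/
def Lb (n : ℕ) : Prop := ∀ w, 0 < w → w ≤ mu n * mu n → ¬ mx n ∣ n * w

/-- the largest exponent of `a` is divisible by `b ^ 2` -/
theorem sq_dvd_mx {a b x s : ℕ} (ha : 1 < a) (hb : 1 < b) (hx1 : 1 < x) (hxa : x < a) (hdvd : x ∣ a)
    (hco : x.Coprime (a / x)) (hs : a / x = s ^ (b * x ^ b) ^ 2) : b ^ 2 ∣ mx a := by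
  obtain ⟨y, hy⟩ := hdvd
  have hyx : a / x = y := by rw [hy, Nat.mul_div_cancel_left _ (by omega)]
  rw [hyx] at hco hs
  have hy1 : 1 < y := by
    rcases Nat.lt_or_ge 1 y with h | h
    · exact h
    · exfalso
      have h1 : x * y ≤ x * 1 := Nat.mul_le_mul_left x h
      omega
  have hfa : ∀ q, a.factorization q = x.factorization q + y.factorization q := by
    intro q
    rw [hy, Nat.factorization_mul (by omega) (by omega), Finsupp.add_apply]
  have hfy : ∀ q, y.factorization q = (b * x ^ b) ^ 2 * s.factorization q := by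
    intro q
    rw [hs, Nat.factorization_pow, Finsupp.smul_apply, smul_eq_mul]
  obtain ⟨p, hp, hpm⟩ := exists_top (n := a) (by omega)
  have hpx : p ∉ x.primeFactors := by
    intro hpx
    have h0 : y.factorization p = 0 := fz0 fun h => Finset.disjoint_left.mp hco.disjoint_primeFactors hpx h
    have h1 : mx a < x := by
      rw [← hpm, hfa, h0, add_zero]
      exact f_lt (by omega) p
    obtain ⟨r, hr⟩ : ∃ r, r ∈ y.primeFactors := ⟨_, minFac_mem (n := y) (by omega)⟩
    have h2 := fpos hr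
    have h3 : (b * x ^ b) ^ 2 ≤ y.factorization r := by
      apply Nat.le_of_dvd h2
      rw [hfy]
      exact Dvd.intro _ rfl
    have h4 : x ≤ (b * x ^ b) ^ 2 := by
      have h5 : x ≤ x ^ b := Nat.le_self_pow (by omega) x
      have h6 : x ^ b ≤ b * x ^ b := Nat.le_mul_of_pos_left _ (by omega)
      exact (h5.trans h6).trans (Nat.le_self_pow (by norm_num) _)
    have h5 := le_mx a r
    rw [hfa] at h5
    omega
  have h0 : x.factorization p = 0 := fz0 hpx
  rw [← hpm, hfa, h0, zero_add, hfy, mul_pow]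
  exact Dvd.dvd.mul_right (Dvd.intro _ rfl) _

/-- There is a finite colouring without monochromatic `a, b, ab, a ^ b, a ^ b * b` for coprime `a, b > 1`. -/
theorem coprime_none : ∃ (r : ℕ) (c : ℕ → Fin r), ∀ a b : ℕ, 1 < a → 1 < b → Nat.Coprime a b →
    c a = c b → c a = c (a * b) → c a = c (a ^ b) → c a = c (a ^ b * b) → False := by
  classical
  obtain ⟨r₀, c₀, hc₀⟩ := low 1
  obtain ⟨r₁, c₁, hc₁⟩ := own 1
  obtain ⟨r₂, c₂, hc₂⟩ := Pool.Agent.Hhelper34.Cop.three 2
  obtain ⟨g, hg⟩ := two_colW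
  let X := ((Fin r₀ × Fin r₁) × Fin r₂) × ((Fin 65 × Bool) × Fin 2)
  let f : ℕ → X := fun n => (((c₀ n, c₁ n), c₂ n), ((⟨min n 64, by omega⟩, decide (Lb n)), g n))
  refine ⟨Fintype.card X, fun n => Fintype.equivFin X (f n), ?_⟩
  intro a b ha hb hco h1 h2 h3 h4
  have g1 : f a = f b := (Fintype.equivFin X).injective h1
  have g2 : f a = f (a * b) := (Fintype.equivFin X).injective h2
  have g3 : f a = f (a ^ b) := (Fintype.equivFin X).injective h3
  have g4 : f a = f (a ^ b * b) := (Fintype.equivFin X).injective h4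
  have p0 : ∀ {x y : ℕ}, f x = f y → c₀ x = c₀ y := fun h => congrArg (fun z => z.1.1.1) h
  have p1 : ∀ {x y : ℕ}, f x = f y → c₁ x = c₁ y := fun h => congrArg (fun z => z.1.1.2) h
  have p2 : ∀ {x y : ℕ}, f x = f y → c₂ x = c₂ y := fun h => congrArg (fun z => z.1.2) h
  have p3 : ∀ {x y : ℕ}, f x = f y → min x 64 = min y 64 := fun h => congrArg (fun z => z.2.1.1.val) h
  have p4 : ∀ {x y : ℕ}, f x = f y → (Lb x ↔ Lb y) := fun {x y} h => by
    have h5 : decide (Lb x) = decide (Lb y) := congrArg (fun z => z.2.1.2) h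
    exact decide_eq_decide.mp h5
  have p5 : ∀ {x y : ℕ}, f x = f y → g x = g y := fun h => congrArg (fun z => z.2.2) h
  -- `b` is large
  have hb64 : 64 ≤ b := by
    by_contra hcon
    have h5 := p3 g1
    have h6 : a = b := by omega
    rw [h6] at hco
    have := (Nat.coprime_self b).mp hco
    omega
  -- the least exponent of `a` is at most the least exponent of `b`
  have hmu : mu a ≤ mu b := by
    obtain ⟨p, hp, hpm⟩ := mu_mem (n := b) hb
    have hpa : p ∉ a.primeFactors := fun h => Finset.disjoint_left.mp hco.disjoint_primeFactors h hp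
    obtain ⟨⟨q, hq, hle, -⟩, -⟩ := hc₀ a b ha hb (p0 g1) (p0 g2) (p0 g3) (p0 g4) p hp hpa
    rw [hpm]
    exact (mu_le hq).trans ((Nat.le_add_right _ _).trans hle)
  have hmub : mu b < b := lt_of_le_of_lt (mu_le_mx hb) (mx_lt hb)
  -- the divisibility property
  have hLa : Lb a := by
    obtain ⟨⟨S, hS, hS'⟩, -⟩ := hc₂ a b ha hb hco (p2 g1) (p2 g2) (p2 g3) (p2 g4)
    obtain ⟨x, hx⟩ : ∃ x, x ∈ S := by
      have : S.Nonempty := Finset.card_pos.mp (by omega)
      exact this
    obtain ⟨x1, x2, x3, x4, s, hs⟩ := hS' x hx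
    have h5 := sq_dvd_mx ha hb x1 x2 x3 x4 hs
    intro w hw hwle hdvd
    have h6 : b ^ 2 ∣ a * w := h5.trans hdvd
    have h7 : b ^ 2 ∣ w := (Nat.Coprime.pow_left 2 hco.symm).dvd_of_dvd_mul_left h6
    have h8 := Nat.le_of_dvd hw h7
    have h9 : mu a * mu a < b * b := Nat.mul_lt_mul'' (lt_of_le_of_lt hmu hmub) (lt_of_le_of_lt hmu hmub)
    rw [pow_two] at h8
    omega
  have hLb : Lab b := ⟨hb64, (p4 g1).mp hLa⟩
  -- `a` and `b` are powers with a common large exponent
  have hcon : Con a b := by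
    have hnew : ¬ b.primeFactors ⊆ a.primeFactors := by
      intro h
      have h5 := minFac_mem (n := b) (by omega)
      exact Finset.disjoint_left.mp hco.disjoint_primeFactors (h h5) h5
    obtain ⟨s, m, hs, -, q, hq, hqm⟩ := hc₁ a b ha hb (p1 g1) (p1 g2) (p1 g3) (p1 g4) hnew (a * b)
      (Or.inr (Or.inr (Or.inl rfl)))
    have hq1 : s.factorization q < m :=
      (show s.factorization q < 2 ^ s.factorization q from Nat.lt_two_pow_self).trans hqm
    have hgcd : IsUnit (gcd a b) := by
      rw [Nat.isUnit_iff]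
      exact hco
    have hgcd' : IsUnit (gcd b a) := by
      rw [Nat.isUnit_iff]
      exact hco.symm
    obtain ⟨d, hd⟩ := exists_eq_pow_of_mul_eq_pow hgcd hs
    obtain ⟨d', hd'⟩ := exists_eq_pow_of_mul_eq_pow hgcd' (by rw [mul_comm]; exact hs)
    refine ⟨m, ⟨d, hd⟩, ⟨d', hd'⟩, ?_⟩
    have hqs := fpos hq
    have h5 : (a * b).factorization q = m * s.factorization q := by
      rw [hs, Nat.factorization_pow, Finsupp.smul_apply, smul_eq_mul]
    have h6 : (a * b).factorization q < m * m := by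
      rw [h5]
      exact Nat.mul_lt_mul_of_pos_left hq1 (by omega)
    have h7 : 0 < (a * b).factorization q := by
      rw [h5]
      exact Nat.mul_pos (by omega) hqs
    have h8 := mem_of_pos h7
    rw [Nat.primeFactors_mul (by omega) (by omega), Finset.mem_union] at h8
    rw [Nat.factorization_mul (by omega) (by omega), Finsupp.add_apply] at h6
    rcases h8 with h8 | h8
    · have := mu_le h8
      omega
    · have := mu_le h8
      omega
  exact hg a (a ^ b * b) ⟨b, ha, hLb, hco, hcon, hmu, rfl⟩ (p5 g4)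

end PRF2
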