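import Mathlib
import Pool.Agent.PRF2.Cp4
import Pool.Agent.PRF2.Iter

/-!
# Pairs with a small greatest common divisor
-/

namespace PRF2

open PRF PRF.TGap

theorem It.le_self' (k : ℕ) : ∀ {M n : ℕ}, It k M n → M ≤ n := by
  induction k with
  | zero => intro M n h; exact h
  | succ k ih =>
    rintro M n ⟨x, y, hx, hy, rfl⟩
    exact (ih hy).trans (Nat.lt_pow_self (by omega)).le

theorem It.exp {k M n q : ℕ} (h : It (k + 1) M n) (hq : q ∈ n.primeFactors) : M ≤ n.factorization q := by
  obtain ⟨x, y, hx, hy, rfl⟩ := h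
  have h1 := fpos hq
  rw [Nat.factorization_pow, Finsupp.smul_apply, smul_eq_mul] at h1 ⊢
  have h2 : 0 < x.factorization q := Nat.pos_of_mul_pos_left h1 |> fun h => h
  exact (It.le_self' k hy).trans (Nat.le_mul_of_pos_right y h2)

/-- There is a finite colouring without monochromatic `a, b, ab, a ^ b, a ^ b * b` for `a, b > 1` with a small greatest
common divisor. -/
theorem gcd_none (k : ℕ) : ∃ (r : ℕ) (c : ℕ → Fin r), ∀ a b : ℕ, 1 < a → 1 < b →
    Nat.gcd a b ≤ tower k (a * b).minFac →
    c a = c b → c a = c (a * b) → c a = c (a ^ b) → c a = c (a ^ b * b) → False := by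
  classical
  obtain ⟨r₀, c₀, hc₀⟩ := coprime_none
  obtain ⟨r₁, c₁, hc₁⟩ := iterated (k + 1)
  let X := Fin r₀ × Fin r₁
  let f : ℕ → X := fun n => (c₀ n, c₁ n)
  refine ⟨Fintype.card X, fun n => Fintype.equivFin X (f n), ?_⟩
  intro a b ha hb hgcd h1 h2 h3 h4
  have g1 : f a = f b := (Fintype.equivFin X).injective h1
  have g2 : f a = f (a * b) := (Fintype.equivFin X).injective h2
  have g3 : f a = f (a ^ b) := (Fintype.equivFin X).injective h3
  have g4 : f a = f (a ^ b * b) := (Fintype.equivFin X).injective h4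
  have p0 : ∀ {x y : ℕ}, f x = f y → c₀ x = c₀ y := fun h => congrArg Prod.fst h
  have p1 : ∀ {x y : ℕ}, f x = f y → c₁ x = c₁ y := fun h => congrArg Prod.snd h
  rcases Nat.eq_or_lt_of_le (Nat.gcd_pos_of_pos_left b (show 0 < a by omega)) with hco | hco
  · exact hc₀ a b ha hb hco.symm (p0 g1) (p0 g2) (p0 g3) (p0 g4)
  · -- a common prime factor
    obtain ⟨q, hq, hqd⟩ := Nat.exists_prime_and_dvd (show Nat.gcd a b ≠ 1 by omega)
    have hqa : q ∈ a.primeFactors := Nat.mem_primeFactors.mpr ⟨hq, hqd.trans (Nat.gcd_dvd_left a b), by omega⟩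
    have hqb : q ∈ b.primeFactors := Nat.mem_primeFactors.mpr ⟨hq, hqd.trans (Nat.gcd_dvd_right a b), by omega⟩
    have hmin : ∀ n, 1 < n → n ∣ a * b → (n = a ∨ n = b) → q ∈ n.primeFactors →
        tower (k + 1) (a * b).minFac ≤ n.factorization q := by
      intro n hn hdvd hnab hqn
      have hn5 : n = a ∨ n = b ∨ n = a * b ∨ n = a ^ b ∨ n = a ^ b * b := by
        rcases hnab with h | h
        · exact Or.inl h
        · exact Or.inr (Or.inl h)
      have hcard : (n.primeFactors.filter fun q => q < n.minFac).card < k + 1 := by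
        have : (n.primeFactors.filter fun q => q < n.minFac) = ∅ := by
          apply Finset.filter_eq_empty_iff.mpr
          intro r hr
          have := Nat.minFac_le_of_dvd (Nat.prime_of_mem_primeFactors hr).two_le (Nat.dvd_of_mem_primeFactors hr)
          omega
        rw [this, Finset.card_empty]
        omega
      obtain ⟨h5, -⟩ := hc₁ a b ha hb (p1 g1) (p1 g2) (p1 g3) (p1 g4) n hn5 n.minFac (minFac_mem (by omega)) hcard
      refine le_trans (tower_mono' _ ?_) (h5.exp hqn)
      exact Nat.minFac_le_of_dvd (Nat.minFac_prime (by omega)).two_le ((Nat.minFac_dvd n).trans hdvd)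
    have e1 := hmin a ha (Dvd.intro _ rfl) (Or.inl rfl) hqa
    have e2 := hmin b hb (Dvd.intro_left _ rfl) (Or.inr rfl) hqb
    set T := tower (k + 1) (a * b).minFac with hT
    have h5 : q ^ T ∣ a := (hq.pow_dvd_iff_le_factorization (by omega)).mpr e1
    have h6 : q ^ T ∣ b := (hq.pow_dvd_iff_le_factorization (by omega)).mpr e2
    have h7 : q ^ T ≤ Nat.gcd a b := Nat.le_of_dvd (by omega) (Nat.dvd_gcd h5 h6)
    have h8 : T < 2 ^ T := Nat.lt_two_pow_self
    have h9 : 2 ^ T ≤ q ^ T := Nat.pow_le_pow_left hq.two_le T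
    have h10 : tower k (a * b).minFac ≤ T := by
      rw [hT]
      exact (show tower k (a * b).minFac < 2 ^ tower k (a * b).minFac from Nat.lt_two_pow_self).le
    omega

end PRF2
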