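import Mathlib
import Pool.Agent.PRF2.Chain

/-!
# Contents of numbers with a large radical
-/

namespace PRF2

open PRF.TGap

/-- the product of the prime factors -/
def rd (n : ℕ) : ℕ := ∏ p ∈ n.primeFactors, p

theorem le_tower_self (k n : ℕ) : n ≤ tower k n := by
  induction k with
  | zero => exact le_rfl
  | succ k ih => exact ih.trans (Nat.lt_two_pow_self).le

theorem pow_le_tower (J : ℕ) {m : ℕ} (hm : 1 ≤ m) : m ^ J ≤ tower (J + 1) m := by
  have h1 : J * m ≤ tower J m :=
    (Nat.mul_le_mul_right m (Nat.lt_two_pow_self).le).trans (le_tower_mul J hm)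
  calc m ^ J ≤ (2 ^ m) ^ J := Nat.pow_le_pow_left (Nat.lt_two_pow_self).le J
    _ = 2 ^ (J * m) := by rw [← pow_mul, mul_comm]
    _ ≤ 2 ^ tower J m := Nat.pow_le_pow_right (by norm_num) h1

/-- In a chain the contents multiply. -/
theorem chain_contents {J : ℕ} {y : ℕ → ℕ} {q μ : ℕ} (hy : ∀ j ≤ J, 2 ≤ y j) (hμ1 : 1 ≤ μ)
    (hμ : ∀ i j, i < j → j ≤ J → ∃ u, y i = y j * u ∧ 2 ≤ u ∧ u ≤ μ)
    (hq : ∀ j ≤ J, (y j).factorization q = (y 0).factorization q) (hq0 : (y 0).factorization q ≠ 0) :
    ∏ i ∈ Finset.range (J + 1), G (y i) ≤ μ ^ ((J + 1) * (J + 1)) * Nat.log 2 (y 0) := by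
  have h1 := prod_le (κ := fun i => G (y i)) (B := μ) hμ1 (n := J + 1)
    (fun i hi => G_pos (hy i (by omega))) (by
      intro i hi j hj
      obtain ⟨u, hu, hu2, hu3⟩ := hμ j i hj (by omega)
      have hu0 : 0 < u.factorization u.minFac := minFac_val hu2
      have h5 : Nat.gcd (G (y i)) (G (y j)) ∣ u.factorization u.minFac := by
        have e1 : Nat.gcd (G (y i)) (G (y j)) ∣ (y i).factorization u.minFac :=
          (Nat.gcd_dvd_left _ _).trans (G_dvd _ _)
        have e2 : Nat.gcd (G (y i)) (G (y j)) ∣ (y j).factorization u.minFac :=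
          (Nat.gcd_dvd_right _ _).trans (G_dvd _ _)
        have e3 : (y j).factorization u.minFac = (y i).factorization u.minFac + u.factorization u.minFac := by
          rw [hu, Nat.factorization_mul (by have := hy i (by omega); omega) (by omega)]
          rfl
        rw [e3] at e2
        exact (Nat.dvd_add_right e1).mp e2
      exact (Nat.le_of_dvd hu0 h5).trans ((val_le_log u _ (by omega)).trans
        ((Nat.log_le_self 2 u).trans hu3)))
  refine h1.trans (Nat.mul_le_mul_left _ ?_)
  have h2 : lc (fun i => G (y i)) (J + 1) ∣ (y 0).factorization q := by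
    apply lc_dvd
    intro i hi
    rw [← hq i (by omega)]
    exact G_dvd _ _
  exact (Nat.le_of_dvd (Nat.pos_of_ne_zero hq0) h2).trans
    (val_le_log _ _ (by have := hy 0 (by omega); omega))

theorem radical (k : ℕ) (ε : ℝ) (hε : 0 < ε) : ∃ (r : ℕ) (c : ℕ → Fin r), ∀ a b : ℕ, 1 < a → 1 < b →
    c a = c b → c a = c (a * b) → c a = c (a ^ b) → c a = c (a ^ b * b) →
    ∀ n : ℕ, n = a ∨ n = b ∨ n = a * b ∨ n = a ^ b ∨ n = a ^ b * b → n ≤ tower k (rd n) →
      (G n : ℝ) < Real.log n ^ ε := by
  classical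
  obtain ⟨J, hJ⟩ := exists_nat_ge (4 / ε)
  have hJ0 : (0:ℝ) < J := lt_of_lt_of_le (by positivity) hJ
  have hJpos : 0 < J := by exact_mod_cast hJ0
  obtain ⟨N, hN⟩ := exists_nat_ge (2 / ε)
  have hN0 : (0:ℝ) < N := lt_of_lt_of_le (by positivity) hN
  have hNpos : 0 < N := by exact_mod_cast hN0
  obtain ⟨K, hK⟩ : ∃ K : ℕ, K = 2 * (J + 1) ^ 3 + 4 * J + k + 10 := ⟨_, rfl⟩
  obtain ⟨r₁, c₁, hc₁⟩ := tower_all (K + 2)
  let Y := Fin r₁ × Fin (2 * N + 1)
  let f₀ : ℕ → Y := fun n => (c₁ n,
    ⟨min ⌊(N:ℝ) * rel n⌋₊ (2 * N), by have := min_le_right ⌊(N:ℝ) * rel n⌋₊ (2 * N); omega⟩)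
  let c₀ : ℕ → Fin (Fintype.card Y) := fun n => Fintype.equivFin Y (f₀ n)
  obtain ⟨r', c', hc'⟩ := chain (Fintype.card Y) c₀ J
  let X := Fin r' × Bool
  let f : ℕ → X := fun n => (c' n, decide (n ≤ tower k (rd n) → (G n : ℝ) < Real.log n ^ ε))
  refine ⟨Fintype.card X, fun n => Fintype.equivFin X (f n), ?_⟩
  intro a b ha hb h1 h2 h3 h4
  have g1 : f a = f b := (Fintype.equivFin X).injective h1
  have g2 : f a = f (a * b) := (Fintype.equivFin X).injective h2
  have g3 : f a = f (a ^ b) := (Fintype.equivFin X).injective h3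
  have g4 : f a = f (a ^ b * b) := (Fintype.equivFin X).injective h4
  have p0 : ∀ {x y : ℕ}, f x = f y → c' x = c' y := fun h => congrArg (fun z => z.1) h
  have p1 : ∀ {x y : ℕ}, f x = f y → ((x ≤ tower k (rd x) → (G x : ℝ) < Real.log x ^ ε) ↔
      (y ≤ tower k (rd y) → (G y : ℝ) < Real.log y ^ ε)) := by
    intro x y h
    have h5 : decide (x ≤ tower k (rd x) → (G x : ℝ) < Real.log x ^ ε) =
        decide (y ≤ tower k (rd y) → (G y : ℝ) < Real.log y ^ ε) := congrArg (fun z => z.2) h
    exact decide_eq_decide.mp h5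
  obtain ⟨-, y, m, hy0, hym⟩ := hc' a b ⟨ha, hb, p0 g1, p0 g2, p0 g3, p0 g4⟩
  have q1 : ∀ {u v : ℕ}, c₀ u = c₀ v → c₁ u = c₁ v := fun h =>
    congrArg (fun z => z.1) ((Fintype.equivFin Y).injective h)
  have q2 : ∀ {u v : ℕ}, c₀ u = c₀ v → min ⌊(N:ℝ) * rel u⌋₊ (2 * N) = min ⌊(N:ℝ) * rel v⌋₊ (2 * N) := fun h =>
    congrArg (fun z => z.2.val) ((Fintype.equivFin Y).injective h)
  -- elementary properties of the chain
  have hstep : ∀ j < J, tower (K + 2) (m (j + 1)) < y (j + 1) := by
    intro j hj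
    obtain ⟨-, u1, u2, u3, u4, u5, u6⟩ := hym j hj
    exact hc₁ _ _ u1 u2 (q1 u3) (q1 u4) (q1 u5) (q1 u6)
  have hm2 : ∀ j < J, 2 ≤ m (j + 1) := fun j hj => (hym j hj).2.2.1
  have hmy : ∀ j < J, m (j + 1) < y (j + 1) := fun j hj => lt_of_le_of_lt (le_tower_self _ _) (hstep j hj)
  have hcol : ∀ j ≤ J, c₀ (y j) = c₀ a := by
    intro j
    induction j with
    | zero => intro _; rw [hy0]
    | succ j ih =>
      intro hj
      obtain ⟨u0, u1, u2, u3, u4, u5, u6⟩ := hym j (by omega)
      rw [← u0] at u4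
      exact u4.trans (ih (by omega))
  have hle : ∀ j < J, y (j + 1) ≤ y j := by
    intro j hj
    rw [(hym j hj).1]
    exact Nat.le_mul_of_pos_right _ (by have := hm2 j hj; omega)
  have hyle : ∀ j ≤ J, y j ≤ a := by
    intro j
    induction j with
    | zero => intro _; rw [hy0]
    | succ j ih => intro hj; exact (hle j (by omega)).trans (ih (by omega))
  have hy2 : ∀ j ≤ J, 2 ≤ y j := by
    intro j hj
    rcases Nat.eq_zero_or_pos j with h0 | h0
    · rw [h0, hy0]; exact ha
    · obtain ⟨i, rfl⟩ : ∃ i, j = i + 1 := ⟨j - 1, by omega⟩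
      have := hmy i (by omega)
      have := hm2 i (by omega)
      omega
  -- the largest factor
  obtain ⟨j₀, hj₀, hmax⟩ := Finset.exists_max_image (Finset.range J) (fun j => m (j + 1))
    ⟨0, Finset.mem_range.mpr hJpos⟩
  rw [Finset.mem_range] at hj₀
  set M := m (j₀ + 1) with hM
  have hM2 : 2 ≤ M := hm2 j₀ hj₀
  have hmM : ∀ j < J, m (j + 1) ≤ M := fun j hj => hmax j (Finset.mem_range.mpr hj)
  have hMa : tower (K + 2) M < a := lt_of_lt_of_le (hstep j₀ hj₀) (hyle _ (by omega))
  have hμ : ∀ i j, i < j → j ≤ J → ∃ u, y i = y j * u ∧ 2 ≤ u ∧ u ≤ M ^ J := by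
    have aux : ∀ d i, i + d ≤ J → ∃ u, y i = y (i + d) * u ∧ 2 ^ d ≤ u ∧ u ≤ M ^ d := by
      intro d
      induction d with
      | zero => intro i _; exact ⟨1, by simp⟩
      | succ d ih =>
        intro i hi
        obtain ⟨u, e1, e2, e3⟩ := ih i (by omega)
        refine ⟨u * m (i + d + 1), ?_, ?_, ?_⟩
        · rw [e1, (hym (i + d) (by omega)).1, ← Nat.add_assoc]
          ring
        · rw [pow_succ]
          exact Nat.mul_le_mul e2 (hm2 _ (by omega))
        · rw [pow_succ]
          exact Nat.mul_le_mul e3 (hmM _ (by omega))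
    intro i j hij hj
    obtain ⟨d, rfl⟩ := Nat.exists_eq_add_of_lt hij
    obtain ⟨u, e1, e2, e3⟩ := aux (d + 1) i (by omega)
    refine ⟨u, e1, ?_, e3.trans (Nat.pow_le_pow_right (by omega) (by omega))⟩
    have : 2 ^ 1 ≤ 2 ^ (d + 1) := Nat.pow_le_pow_right (by norm_num) (by omega)
    omega
  -- sizes
  set L := Real.log (Real.log a) with hLdef
  have hMr : (2:ℝ) ≤ M := by exact_mod_cast hM2
  have hsize : (K:ℝ) * M / 2 - 1 ≤ L := by
    have h5 : 2 ^ 2 ^ tower K M < a := by
      have : tower (K + 2) M = 2 ^ 2 ^ tower K M := rfl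
      rw [← this]
      exact hMa
    have h6 := loglog h5
    have h7 : K * M ≤ tower K M :=
      (Nat.mul_le_mul_right M (Nat.lt_two_pow_self).le).trans (le_tower_mul K (by omega))
    have h8 : (K:ℝ) * M ≤ tower K M := by exact_mod_cast h7
    linarith
  have hKr : (K:ℝ) = 2 * ((J:ℝ) + 1) ^ 3 + 4 * J + k + 10 := by rw [hK]; push_cast; ring
  have hk0 : (0:ℝ) ≤ k := Nat.cast_nonneg k
  have hbig : ((J:ℝ) + 1) ^ 3 * M + 4 * J + 9 ≤ L := by
    have h5 : (K:ℝ) * M / 2 - 1 = ((J:ℝ) + 1) ^ 3 * M + (2 * J * M + (k + 10) * M / 2) - 1 := by rw [hKr]; ring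
    have h6 : 4 * (J:ℝ) + 10 ≤ 2 * J * M + (k + 10) * M / 2 := by nlinarith
    linarith
  have hcube : 0 ≤ ((J:ℝ) + 1) ^ 3 * M := by positivity
  have hL1 : 1 ≤ L := by linarith
  -- log log of the members
  have hLL : ∀ j ≤ J, L - j ≤ Real.log (Real.log (y j)) := by
    intro j
    induction j with
    | zero => intro _; rw [hy0]; simp [hLdef]
    | succ j ih =>
      intro hj
      have e1 := ih (by omega)
      have e2 : y j ≤ y (j + 1) * y (j + 1) := by
        rw [(hym j (by omega)).1]
        exact Nat.mul_le_mul_left _ (hmy j (by omega)).le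
      have hyp : (0:ℝ) < y (j + 1) := by exact_mod_cast (show 0 < y (j + 1) by have := hy2 (j + 1) hj; omega)
      have e3 : Real.log (y j) ≤ 2 * Real.log (y (j + 1)) := by
        have e4 : (y j : ℝ) ≤ (y (j + 1) : ℝ) * y (j + 1) := by exact_mod_cast e2
        have e5 := Real.log_le_log (by exact_mod_cast (show 0 < y j by have := hy2 j (by omega); omega)) e4
        rw [Real.log_mul hyp.ne' hyp.ne'] at e5
        linarith
      have e6 := Real.log_le_log (log_pos_of (hy2 j (by omega))) e3
      rw [Real.log_mul (by norm_num) (log_pos_of (hy2 (j + 1) hj)).ne'] at e6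
      push_cast
      linarith [log_two_le_one]
  -- the statement for `a`
  have main : a ≤ tower k (rd a) → (G a : ℝ) < Real.log a ^ ε := by
    intro hrad
    by_contra hcon
    push Not at hcon
    -- a prime factor of `a` which divides no factor of the chain
    obtain ⟨q, hqa, hqm⟩ : ∃ q ∈ a.primeFactors, ∀ j < J, ¬ q ∣ m (j + 1) := by
      by_contra hno
      push Not at hno
      have e1 : rd a ∣ ∏ j ∈ Finset.range J, m (j + 1) := by
        have e2 : (∏ j ∈ Finset.range J, m (j + 1)) ≠ 0 := by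
          apply Finset.prod_ne_zero_iff.mpr
          intro j hj
          have := hm2 j (Finset.mem_range.mp hj)
          omega
        have e3 : a.primeFactors ⊆ (∏ j ∈ Finset.range J, m (j + 1)).primeFactors := by
          intro q hq
          obtain ⟨j, hj, hd⟩ := hno q hq
          exact Nat.mem_primeFactors.mpr ⟨Nat.prime_of_mem_primeFactors hq,
            hd.trans (Finset.dvd_prod_of_mem _ (Finset.mem_range.mpr hj)), e2⟩
        exact (Finset.prod_dvd_prod_of_subset _ _ _ e3).trans (Nat.prod_primeFactors_dvd _)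
      have e4 : rd a ≤ M ^ J := by
        refine (Nat.le_of_dvd ?_ e1).trans ?_
        · apply Finset.prod_pos
          intro j hj
          have := hm2 j (Finset.mem_range.mp hj)
          omega
        · calc ∏ j ∈ Finset.range J, m (j + 1) ≤ ∏ _j ∈ Finset.range J, M :=
                Finset.prod_le_prod' fun j hj => hmM j (Finset.mem_range.mp hj)
            _ = M ^ J := by rw [Finset.prod_const, Finset.card_range]
      have e5 : a ≤ tower (k + (J + 1)) M := by
        rw [tower_add']
        exact hrad.trans (tower_mono' k (e4.trans (pow_le_tower J (by omega))))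
      have e6 : tower (k + (J + 1)) M ≤ tower (K + 2) M := by
        obtain ⟨d, hd⟩ : ∃ d, K + 2 = d + (k + (J + 1)) := by
          refine ⟨K + 2 - (k + (J + 1)), ?_⟩
          have : 0 ≤ 2 * (J + 1) ^ 3 := Nat.zero_le _
          omega
        rw [hd, tower_add' d]
        exact le_tower_self _ _
      omega
    have hqp : q.Prime := Nat.prime_of_mem_primeFactors hqa
    have hval : ∀ j ≤ J, (y j).factorization q = (y 0).factorization q := by
      intro j
      induction j with
      | zero => intro _; rfl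
      | succ j ih =>
        intro hj
        rw [← ih (by omega), (hym j (by omega)).1, Nat.factorization_mul
          (by have := hy2 (j + 1) hj; omega) (by have := hm2 j (by omega); omega)]
        rw [Finsupp.add_apply, Nat.factorization_eq_zero_of_not_dvd (hqm j (by omega))]
        rfl
    have hq0 : (y 0).factorization q ≠ 0 := by
      rw [hy0]
      rw [← Nat.support_factorization, Finsupp.mem_support_iff] at hqa
      exact hqa
    have hprod := chain_contents (J := J) (q := q) hy2 (Nat.one_le_pow J M (by omega)) hμ hval hq0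
    rw [hy0] at hprod
    -- logarithms
    have hla : 0 < Real.log a := log_pos_of ha
    have t1 : ∑ i ∈ Finset.range (J + 1), Real.log (G (y i)) ≤
        ((J:ℝ) + 1) ^ 2 * (J * Real.log M) + (1 + L) := by
      have e1 : ((∏ i ∈ Finset.range (J + 1), G (y i) : ℕ) : ℝ) ≤
          ((M:ℝ) ^ J) ^ ((J + 1) * (J + 1)) * (2 * Real.log a) := by
        have e2 : ((∏ i ∈ Finset.range (J + 1), G (y i) : ℕ) : ℝ) ≤
            ((M:ℝ) ^ J) ^ ((J + 1) * (J + 1)) * (Nat.log 2 a : ℕ) := by exact_mod_cast hprod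
        exact e2.trans (mul_le_mul_of_nonneg_left (natlog_le ha) (by positivity))
      have e3 : (0:ℝ) < ((∏ i ∈ Finset.range (J + 1), G (y i) : ℕ) : ℝ) := by
        have : 0 < ∏ i ∈ Finset.range (J + 1), G (y i) :=
          Finset.prod_pos fun i hi => G_pos (hy2 i (by rw [Finset.mem_range] at hi; omega))
        exact_mod_cast this
      have e4 := Real.log_le_log e3 e1
      have hMp : (0:ℝ) < M := by linarith
      rw [Real.log_mul (by positivity) (by positivity), Real.log_pow, Real.log_pow,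
        Real.log_mul (by norm_num) hla.ne'] at e4
      have e5 : Real.log ((∏ i ∈ Finset.range (J + 1), G (y i) : ℕ) : ℝ) =
          ∑ i ∈ Finset.range (J + 1), Real.log (G (y i)) := by
        push_cast
        apply Real.log_prod
        intro i hi
        have := G_pos (hy2 i (by rw [Finset.mem_range] at hi; omega))
        exact_mod_cast this.ne'
      rw [e5] at e4
      push_cast at e4
      have e6 : ((J:ℝ) + 1) * (J + 1) * (J * Real.log M) = ((J:ℝ) + 1) ^ 2 * (J * Real.log M) := by ring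
      linarith [log_two_le_one]
    have t2 : ((J:ℝ) + 1) * ((rel a - 1 / N) * (L - J)) ≤
        ∑ i ∈ Finset.range (J + 1), Real.log (G (y i)) := by
      have e1 : ∀ i ∈ Finset.range (J + 1), (rel a - 1 / N) * (L - J) ≤ Real.log (G (y i)) := by
        intro i hi
        rw [Finset.mem_range] at hi
        apply rel_low hNpos ha (hy2 i (by omega)) hL1 (by linarith)
        · refine le_trans ?_ (hLL i (by omega))
          have : (i:ℝ) ≤ J := by exact_mod_cast (show i ≤ J by omega)
          linarith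
        · exact (q2 (hcol i (by omega))).symm
      have e2 := Finset.sum_le_sum e1
      rw [Finset.sum_const, Finset.card_range, nsmul_eq_mul] at e2
      push_cast at e2
      exact e2
    have t3 : ε ≤ rel a := by
      have e1 := Real.log_le_log (Real.rpow_pos_of_pos hla ε) hcon
      rw [Real.log_rpow hla] at e1
      unfold rel
      rw [le_div_iff₀ (by linarith)]
      exact e1
    have t4 : (1:ℝ) / N ≤ ε / 2 := by
      rw [div_le_div_iff₀ hN0 (by norm_num)]
      rw [div_le_iff₀ hε] at hN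
      linarith
    have t5 : 2 ≤ ((J:ℝ) + 1) * (ε / 2) := by
      rw [div_le_iff₀ hε] at hJ
      nlinarith
    have hLJ : 0 ≤ L - J := by linarith
    have t6 : 2 * (L - J) ≤ ((J:ℝ) + 1) * ((rel a - 1 / N) * (L - J)) := by
      have e1 : ((J:ℝ) + 1) * (ε / 2) ≤ ((J:ℝ) + 1) * (rel a - 1 / N) :=
        mul_le_mul_of_nonneg_left (by linarith) (by linarith)
      calc 2 * (L - J) ≤ (((J:ℝ) + 1) * (rel a - 1 / N)) * (L - J) :=
            mul_le_mul_of_nonneg_right (by linarith) hLJ
        _ = _ := by ring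
    have t7 : Real.log M ≤ M := by
      have := Real.log_le_sub_one_of_pos (show (0:ℝ) < M by linarith)
      linarith
    have t8 : ((J:ℝ) + 1) ^ 2 * (J * Real.log M) ≤ ((J:ℝ) + 1) ^ 3 * M := by
      have e1 : (J:ℝ) * Real.log M ≤ ((J:ℝ) + 1) * M := by
        have : 0 ≤ Real.log M := Real.log_nonneg (by linarith)
        nlinarith
      calc ((J:ℝ) + 1) ^ 2 * (J * Real.log M) ≤ ((J:ℝ) + 1) ^ 2 * (((J:ℝ) + 1) * M) :=
            mul_le_mul_of_nonneg_left e1 (by positivity)
        _ = _ := by ring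
    linarith
  intro n hn
  have key := main
  rcases hn with rfl | rfl | rfl | rfl | rfl
  · exact key
  · exact (p1 g1).mp key
  · exact (p1 g2).mp key
  · exact (p1 g3).mp key
  · exact (p1 g4).mp key

end PRF2
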