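import Mathlib

/-!
# Linear functionals with small coefficients

If an integer vector `X` does not depend on the integer vectors `v₁, …, v_d` with entries at most `B`, then some integer
functional with small coefficients vanishes at the `v_i` and does not vanish at `X`.
-/

namespace PRF2

/-- the bound for the coefficients -/
def Cf : ℕ → ℤ → ℤ
  | 0, _ => 1
  | d + 1, B => 2 * B * Cf d (2 * B ^ 2)

theorem exists_fun (d : ℕ) : ∀ (B : ℤ) (v : Fin d → ℕ → ℤ) (X : ℕ → ℤ), 1 ≤ B → (∀ i q, |v i q| ≤ B) →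
    (¬ ∃ w : ℤ, w ≠ 0 ∧ ∃ e : Fin d → ℤ, ∀ q, w * X q = ∑ i, e i * v i q) →
    ∃ φ : (ℕ → ℤ) →ₗ[ℤ] ℤ, (∀ i, φ (v i) = 0) ∧ φ X ≠ 0 ∧
      ∀ (R : ℤ) (Y : ℕ → ℤ), (∀ q, |Y q| ≤ R) → |φ Y| ≤ Cf d B * R := by
  induction d with
  | zero =>
    intro B v X _ _ hX
    obtain ⟨q, hq⟩ : ∃ q, X q ≠ 0 := by
      by_contra hcon
      push Not at hcon
      apply hX
      refine ⟨1, one_ne_zero, fun i => i.elim0, fun q => ?_⟩
      rw [hcon q]
      simp
    refine ⟨LinearMap.proj q, fun i => i.elim0, hq, ?_⟩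
    intro R Y hY
    simpa [Cf] using hY q
  | succ d ih =>
    intro B v X hB hv hX
    have hB2 : 1 ≤ 2 * B ^ 2 := by nlinarith
    have hBB : B ≤ 2 * B ^ 2 := by nlinarith
    by_cases h0 : ∀ q, v 0 q = 0
    · obtain ⟨φ, h1, h2, h3⟩ := ih (2 * B ^ 2) (fun i => v i.succ) X hB2
        (fun i q => (hv i.succ q).trans hBB) (by
          rintro ⟨w, hw, e, he⟩
          apply hX
          refine ⟨w, hw, Fin.cons 0 e, fun q => ?_⟩
          rw [he q, Fin.sum_univ_succ]
          simp)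
      refine ⟨φ, ?_, h2, ?_⟩
      · intro i
        refine Fin.cases ?_ (fun i => h1 i) i
        have : v 0 = 0 := funext h0
        rw [this, map_zero]
      · intro R Y hY
        have hR : 0 ≤ Cf d (2 * B ^ 2) * R := (abs_nonneg _).trans (h3 R Y hY)
        refine (h3 R Y hY).trans ?_
        change Cf d (2 * B ^ 2) * R ≤ 2 * B * Cf d (2 * B ^ 2) * R
        nlinarith
    · push Not at h0
      obtain ⟨p, hp⟩ := h0
      let Lm : (ℕ → ℤ) →ₗ[ℤ] (ℕ → ℤ) := (v 0 p) • LinearMap.id -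
        (LinearMap.proj p : (ℕ → ℤ) →ₗ[ℤ] ℤ).smulRight (v 0)
      have hLm : ∀ Y q, Lm Y q = v 0 p * Y q - Y p * v 0 q := by
        intro Y q
        simp [Lm]
      have hLb : ∀ (R : ℤ) (Y : ℕ → ℤ), (∀ q, |Y q| ≤ R) → ∀ q, |Lm Y q| ≤ 2 * B * R := by
        intro R Y hY q
        rw [hLm]
        have e1 : |v 0 p * Y q| ≤ B * R := by
          rw [abs_mul]
          exact mul_le_mul (hv 0 p) (hY q) (abs_nonneg _) (by omega)
        have e2 : |Y p * v 0 q| ≤ B * R := by
          rw [abs_mul, mul_comm]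
          exact mul_le_mul (hv 0 q) (hY p) (abs_nonneg _) (by omega)
        have e3 := abs_sub (v 0 p * Y q) (Y p * v 0 q)
        linarith
      obtain ⟨φ, h1, h2, h3⟩ := ih (2 * B ^ 2) (fun i => Lm (v i.succ)) (Lm X) hB2 (by
          intro i q
          have := hLb B (v i.succ) (hv i.succ) q
          have e1 : 2 * B * B = 2 * B ^ 2 := by ring
          rwa [e1] at this) (by
          rintro ⟨w, hw, e, he⟩
          apply hX
          refine ⟨w * v 0 p, mul_ne_zero hw hp,
            Fin.cons (w * X p - ∑ i, e i * v i.succ p) (fun i => e i * v 0 p), fun q => ?_⟩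
          have h5 := he q
          simp only [hLm] at h5
          rw [Fin.sum_univ_succ]
          simp only [Fin.cons_zero, Fin.cons_succ]
          have e1 : ∑ i, e i * (v 0 p * v (Fin.succ i) q - v (Fin.succ i) p * v 0 q) =
            ∑ i, e i * v 0 p * v (Fin.succ i) q - (∑ i, e i * v (Fin.succ i) p) * v 0 q := by
            rw [Finset.sum_mul, ← Finset.sum_sub_distrib]
            apply Finset.sum_congr rfl
            intro i _
            ring
          rw [e1] at h5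
          linarith)
      refine ⟨φ.comp Lm, ?_, h2, ?_⟩
      · intro i
        refine Fin.cases ?_ (fun i => h1 i) i
        have : Lm (v 0) = 0 := by
          funext q
          rw [hLm]
          simp
        rw [LinearMap.comp_apply, this, map_zero]
      · intro R Y hY
        have h5 := h3 (2 * B * R) (Lm Y) (hLb R Y hY)
        rw [LinearMap.comp_apply]
        refine h5.trans (le_of_eq ?_)
        change Cf d (2 * B ^ 2) * (2 * B * R) = 2 * B * Cf d (2 * B ^ 2) * R
        ring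

theorem Cf_le (d : ℕ) : ∀ B : ℤ, 1 ≤ B → 1 ≤ Cf d B ∧ Cf d B * (2 * B) ≤ (2 * B) ^ 2 ^ d := by
  induction d with
  | zero =>
    intro B hB
    simp only [Cf, pow_zero, pow_one]
    omega
  | succ d ih =>
    intro B hB
    have hB2 : 1 ≤ 2 * B ^ 2 := by nlinarith
    obtain ⟨h1, h2⟩ := ih (2 * B ^ 2) hB2
    constructor
    · change 1 ≤ 2 * B * Cf d (2 * B ^ 2)
      nlinarith
    · change 2 * B * Cf d (2 * B ^ 2) * (2 * B) ≤ (2 * B) ^ 2 ^ (d + 1)
      calc 2 * B * Cf d (2 * B ^ 2) * (2 * B) = Cf d (2 * B ^ 2) * (2 * (2 * B ^ 2)) := by ring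
        _ ≤ (2 * (2 * B ^ 2)) ^ 2 ^ d := h2
        _ = ((2 * B) ^ 2) ^ 2 ^ d := by congr 1; ring
        _ = (2 * B) ^ 2 ^ (d + 1) := by rw [← pow_mul]; congr 1; ring

theorem Cf_le' {d : ℕ} {B : ℤ} (hB : 1 ≤ B) : Cf d B ≤ (2 * B) ^ 2 ^ d := by
  obtain ⟨h1, h2⟩ := Cf_le d B hB
  nlinarith

/-- a vector with entries divisible by `κ` has a value divisible by `κ` -/
theorem dvd_fun (φ : (ℕ → ℤ) →ₗ[ℤ] ℤ) {κ : ℤ} {Y : ℕ → ℤ} (h : ∀ q, κ ∣ Y q) : κ ∣ φ Y := by
  choose Z hZ using h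
  have : Y = κ • Z := by
    funext q
    simp [hZ q]
  rw [this, map_smul]
  exact ⟨φ Z, by simp⟩

end PRF2
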