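import Mathlib
import Pool.Agent.PRF2.Rad
import Pool.Agent.PRF2.Fun

/-!
# Large contents force a multiplicative dependence on few small numbers

Let `a = y₀, y₁, …, y_d` be a chain with `y_{j-1} = y_j m_j`. The `2d + 1` numbers `y₀`, `y_j`, `y_j ^ m_j * m_j` have the
form `y_d ^ A * W` with small `A, W`, and their contents have small common divisors. If the exponent vector of
`a` does not depend on the vectors of `m₁, …, m_d`, then a functional which vanishes at the latter takes the value
`A φ(a)` at the number `y_d ^ A * W`. So all the contents divide `φ(a) m₁ … m_d`.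
-/

namespace PRF2

open PRF.TGap

/-- The number `n` is multiplicatively dependent on `d` numbers which are much smaller. -/
def Dep (k d n : ℕ) : Prop := ∃ u s t : Fin d → ℕ, (∀ i, 2 ≤ u i ∧ tower k (u i) < n) ∧
  ∃ w : ℕ, 0 < w ∧ n ^ w * ∏ i, u i ^ s i = ∏ i, u i ^ t i

theorem dep_of_vec {k d n : ℕ} (hn : n ≠ 0) (u : Fin d → ℕ) (hu : ∀ i, 2 ≤ u i ∧ tower k (u i) < n)
    (w : ℤ) (hw : w ≠ 0) (e : Fin d → ℤ)
    (h : ∀ q, w * (n.factorization q : ℤ) = ∑ i, e i * ((u i).factorization q : ℤ)) : Dep k d n := by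
  obtain ⟨w', e', hw', h'⟩ : ∃ (w' : ℕ) (e' : Fin d → ℤ), 0 < w' ∧
      ∀ q, (w' : ℤ) * (n.factorization q : ℤ) = ∑ i, e' i * ((u i).factorization q : ℤ) := by
    rcases lt_or_gt_of_ne hw with h0 | h0
    · refine ⟨(-w).toNat, fun i => -e i, by omega, fun q => ?_⟩
      rw [Int.toNat_of_nonneg (by omega)]
      simp only [neg_mul, Finset.sum_neg_distrib]
      rw [h q]
    · refine ⟨w.toNat, e, by omega, fun q => ?_⟩
      rw [Int.toNat_of_nonneg (by omega)]
      exact h q
  refine ⟨u, fun i => (-e' i).toNat, fun i => (e' i).toNat, hu, w', hw', ?_⟩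
  have hu0 : ∀ i, u i ≠ 0 := fun i => by have := (hu i).1; omega
  apply Nat.eq_of_factorization_eq
  · exact mul_ne_zero (pow_ne_zero _ hn) (Finset.prod_ne_zero_iff.mpr fun i _ => pow_ne_zero _ (hu0 i))
  · exact Finset.prod_ne_zero_iff.mpr fun i _ => pow_ne_zero _ (hu0 i)
  · intro q
    rw [Nat.factorization_mul (pow_ne_zero _ hn) (Finset.prod_ne_zero_iff.mpr fun i _ => pow_ne_zero _ (hu0 i)),
      Nat.factorization_prod (fun i _ => pow_ne_zero _ (hu0 i)),
      Nat.factorization_prod (fun i _ => pow_ne_zero _ (hu0 i))]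
    simp only [Nat.factorization_pow, Finsupp.add_apply, Finsupp.smul_apply, Finsupp.finsetSum_apply, smul_eq_mul]
    have h5 := h' q
    have h6 : ∀ i, e' i = ((e' i).toNat : ℤ) - ((-e' i).toNat : ℤ) := fun i => by omega
    have h7 : ∑ i, e' i * ((u i).factorization q : ℤ) = ∑ i, ((e' i).toNat : ℤ) * ((u i).factorization q : ℤ) -
        ∑ i, ((-e' i).toNat : ℤ) * ((u i).factorization q : ℤ) := by
      rw [← Finset.sum_sub_distrib]
      apply Finset.sum_congr rfl
      intro i _
      rw [← sub_mul, ← h6]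
    rw [h7] at h5
    have h8 : (w' : ℤ) * (n.factorization q : ℤ) + ∑ i, ((-e' i).toNat : ℤ) * ((u i).factorization q : ℤ) =
        ∑ i, ((e' i).toNat : ℤ) * ((u i).factorization q : ℤ) := by linarith
    exact_mod_cast h8

/-- Two numbers `y ^ A * W` which are multiplicatively different have contents with a small common divisor. -/
theorem gcd_small {z z' A A' y W W' R : ℕ} (hz : z = y ^ A * W) (hz' : z' = y ^ A' * W') (hy : y ≠ 0)
    (hW : W ≠ 0) (hW' : W' ≠ 0) (hne : z ^ A' ≠ z' ^ A)
    (hR : ∀ q, A' * W.factorization q ≤ R ∧ A * W'.factorization q ≤ R) : Nat.gcd (G z) (G z') ≤ R := by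
  have hz0 : z ≠ 0 := by rw [hz]; exact mul_ne_zero (pow_ne_zero _ hy) hW
  have hz0' : z' ≠ 0 := by rw [hz']; exact mul_ne_zero (pow_ne_zero _ hy) hW'
  obtain ⟨q, hq⟩ : ∃ q, A' * z.factorization q ≠ A * z'.factorization q := by
    by_contra hcon
    push Not at hcon
    apply hne
    apply Nat.eq_of_factorization_eq (pow_ne_zero _ hz0) (pow_ne_zero _ hz0')
    intro q
    rw [Nat.factorization_pow, Nat.factorization_pow]
    simpa using hcon q
  have h1 : z.factorization q = A * y.factorization q + W.factorization q := by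
    rw [hz, Nat.factorization_mul (pow_ne_zero _ hy) hW, Nat.factorization_pow]
    rfl
  have h2 : z'.factorization q = A' * y.factorization q + W'.factorization q := by
    rw [hz', Nat.factorization_mul (pow_ne_zero _ hy) hW', Nat.factorization_pow]
    rfl
  have d1 : Nat.gcd (G z) (G z') ∣ A' * z.factorization q :=
    ((Nat.gcd_dvd_left _ _).trans (G_dvd _ _)).mul_left _
  have d2 : Nat.gcd (G z) (G z') ∣ A * z'.factorization q :=
    ((Nat.gcd_dvd_right _ _).trans (G_dvd _ _)).mul_left _
  obtain ⟨r1, r2⟩ := hR q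
  have e1 : A' * z.factorization q = A * A' * y.factorization q + A' * W.factorization q := by rw [h1]; ring
  have e2 : A * z'.factorization q = A * A' * y.factorization q + A * W'.factorization q := by rw [h2]; ring
  rcases lt_or_gt_of_ne hq with h | h
  · have h5 := Nat.le_of_dvd (by omega) (Nat.dvd_sub d2 d1)
    omega
  · have h5 := Nat.le_of_dvd (by omega) (Nat.dvd_sub d1 d2)
    omega

/-- the `2d + 1` numbers of a chain -/
def zz (y m : ℕ → ℕ) (i : ℕ) : ℕ := if i % 2 = 0 then y (i / 2) else y (i / 2 + 1) ^ m (i / 2 + 1) * m (i / 2 + 1)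

/-- their exponents -/
def aa (m : ℕ → ℕ) (i : ℕ) : ℕ := if i % 2 = 0 then 1 else m (i / 2 + 1)

section chain

variable {J M : ℕ} {y m : ℕ → ℕ} (hym : ∀ j < J, y j = y (j + 1) * m (j + 1)) (hm : ∀ j < J, 2 ≤ m (j + 1))
  (hmM : ∀ j < J, m (j + 1) ≤ M) (hy : ∀ j ≤ J, 2 ≤ y j)

include hm in
theorem aa_pos {i : ℕ} (hi : i ≤ 2 * J) : 1 ≤ aa m i := by
  unfold aa
  split_ifs with h
  · exact le_rfl
  · have := hm (i / 2) (by omega)
    omega

include hmM in
theorem aa_le (hM : 1 ≤ M) {i : ℕ} (hi : i ≤ 2 * J) : aa m i ≤ M := by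
  unfold aa
  split_ifs with h
  · exact hM
  · exact hmM (i / 2) (by omega)

include hy hm in
theorem zz_ge {i : ℕ} (hi : i ≤ 2 * J) : ∃ j ≤ J, y j ≤ zz y m i := by
  unfold zz
  split_ifs with h
  · exact ⟨i / 2, by omega, le_rfl⟩
  · have h1 := hm (i / 2) (by omega)
    have h2 := hy (i / 2 + 1) (by omega)
    refine ⟨i / 2 + 1, by omega, ?_⟩
    calc y (i / 2 + 1) ≤ y (i / 2 + 1) ^ m (i / 2 + 1) := Nat.le_self_pow (by omega) _
      _ ≤ _ := Nat.le_mul_of_pos_right _ (by omega)

include hym hm hmM in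
theorem part : ∀ d i : ℕ, i + d = J → ∃ u, y i = y J * u ∧ u ≠ 0 ∧ ∀ q, u.factorization q ≤ d * M := by
  intro d
  induction d with
  | zero =>
    intro i hi
    refine ⟨1, ?_, one_ne_zero, fun q => by simp⟩
    rw [← hi]
    simp
  | succ d ih =>
    intro i hi
    obtain ⟨u, e1, e2, e3⟩ := ih (i + 1) (by omega)
    have hm2 := hm i (by omega)
    refine ⟨u * m (i + 1), ?_, mul_ne_zero e2 (by omega), ?_⟩
    · rw [hym i (by omega), e1]
      ring
    · intro q
      rw [Nat.factorization_mul e2 (by omega), Finsupp.add_apply]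
      have h1 := e3 q
      have h2 : (m (i + 1)).factorization q ≤ M :=
        (val_le_log _ q (by omega)).trans ((Nat.log_le_self 2 _).trans (hmM i (by omega)))
      calc u.factorization q + (m (i + 1)).factorization q ≤ d * M + M := Nat.add_le_add h1 h2
        _ = (d + 1) * M := by ring

include hym hm hmM in
theorem zz_form (hM : 1 ≤ M) {i : ℕ} (hi : i ≤ 2 * J) :
    ∃ W, zz y m i = y J ^ aa m i * W ∧ W ≠ 0 ∧ ∀ q, W.factorization q ≤ M * (J * M) + M := by
  unfold zz aa
  split_ifs with h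
  · obtain ⟨u, e1, e2, e3⟩ := part hym hm hmM (J - i / 2) (i / 2) (by omega)
    refine ⟨u, by rw [pow_one]; exact e1, e2, fun q => (e3 q).trans ?_⟩
    calc (J - i / 2) * M ≤ J * M := Nat.mul_le_mul_right _ (by omega)
      _ = 1 * (J * M) := by ring
      _ ≤ M * (J * M) := Nat.mul_le_mul_right _ hM
      _ ≤ _ := Nat.le_add_right _ _
  · obtain ⟨u, e1, e2, e3⟩ := part hym hm hmM (J - (i / 2 + 1)) (i / 2 + 1) (by omega)
    have hm2 := hm (i / 2) (by omega)
    have hm3 := hmM (i / 2) (by omega)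
    refine ⟨u ^ m (i / 2 + 1) * m (i / 2 + 1), ?_, mul_ne_zero (pow_ne_zero _ e2) (by omega), fun q => ?_⟩
    · rw [e1, mul_pow]
      ring
    · rw [Nat.factorization_mul (pow_ne_zero _ e2) (by omega), Nat.factorization_pow, Finsupp.add_apply,
        Finsupp.smul_apply, smul_eq_mul]
      have h2 : (m (i / 2 + 1)).factorization q ≤ M :=
        (val_le_log _ q (by omega)).trans ((Nat.log_le_self 2 _).trans hm3)
      apply Nat.add_le_add _ h2
      exact Nat.mul_le_mul hm3 ((e3 q).trans (Nat.mul_le_mul_right _ (by omega)))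

include hym hm hy in
theorem ratio {i : ℕ} (hi : i < 2 * J) :
    Real.log (zz y m (i + 1)) / aa m (i + 1) < Real.log (zz y m i) / aa m i := by
  have key : ∀ j < J, Real.log (y j) = Real.log (y (j + 1)) + Real.log (m (j + 1)) ∧
      0 < Real.log (m (j + 1)) ∧ (2:ℝ) ≤ m (j + 1) ∧
      Real.log ((y (j + 1) ^ m (j + 1) * m (j + 1) : ℕ) : ℝ) / (m (j + 1) : ℝ) =
        Real.log (y (j + 1)) + Real.log (m (j + 1)) / m (j + 1) := by
    intro j hj
    have h1 := hm j hj
    have h2 := hy (j + 1) (by omega)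
    have h3 : (0:ℝ) < y (j + 1) := by exact_mod_cast (show 0 < y (j + 1) by omega)
    have h4 : (0:ℝ) < m (j + 1) := by exact_mod_cast (show 0 < m (j + 1) by omega)
    refine ⟨?_, log_pos_of h1, by exact_mod_cast h1, ?_⟩
    · rw [hym j hj]
      push_cast
      exact Real.log_mul h3.ne' h4.ne'
    · push_cast
      rw [Real.log_mul (by positivity) h4.ne', Real.log_pow]
      field_simp
  rcases Nat.even_or_odd' i with ⟨j, rfl | rfl⟩
  · have e1 : (2 * j + 1) % 2 ≠ 0 := by omega
    have e2 : (2 * j) % 2 = 0 := by omega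
    have e3 : (2 * j + 1) / 2 = j := by omega
    have e4 : 2 * j / 2 = j := by omega
    unfold zz aa
    rw [if_neg e1, if_neg e1, if_pos e2, if_pos e2, e3, e4]
    obtain ⟨k1, k2, k3, k4⟩ := key j (by omega)
    rw [k4, k1, Nat.cast_one, div_one]
    have : Real.log (m (j + 1)) / m (j + 1) < Real.log (m (j + 1)) := by
      rw [div_lt_iff₀ (by linarith)]
      nlinarith
    linarith
  · have e1 : (2 * j + 1) % 2 ≠ 0 := by omega
    have e2 : (2 * j + 1 + 1) % 2 = 0 := by omega
    have e3 : (2 * j + 1) / 2 = j := by omega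
    have e4 : (2 * j + 1 + 1) / 2 = j + 1 := by omega
    unfold zz aa
    rw [if_neg e1, if_neg e1, if_pos e2, if_pos e2, e3, e4]
    obtain ⟨k1, k2, k3, k4⟩ := key j (by omega)
    rw [k4, Nat.cast_one, div_one]
    have : 0 < Real.log (m (j + 1)) / m (j + 1) := by
      apply div_pos k2
      linarith
    linarith

include hym hm hy in
theorem zz_ne {i j : ℕ} (hij : i < j) (hj : j ≤ 2 * J) : zz y m i ^ aa m j ≠ zz y m j ^ aa m i := by
  have key : ∀ d, i + d + 1 ≤ 2 * J → Real.log (zz y m (i + d + 1)) / aa m (i + d + 1) <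
      Real.log (zz y m i) / aa m i := by
    intro d
    induction d with
    | zero => intro h; exact ratio hym hm hy (by omega)
    | succ d ih =>
      intro h
      exact (ratio hym hm hy (i := i + d + 1) (by omega)).trans (ih (by omega))
  obtain ⟨d, rfl⟩ := Nat.exists_eq_add_of_lt hij
  have h1 := key d hj
  intro h
  have h2 : (aa m (i + d + 1) : ℝ) * Real.log (zz y m i) = (aa m i : ℝ) * Real.log (zz y m (i + d + 1)) := by
    rw [← Real.log_pow, ← Real.log_pow]
    congr 1
    exact_mod_cast h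
  have a1 : (0:ℝ) < aa m i := by exact_mod_cast (aa_pos hm (show i ≤ 2 * J by omega))
  have a2 : (0:ℝ) < aa m (i + d + 1) := by exact_mod_cast (aa_pos hm hj)
  rw [div_lt_div_iff₀ a2 a1] at h1
  linarith

include hym hm hmM hy in
/-- The product of the contents is small if they all divide a number `Z`. -/
theorem prod_contents (hM : 1 ≤ M) {Z : ℕ} (hZ0 : 0 < Z) (hZ : ∀ i ≤ 2 * J, G (zz y m i) ∣ Z) :
    ∏ i ∈ Finset.range (2 * J + 1), G (zz y m i) ≤
      (M * (M * (J * M) + M)) ^ ((2 * J + 1) * (2 * J + 1)) * Z := by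
  have hz2 : ∀ i ≤ 2 * J, 2 ≤ zz y m i := by
    intro i hi
    obtain ⟨j, hj, h⟩ := zz_ge hm hy hi
    exact (hy j hj).trans h
  have hB : 1 ≤ M * (M * (J * M) + M) := Nat.mul_pos hM (by omega)
  have h1 := prod_le (κ := fun i => G (zz y m i)) hB (n := 2 * J + 1)
    (fun i hi => G_pos (hz2 i (by omega))) (by
      intro i hi j hj
      obtain ⟨W, w1, w2, w3⟩ := zz_form hym hm hmM hM (i := i) (by omega)
      obtain ⟨W', w1', w2', w3'⟩ := zz_form hym hm hmM hM (i := j) (by omega)
      have hyJ : y J ≠ 0 := by have := hy J le_rfl; omega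
      have h5 := gcd_small w1 w1' hyJ w2 w2' (fun h => zz_ne hym hm hy hj (by omega) h.symm)
        (R := M * (M * (J * M) + M)) (fun q =>
          ⟨Nat.mul_le_mul (aa_le hmM hM (by omega)) (w3 q), Nat.mul_le_mul (aa_le hmM hM (by omega)) (w3' q)⟩)
      exact h5)
  refine h1.trans (Nat.mul_le_mul_left _ (Nat.le_of_dvd hZ0 (lc_dvd fun i hi => hZ i (by omega))))

include hym hm hmM hy in
/-- The contents divide `A φ(a)`. -/
theorem contents_dvd (hM : 1 ≤ M)
    (hX : ¬ ∃ w : ℤ, w ≠ 0 ∧ ∃ e : Fin J → ℤ, ∀ q, w * ((y 0).factorization q : ℤ) =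
      ∑ i, e i * ((m (i + 1)).factorization q : ℤ)) :
    ∃ Z : ℕ, 0 < Z ∧ (Z : ℤ) ≤ (M : ℤ) ^ J * (Cf J M * (Nat.log 2 (y 0) : ℕ)) ∧
      ∀ i ≤ 2 * J, G (zz y m i) ∣ Z := by
  obtain ⟨φ, f1, f2, f3⟩ := exists_fun J M (fun i q => ((m (i + 1)).factorization q : ℤ))
    (fun q => ((y 0).factorization q : ℤ)) (by exact_mod_cast hM) (by
      intro i q
      have h1 : (m (i + 1)).factorization q ≤ M := (val_le_log _ q (by have := hm i i.2; omega)).trans
        ((Nat.log_le_self 2 _).trans (hmM i i.2))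
      have h2 : ((m (i + 1)).factorization q : ℤ) ≤ M := by exact_mod_cast h1
      rw [abs_of_nonneg (Int.natCast_nonneg _)]
      exact h2) hX
  have hvec : ∀ j ≤ J, φ (fun q => ((y j).factorization q : ℤ)) = φ (fun q => ((y 0).factorization q : ℤ)) := by
    intro j
    induction j with
    | zero => intro _; rfl
    | succ j ih =>
      intro hj
      rw [← ih (by omega)]
      have h1 : (fun q => ((y j).factorization q : ℤ)) = (fun q => ((y (j + 1)).factorization q : ℤ)) +
          (fun q => ((m (j + 1)).factorization q : ℤ)) := by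
        funext q
        rw [hym j (by omega), Nat.factorization_mul (by have := hy (j + 1) hj; omega)
          (by have := hm j (by omega); omega)]
        simp
      rw [h1, map_add, show φ (fun q => ((m (j + 1)).factorization q : ℤ)) = 0 from f1 ⟨j, by omega⟩, add_zero]
  obtain ⟨P, hP⟩ : ∃ P : ℕ, P = ∏ j ∈ Finset.range J, m (j + 1) := ⟨_, rfl⟩
  have hPpos : 0 < P := by
    rw [hP]
    apply Finset.prod_pos
    intro j hj
    have := hm j (Finset.mem_range.mp hj)
    omega
  have hPle : P ≤ M ^ J := by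
    rw [hP]
    calc ∏ j ∈ Finset.range J, m (j + 1) ≤ ∏ _j ∈ Finset.range J, M :=
          Finset.prod_le_prod' fun j hj => hmM j (Finset.mem_range.mp hj)
      _ = M ^ J := by rw [Finset.prod_const, Finset.card_range]
  refine ⟨P * (φ (fun q => ((y 0).factorization q : ℤ))).natAbs, Nat.mul_pos hPpos (Int.natAbs_pos.mpr f2), ?_, ?_⟩
  · push_cast
    have h1 : |φ (fun q => ((y 0).factorization q : ℤ))| ≤ Cf J M * (Nat.log 2 (y 0) : ℕ) := by
      apply f3
      intro q
      rw [abs_of_nonneg (Int.natCast_nonneg _)]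
      exact_mod_cast val_le_log (y 0) q (by have := hy 0 (by omega); omega)
    exact mul_le_mul (by exact_mod_cast hPle) h1 (abs_nonneg _) (by positivity)
  · intro i hi
    have h1 : aa m i ∣ P := by
      unfold aa
      split_ifs with h
      · exact one_dvd _
      · rw [hP]
        exact Finset.dvd_prod_of_mem (fun j => m (j + 1)) (Finset.mem_range.mpr (by omega))
    have h2 : (G (zz y m i) : ℤ) ∣ φ (fun q => ((zz y m i).factorization q : ℤ)) :=
      dvd_fun φ fun q => by exact_mod_cast G_dvd (zz y m i) q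
    have h3 : φ (fun q => ((zz y m i).factorization q : ℤ)) =
        (aa m i : ℤ) * φ (fun q => ((y 0).factorization q : ℤ)) := by
      unfold zz aa
      split_ifs with h
      · rw [hvec (i / 2) (by omega)]
        simp
      · have h5 := hm (i / 2) (by omega)
        have h6 := hy (i / 2 + 1) (by omega)
        have h7 : (fun q => ((y (i / 2 + 1) ^ m (i / 2 + 1) * m (i / 2 + 1)).factorization q : ℤ)) =
            (m (i / 2 + 1) : ℤ) • (fun q => ((y (i / 2 + 1)).factorization q : ℤ)) +
            (fun q => ((m (i / 2 + 1)).factorization q : ℤ)) := by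
          funext q
          rw [Nat.factorization_mul (pow_ne_zero _ (by omega)) (by omega), Nat.factorization_pow]
          simp
        rw [h7, map_add, map_smul, hvec (i / 2 + 1) (by omega),
          show φ (fun q => ((m (i / 2 + 1)).factorization q : ℤ)) = 0 from f1 ⟨i / 2, by omega⟩, add_zero,
          smul_eq_mul]
    rw [h3] at h2
    have h4 : (G (zz y m i) : ℤ) ∣ ((P * (φ (fun q => ((y 0).factorization q : ℤ))).natAbs : ℕ) : ℤ) := by
      obtain ⟨c, hc⟩ := h1
      rw [Nat.cast_mul, Int.natCast_natAbs, hc, Nat.cast_mul]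
      have h5 : ((aa m i : ℤ) * c) * |φ (fun q => ((y 0).factorization q : ℤ))| =
          |(aa m i : ℤ) * φ (fun q => ((y 0).factorization q : ℤ))| * c := by
        rw [abs_mul, abs_of_nonneg (Int.natCast_nonneg (aa m i))]
        ring
      rw [h5]
      exact ((dvd_abs _ _).mpr h2).mul_right _
    exact_mod_cast h4

end chain

end PRF2
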