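import Mathlib
import Pool.Agent.PRF2.Dep

/-!
# Large contents force a multiplicative dependence: the colouring
-/

namespace PRF2

open PRF.TGap

theorem dependence (k J : ℕ) (hJpos : 1 ≤ J) (ε : ℝ) (hε : 0 < ε) : ∃ (r : ℕ) (c : ℕ → Fin r), ∀ a b : ℕ,
    1 < a → 1 < b → c a = c b → c a = c (a * b) → c a = c (a ^ b) → c a = c (a ^ b * b) →
    ∀ n : ℕ, n = a ∨ n = b ∨ n = a * b ∨ n = a ^ b ∨ n = a ^ b * b →
      Real.log n ^ (1 / (2 * J + 1) + ε) ≤ (G n : ℝ) → Dep k J n := by
  classical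
  obtain ⟨N, hN⟩ := exists_nat_ge (2 / ε)
  have hN0 : (0:ℝ) < N := lt_of_lt_of_le (by positivity) hN
  have hNpos : 0 < N := by exact_mod_cast hN0
  obtain ⟨S, hS⟩ : ∃ S : ℕ, S = (2 * J + 1) ^ 2 * (J + 3) + J + 2 ^ J + 1 := ⟨_, rfl⟩
  obtain ⟨K, hK⟩ : ∃ K : ℕ, K = 2 * (N * S + N * J + J + 2) + k := ⟨_, rfl⟩
  obtain ⟨r₁, c₁, hc₁⟩ := tower_all (K + 2)
  let Y := Fin r₁ × Fin (2 * N + 1)
  let f₀ : ℕ → Y := fun n => (c₁ n,
    ⟨min ⌊(N:ℝ) * rel n⌋₊ (2 * N), by have := min_le_right ⌊(N:ℝ) * rel n⌋₊ (2 * N); omega⟩)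
  let c₀ : ℕ → Fin (Fintype.card Y) := fun n => Fintype.equivFin Y (f₀ n)
  obtain ⟨r', c', hc'⟩ := chain (Fintype.card Y) c₀ J
  let X := Fin r' × Bool
  let f : ℕ → X := fun n => (c' n, decide (Real.log n ^ (1 / (2 * J + 1) + ε) ≤ (G n : ℝ) → Dep k J n))
  refine ⟨Fintype.card X, fun n => Fintype.equivFin X (f n), ?_⟩
  intro a b ha hb h1 h2 h3 h4
  have g1 : f a = f b := (Fintype.equivFin X).injective h1
  have g2 : f a = f (a * b) := (Fintype.equivFin X).injective h2
  have g3 : f a = f (a ^ b) := (Fintype.equivFin X).injective h3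
  have g4 : f a = f (a ^ b * b) := (Fintype.equivFin X).injective h4
  have p0 : ∀ {x y : ℕ}, f x = f y → c' x = c' y := fun h => congrArg (fun z => z.1) h
  have p1 : ∀ {x y : ℕ}, f x = f y → ((Real.log x ^ (1 / (2 * J + 1) + ε) ≤ (G x : ℝ) → Dep k J x) ↔
      (Real.log y ^ (1 / (2 * J + 1) + ε) ≤ (G y : ℝ) → Dep k J y)) := by
    intro x y h
    have h5 : decide (Real.log x ^ (1 / (2 * J + 1) + ε) ≤ (G x : ℝ) → Dep k J x) =
        decide (Real.log y ^ (1 / (2 * J + 1) + ε) ≤ (G y : ℝ) → Dep k J y) := congrArg (fun z => z.2) h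
    exact decide_eq_decide.mp h5
  obtain ⟨-, y, m, hy0, hym⟩ := hc' a b ⟨ha, hb, p0 g1, p0 g2, p0 g3, p0 g4⟩
  have q1 : ∀ {u v : ℕ}, c₀ u = c₀ v → c₁ u = c₁ v := fun h =>
    congrArg (fun z => z.1) ((Fintype.equivFin Y).injective h)
  have q2 : ∀ {u v : ℕ}, c₀ u = c₀ v → min ⌊(N:ℝ) * rel u⌋₊ (2 * N) = min ⌊(N:ℝ) * rel v⌋₊ (2 * N) := fun h =>
    congrArg (fun z => z.2.val) ((Fintype.equivFin Y).injective h)
  -- elementary properties of the chain
  have hstep : ∀ j < J, tower (K + 2) (m (j + 1)) < y (j + 1) := by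
    intro j hj
    obtain ⟨-, u1, u2, u3, u4, u5, u6⟩ := hym j hj
    exact hc₁ _ _ u1 u2 (q1 u3) (q1 u4) (q1 u5) (q1 u6)
  have hprod : ∀ j < J, y j = y (j + 1) * m (j + 1) := fun j hj => (hym j hj).1
  have hm2 : ∀ j < J, 2 ≤ m (j + 1) := fun j hj => (hym j hj).2.2.1
  have hmy : ∀ j < J, m (j + 1) < y (j + 1) := fun j hj => lt_of_le_of_lt (le_tower_self _ _) (hstep j hj)
  have hcol : ∀ j ≤ J, c₀ (y j) = c₀ a := by
    intro j
    induction j with
    | zero => intro _; rw [hy0]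
    | succ j ih =>
      intro hj
      obtain ⟨u0, u1, u2, u3, u4, u5, u6⟩ := hym j (by omega)
      rw [← u0] at u4
      exact u4.trans (ih (by omega))
  have hcolz : ∀ i ≤ 2 * J, c₀ (zz y m i) = c₀ a := by
    intro i hi
    unfold zz
    split_ifs with h
    · exact hcol _ (by omega)
    · obtain ⟨u0, u1, u2, u3, u4, u5, u6⟩ := hym (i / 2) (by omega)
      exact u6.symm.trans (hcol _ (by omega))
  have hle : ∀ j < J, y (j + 1) ≤ y j := by
    intro j hj
    rw [(hym j hj).1]
    exact Nat.le_mul_of_pos_right _ (by have := hm2 j hj; omega)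
  have hyle : ∀ j ≤ J, y j ≤ a := by
    intro j
    induction j with
    | zero => intro _; rw [hy0]
    | succ j ih => intro hj; exact (hle j (by omega)).trans (ih (by omega))
  have hy2 : ∀ j ≤ J, 2 ≤ y j := by
    intro j hj
    rcases Nat.eq_zero_or_pos j with h0 | h0
    · rw [h0, hy0]; exact ha
    · obtain ⟨i, rfl⟩ : ∃ i, j = i + 1 := ⟨j - 1, by omega⟩
      have := hmy i (by omega)
      have := hm2 i (by omega)
      omega
  -- the largest factor
  obtain ⟨j₀, hj₀, hmax⟩ := Finset.exists_max_image (Finset.range J) (fun j => m (j + 1))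
    ⟨0, Finset.mem_range.mpr hJpos⟩
  rw [Finset.mem_range] at hj₀
  set M := m (j₀ + 1) with hM
  have hM2 : 2 ≤ M := hm2 j₀ hj₀
  have hmM : ∀ j < J, m (j + 1) ≤ M := fun j hj => hmax j (Finset.mem_range.mpr hj)
  have hMa : tower (K + 2) M < a := lt_of_lt_of_le (hstep j₀ hj₀) (hyle _ (by omega))
  -- sizes
  set L := Real.log (Real.log a) with hLdef
  have hMr : (2:ℝ) ≤ M := by exact_mod_cast hM2
  have hJr : (1:ℝ) ≤ J := by exact_mod_cast hJpos
  have hSr : (S:ℝ) = (2 * (J:ℝ) + 1) ^ 2 * (J + 3) + J + 2 ^ J + 1 := by rw [hS]; push_cast; ring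
  have hS0 : (0:ℝ) ≤ S := Nat.cast_nonneg S
  have hsize : (K:ℝ) * M / 2 - 1 ≤ L := by
    have h5 : 2 ^ 2 ^ tower K M < a := by
      have : tower (K + 2) M = 2 ^ 2 ^ tower K M := rfl
      rw [← this]
      exact hMa
    have h6 := loglog h5
    have h7 : K * M ≤ tower K M :=
      (Nat.mul_le_mul_right M (Nat.lt_two_pow_self).le).trans (le_tower_mul K (by omega))
    have h8 : (K:ℝ) * M ≤ tower K M := by exact_mod_cast h7
    linarith
  have hk0 : (0:ℝ) ≤ k := Nat.cast_nonneg k
  have hNJ : (0:ℝ) ≤ (N:ℝ) * J := by positivity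
  have hbig : (N:ℝ) * (S * M + J) + J + 1 ≤ L := by
    have h5 : (K:ℝ) * M / 2 - 1 = (N:ℝ) * (S * M) + (N * J + J + 2 + k / 2) * M - 1 := by
      rw [hK]; push_cast; ring
    have h6 : (N:ℝ) * J + J + 2 ≤ (N * J + J + 2 + k / 2) * M := by nlinarith
    linarith
  have hNSM : 0 ≤ (N:ℝ) * (S * M + J) := by positivity
  have hL1 : 1 ≤ L := by linarith
  have hLJ : 1 ≤ L - J := by linarith
  -- log log of the members
  have hLL : ∀ j ≤ J, L - j ≤ Real.log (Real.log (y j)) := by
    intro j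
    induction j with
    | zero => intro _; rw [hy0]; simp [hLdef]
    | succ j ih =>
      intro hj
      have e1 := ih (by omega)
      have e2 : y j ≤ y (j + 1) * y (j + 1) := by
        rw [(hym j (by omega)).1]
        exact Nat.mul_le_mul_left _ (hmy j (by omega)).le
      have hyp : (0:ℝ) < y (j + 1) := by exact_mod_cast (show 0 < y (j + 1) by have := hy2 (j + 1) hj; omega)
      have e3 : Real.log (y j) ≤ 2 * Real.log (y (j + 1)) := by
        have e4 : (y j : ℝ) ≤ (y (j + 1) : ℝ) * y (j + 1) := by exact_mod_cast e2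
        have e5 := Real.log_le_log (by exact_mod_cast (show 0 < y j by have := hy2 j (by omega); omega)) e4
        rw [Real.log_mul hyp.ne' hyp.ne'] at e5
        linarith
      have e6 := Real.log_le_log (log_pos_of (hy2 j (by omega))) e3
      rw [Real.log_mul (by norm_num) (log_pos_of (hy2 (j + 1) hj)).ne'] at e6
      push_cast
      linarith [log_two_le_one]
  have hzz : ∀ i ≤ 2 * J, 2 ≤ zz y m i ∧ L - J ≤ Real.log (Real.log (zz y m i)) := by
    intro i hi
    obtain ⟨j, hj, h⟩ := zz_ge hm2 hy2 hi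
    refine ⟨(hy2 j hj).trans h, ?_⟩
    have h5 := ll_mono (hy2 j hj) h
    have h6 := hLL j hj
    have h7 : (j:ℝ) ≤ J := by exact_mod_cast hj
    linarith
  -- the statement for `a`
  have main : Real.log a ^ (1 / (2 * J + 1) + ε) ≤ (G a : ℝ) → Dep k J a := by
    intro hcon
    by_contra hdep
    have hX : ¬ ∃ w : ℤ, w ≠ 0 ∧ ∃ e : Fin J → ℤ, ∀ q, w * ((y 0).factorization q : ℤ) =
        ∑ i, e i * ((m (i + 1)).factorization q : ℤ) := by
      rintro ⟨w, hw, e, he⟩
      apply hdep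
      refine dep_of_vec (by omega) (fun i => m (i + 1)) (fun i => ⟨hm2 i i.2, ?_⟩) w hw e ?_
      · have h5 : tower k (m ((i : ℕ) + 1)) ≤ tower (K + 2) (m ((i : ℕ) + 1)) := by
          obtain ⟨d, hd⟩ : ∃ d, K + 2 = d + k := ⟨K + 2 - k, by omega⟩
          rw [hd, tower_add' d]
          exact le_tower_self _ _
        exact lt_of_le_of_lt h5 (lt_of_lt_of_le (hstep i i.2) (hyle _ (by omega)))
      · intro q
        rw [← hy0]
        exact he q
    obtain ⟨Z, z1, z2, z3⟩ := contents_dvd hprod hm2 hmM hy2 (by omega) hX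
    have z4 := prod_contents hprod hm2 hmM hy2 (by omega) z1 z3
    rw [hy0] at z2
    -- logarithms
    have hla : 0 < Real.log a := log_pos_of ha
    have hMp : (0:ℝ) < M := by linarith
    have hlM : Real.log M ≤ M := by
      have := Real.log_le_sub_one_of_pos hMp
      linarith
    have hl2M : Real.log (2 * M) ≤ M := by
      rw [Real.log_mul (by norm_num) hMp.ne']
      have := Real.log_le_sub_one_of_pos hMp
      linarith [log_two_le_one]
    have s1 : Real.log Z ≤ J * M + (2 ^ J * M + (1 + L)) := by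
      have e1 : (Z:ℝ) ≤ (M:ℝ) ^ J * ((2 * M) ^ 2 ^ J * (2 * Real.log a)) := by
        have e2 : (Z:ℤ) ≤ (M:ℤ) ^ J * ((2 * M) ^ 2 ^ J * (Nat.log 2 a : ℕ)) := by
          refine z2.trans ?_
          apply mul_le_mul_of_nonneg_left _ (by positivity)
          exact mul_le_mul_of_nonneg_right (Cf_le' (by omega)) (by positivity)
        have e3 : (Z:ℝ) ≤ (M:ℝ) ^ J * ((2 * M) ^ 2 ^ J * (Nat.log 2 a : ℕ)) := by exact_mod_cast e2
        refine e3.trans ?_
        apply mul_le_mul_of_nonneg_left _ (by positivity)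
        exact mul_le_mul_of_nonneg_left (natlog_le ha) (by positivity)
      have e4 := Real.log_le_log (by exact_mod_cast z1) e1
      rw [Real.log_mul (by positivity) (by positivity), Real.log_mul (by positivity) (by positivity),
        Real.log_pow, Real.log_pow, Real.log_mul (by norm_num) hla.ne'] at e4
      push_cast at e4
      have e5 : (J:ℝ) * Real.log M ≤ J * M := mul_le_mul_of_nonneg_left hlM (by positivity)
      have e6 : (2:ℝ) ^ J * Real.log (2 * M) ≤ 2 ^ J * M := mul_le_mul_of_nonneg_left hl2M (by positivity)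
      linarith [log_two_le_one]
    have s2 : Real.log ((M:ℝ) * (M * (J * M) + M)) ≤ (J + 3) * M := by
      have e1 : (M:ℝ) * (M * (J * M) + M) ≤ (J + 1) * M ^ 3 := by
        have : (M:ℝ) ^ 2 ≤ M ^ 3 := pow_le_pow_right₀ (by linarith) (by norm_num)
        nlinarith
      have e2 := Real.log_le_log (by positivity) e1
      have e4 : Real.log (((J:ℝ) + 1) * M ^ 3) = Real.log (J + 1) + 3 * Real.log M := by
        rw [Real.log_mul (by positivity) (by positivity), Real.log_pow]
        push_cast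
        ring
      rw [e4] at e2
      have e3 := Real.log_le_sub_one_of_pos (show (0:ℝ) < J + 1 by linarith)
      have e5 : (J:ℝ) ≤ J * M := by nlinarith
      linarith
    have t1 : ∑ i ∈ Finset.range (2 * J + 1), Real.log (G (zz y m i)) ≤
        (2 * (J:ℝ) + 1) ^ 2 * ((J + 3) * M) + (J * M + (2 ^ J * M + (1 + L))) := by
      have e2 : ((∏ i ∈ Finset.range (2 * J + 1), G (zz y m i) : ℕ) : ℝ) ≤
          ((M:ℝ) * (M * (J * M) + M)) ^ ((2 * J + 1) * (2 * J + 1)) * Z := by exact_mod_cast z4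
      have e3 : (0:ℝ) < ((∏ i ∈ Finset.range (2 * J + 1), G (zz y m i) : ℕ) : ℝ) := by
        have : 0 < ∏ i ∈ Finset.range (2 * J + 1), G (zz y m i) :=
          Finset.prod_pos fun i hi => G_pos (hzz i (by rw [Finset.mem_range] at hi; omega)).1
        exact_mod_cast this
      have e4 := Real.log_le_log e3 e2
      have hZr : (0:ℝ) < Z := by exact_mod_cast z1
      rw [Real.log_mul (by positivity) hZr.ne', Real.log_pow] at e4
      have e5 : Real.log ((∏ i ∈ Finset.range (2 * J + 1), G (zz y m i) : ℕ) : ℝ) =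
          ∑ i ∈ Finset.range (2 * J + 1), Real.log (G (zz y m i)) := by
        push_cast
        apply Real.log_prod
        intro i hi
        have := G_pos (hzz i (by rw [Finset.mem_range] at hi; omega)).1
        exact_mod_cast this.ne'
      rw [e5] at e4
      push_cast at e4
      have e6 : ((2:ℝ) * J + 1) * (2 * J + 1) * Real.log ((M:ℝ) * (M * (J * M) + M)) ≤
          (2 * (J:ℝ) + 1) ^ 2 * ((J + 3) * M) := by
        rw [← pow_two]
        exact mul_le_mul_of_nonneg_left s2 (by positivity)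
      linarith
    have t2 : (2 * (J:ℝ) + 1) * ((rel a - 1 / N) * (L - J)) ≤
        ∑ i ∈ Finset.range (2 * J + 1), Real.log (G (zz y m i)) := by
      have e1 : ∀ i ∈ Finset.range (2 * J + 1), (rel a - 1 / N) * (L - J) ≤ Real.log (G (zz y m i)) := by
        intro i hi
        rw [Finset.mem_range] at hi
        exact rel_low hNpos ha (hzz i (by omega)).1 hL1 hLJ (hzz i (by omega)).2 (q2 (hcolz i (by omega))).symm
      have e2 := Finset.sum_le_sum e1
      rw [Finset.sum_const, Finset.card_range, nsmul_eq_mul] at e2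
      push_cast at e2
      exact e2
    have t3 : 1 / (2 * J + 1) + ε ≤ rel a := by
      have e1 := Real.log_le_log (Real.rpow_pos_of_pos hla _) hcon
      rw [Real.log_rpow hla] at e1
      unfold rel
      rw [le_div_iff₀ (by linarith)]
      exact e1
    have t4 : (1:ℝ) / N ≤ ε / 2 := by
      rw [div_le_div_iff₀ hN0 (by norm_num)]
      rw [div_le_iff₀ hε] at hN
      linarith
    have t4' : 1 ≤ (N:ℝ) * (ε / 2) := by
      rw [div_le_iff₀ hε] at hN
      linarith
    have t5 : 1 + ε / 2 ≤ (2 * (J:ℝ) + 1) * (rel a - 1 / N) := by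
      have e1 : (2 * (J:ℝ) + 1) * (1 / (2 * J + 1) + ε / 2) ≤ (2 * (J:ℝ) + 1) * (rel a - 1 / N) :=
        mul_le_mul_of_nonneg_left (by linarith) (by linarith)
      have e2 : (2 * (J:ℝ) + 1) * (1 / (2 * J + 1) + ε / 2) = 1 + (2 * (J:ℝ) + 1) * (ε / 2) := by
        have : (2 * (J:ℝ) + 1) ≠ 0 := by linarith
        field_simp
      have e3 : ε / 2 ≤ (2 * (J:ℝ) + 1) * (ε / 2) := by nlinarith
      linarith
    have t6 : (1 + ε / 2) * (L - J) ≤ (2 * (J:ℝ) + 1) * ((rel a - 1 / N) * (L - J)) := by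
      rw [← mul_assoc]
      exact mul_le_mul_of_nonneg_right t5 (by linarith)
    have t7 : (ε / 2) * (L - J) ≤ S * M + J := by
      have e1 : (2 * (J:ℝ) + 1) ^ 2 * ((J + 3) * M) + (J * M + (2 ^ J * M + (1 + L))) ≤ S * M + L := by
        rw [hSr]
        nlinarith
      nlinarith
    have t8 : L - J ≤ (N:ℝ) * (S * M + J) := by
      have e1 : (N:ℝ) * ((ε / 2) * (L - J)) ≤ N * (S * M + J) := mul_le_mul_of_nonneg_left t7 hN0.le
      have e2 : L - J ≤ (N:ℝ) * (ε / 2) * (L - J) := by nlinarith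
      linarith
    linarith
  intro n hn
  have key := main
  rcases hn with rfl | rfl | rfl | rfl | rfl
  · exact key
  · exact (p1 g1).mp key
  · exact (p1 g2).mp key
  · exact (p1 g3).mp key
  · exact (p1 g4).mp key

end PRF2
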