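import Mathlib
import Pool.Agent.PRF2.Extreme

/-!
# Valuations of additive functions

For a completely additive function `F` with values in the natural numbers the values at `a, b, ab, a ^ b, a ^ b * b`
are `A, B, A + B, bA, bA + B`. In a monochromatic pattern `v_g (A) < v_g (B)`.
-/

namespace PRF2

/-- the completely additive function with values `w q` at the primes `q` -/
def Fw (w : ℕ → ℕ) (n : ℕ) : ℕ := n.factorization.sum fun q v => v * w q

theorem Fw_mul (w : ℕ → ℕ) {m n : ℕ} (hm : m ≠ 0) (hn : n ≠ 0) : Fw w (m * n) = Fw w m + Fw w n := by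
  unfold Fw
  rw [Nat.factorization_mul hm hn]
  exact Finsupp.sum_add_index' (fun _ => Nat.zero_mul _) (fun _ _ _ => Nat.add_mul _ _ _)

theorem Fw_pow (w : ℕ → ℕ) {m : ℕ} (hm : m ≠ 0) (n : ℕ) : Fw w (m ^ n) = n * Fw w m := by
  induction n with
  | zero => simp [Fw]
  | succ n ih =>
    rw [pow_succ, Fw_mul w (pow_ne_zero _ hm) hm, ih]
    ring

/-- exponent of `g` -/
def vg (g m : ℕ) : ℕ := m.factorization g

/-- the last two digits -/
def dg (g m : ℕ) : ℕ := (m / g ^ vg g m) % g ^ 2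

theorem vg_eq {g : ℕ} (hg : g.Prime) {t m : ℕ} (hm : ¬ g ∣ m) : vg g (g ^ t * m) = t := by
  have hm0 : m ≠ 0 := by rintro rfl; exact hm (dvd_zero g)
  unfold vg
  rw [Nat.factorization_mul (pow_ne_zero _ hg.ne_zero) hm0, hg.factorization_pow]
  simp [Nat.factorization_eq_zero_of_not_dvd hm]

theorem dg_eq {g : ℕ} (hg : g.Prime) {t m : ℕ} (hm : ¬ g ∣ m) : dg g (g ^ t * m) = m % g ^ 2 := by
  unfold dg
  rw [vg_eq hg hm, Nat.mul_div_cancel_left _ (pow_pos hg.pos _)]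

theorem vg_spec {g : ℕ} (hg : g.Prime) {m : ℕ} (hm : m ≠ 0) : ∃ m', m = g ^ vg g m * m' ∧ ¬ g ∣ m' :=
  ⟨m / g ^ vg g m, (Nat.ordProj_mul_ordCompl_eq_self m g).symm, Nat.not_dvd_ordCompl hg hm⟩

/-- the sum of two numbers with equal last digits -/
theorem two_digits {g P Q : ℕ} (hg : g.Prime) (hP : ¬ g ∣ P) (hPQ : P % g ^ 2 = Q % g ^ 2) :
    ¬ g ∣ P + Q ∨ (g = 2 ∧ ∃ m, P + Q = 2 * m ∧ ¬ 2 ∣ m) := by
  by_cases h : g ∣ P + Q
  · right
    have h1 : P ≡ Q [MOD g] := (show P ≡ Q [MOD g ^ 2] from hPQ).of_dvd (dvd_pow_self g (by norm_num))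
    have h2 : g ∣ 2 * P := by
      have h3 : P + P ≡ P + Q [MOD g] := Nat.ModEq.add_left P h1
      rw [two_mul]
      exact (Nat.modEq_zero_iff_dvd.mp (h3.trans (Nat.modEq_zero_iff_dvd.mpr h)))
    have h4 : g = 2 := by
      rcases (hg.dvd_mul).mp h2 with h5 | h5
      · exact (Nat.prime_dvd_prime_iff_eq hg Nat.prime_two).mp h5
      · exact absurd h5 hP
    refine ⟨h4, (P + Q) / 2, ?_, ?_⟩
    · subst h4; omega
    · subst h4
      norm_num at hPQ
      omega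
  · exact Or.inl h

theorem additive_Fw (w : ℕ → ℕ) (y : ℝ) (b : ℕ) :
    Pool.Agent.Results.MP_1b773e_co.CommonData.additive (fun q => (w q : ℝ) * y) b = (Fw w b : ℝ) * y := by
  unfold Pool.Agent.Results.MP_1b773e_co.CommonData.additive Fw
  rw [Finsupp.sum, Finsupp.sum]
  push_cast
  rw [Finset.sum_mul]
  apply Finset.sum_congr rfl
  intro q _
  ring

/-- a multiplier which moves the digit to the middle -/
theorem exists_mult {g : ℕ} (hg : g.Prime) (d : ℕ) : ∃ c : ℕ, ¬ g ∣ d → c * d % g = g / 2 := by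
  by_cases h : g ∣ d
  · exact ⟨0, fun h1 => absurd h h1⟩
  · have hco : Nat.Coprime d g := (Nat.Coprime.symm ((Nat.Prime.coprime_iff_not_dvd hg).mpr h))
    obtain ⟨y, -, hy⟩ := Nat.exists_mul_mod_eq_one_of_coprime hco hg.one_lt
    refine ⟨g / 2 * y, fun _ => ?_⟩
    have h1 : g / 2 * y * d ≡ g / 2 * 1 [MOD g] := by
      rw [mul_assoc]
      apply Nat.ModEq.mul_left
      rw [mul_comm y d]
      change d * y % g = 1 % g
      rw [hy, Nat.mod_eq_of_lt hg.one_lt]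
    rw [mul_one] at h1
    have h2 : g / 2 < g := Nat.div_lt_self hg.pos (by norm_num)
    rw [h1, Nat.mod_eq_of_lt h2]

theorem middle {g : ℕ} (hg : g.Prime) {c d : ℕ} (h : c * d % g = g / 2) (m : ℤ) :
    (1:ℝ) / 4 ≤ |((c * d : ℕ) : ℝ) / g - m| := by
  have hg0 : (0:ℝ) < g := by exact_mod_cast hg.pos
  obtain ⟨u, hu⟩ : ∃ u, c * d = g * u + g / 2 := ⟨c * d / g, by rw [← h]; exact (Nat.div_add_mod _ _).symm⟩
  have h1 : ((c * d : ℕ) : ℝ) / g - m = (((u:ℤ) - m : ℤ) : ℝ) + ((g / 2 : ℕ) : ℝ) / g := by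
    rw [hu]
    push_cast
    field_simp
    ring
  have h2 : (1:ℝ) / 4 ≤ ((g / 2 : ℕ) : ℝ) / g := by
    rw [le_div_iff₀ hg0]
    have h3 : g ≤ 4 * (g / 2) := by
      have := hg.two_le
      omega
    have h4 : (g:ℝ) ≤ 4 * ((g / 2 : ℕ) : ℝ) := by exact_mod_cast h3
    linarith
  have h3 : ((g / 2 : ℕ) : ℝ) / g ≤ 1 / 2 := by
    rw [div_le_iff₀ hg0]
    have h4 : 2 * (g / 2) ≤ g := Nat.mul_div_le g 2
    have h5 : 2 * ((g / 2 : ℕ) : ℝ) ≤ g := by exact_mod_cast h4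
    linarith
  rw [h1]
  rcases le_or_gt 0 ((u:ℤ) - m) with h4 | h4
  · have h5 : (0:ℝ) ≤ (((u:ℤ) - m : ℤ) : ℝ) := by exact_mod_cast h4
    rw [abs_of_nonneg (by linarith)]
    linarith
  · have h5 : (((u:ℤ) - m : ℤ) : ℝ) ≤ -1 := by exact_mod_cast (show (u:ℤ) - m ≤ -1 by omega)
    rw [abs_of_neg (by linarith)]
    linarith

theorem succ_mod_ne {t k : ℕ} (h : t % (k + 2) = (t + 1) % (k + 2)) : False := by
  have h1 : t + 0 ≡ t + 1 [MOD k + 2] := h
  have h2 : 0 ≡ 1 [MOD k + 2] := Nat.ModEq.add_left_cancel' _ h1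
  have h3 := (Nat.modEq_zero_iff_dvd.mp h2.symm)
  have := Nat.le_of_dvd (by norm_num) h3
  omega

/-- Main statement on valuations. -/
theorem valuations (g k : ℕ) (hg : g.Prime) : ∃ r : ℕ, ∀ (E : Type) (e : ℕ → E) (w : E → ℕ → ℕ),
    ∃ c : ℕ → Fin r, ∀ a b : ℕ, 1 < a → 1 < b →
      c a = c b → c a = c (a * b) → c a = c (a ^ b) → c a = c (a ^ b * b) →
      ∀ x : E, e a = x → e b = x → e (a * b) = x → e (a ^ b) = x → e (a ^ b * b) = x →
      Fw (w x) b ≠ 0 → Fw (w x) a ≠ 0 ∧ vg g (Fw (w x) a) < vg g (Fw (w x) b) ∧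
        vg g (Fw (w x) (a ^ b * b)) ≤ vg g (Fw (w x) b) ∧
        k ≤ vg g (Fw (w x) a) ∧ vg g (Fw (w x) a) + k ≤ vg g (Fw (w x) b) := by
  classical
  obtain ⟨r₀, hr₀⟩ := Pool.Agent.Results.MP_1b773e_co.CommonData.result (1 / 4) (by norm_num)
  choose mu hmu using fun d : ℕ => exists_mult hg d
  have hg2 : 0 < g ^ 2 := pow_pos hg.pos 2
  refine ⟨Fintype.card (Fin r₀ × (Fin (k + 2) × Fin (k + 1)) × Fin (g ^ 2)), ?_⟩
  intro E e w
  let e' : ℕ → E × ℕ × ℕ := fun n => (e n, vg g (Fw (w (e n)) n), dg g (Fw (w (e n)) n) % g)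
  let h' : E × ℕ × ℕ → ℕ → ℝ := fun z q => (w z.1 q : ℝ) * ((mu z.2.2 : ℝ) / (g:ℝ) ^ (z.2.1 + 1))
  obtain ⟨c₀, hc₀⟩ := hr₀ (E × ℕ × ℕ) e' h'
  let X := Fin r₀ × (Fin (k + 2) × Fin (k + 1)) × Fin (g ^ 2)
  let f : ℕ → X := fun n => (c₀ n, (⟨vg g (Fw (w (e n)) n) % (k + 2), Nat.mod_lt _ (by omega)⟩,
    ⟨min (vg g (Fw (w (e n)) n)) k, by have := min_le_right (vg g (Fw (w (e n)) n)) k; omega⟩),
    ⟨dg g (Fw (w (e n)) n), Nat.mod_lt _ hg2⟩)
  refine ⟨fun n => Fintype.equivFin X (f n), ?_⟩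
  intro a b ha hb h1 h2 h3 h4 x ea eb eab ew ez hB
  have g1 : f a = f b := (Fintype.equivFin X).injective h1
  have g2 : f a = f (a * b) := (Fintype.equivFin X).injective h2
  have g3 : f a = f (a ^ b) := (Fintype.equivFin X).injective h3
  have g4 : f a = f (a ^ b * b) := (Fintype.equivFin X).injective h4
  have p0 : ∀ {y z : ℕ}, f y = f z → c₀ y = c₀ z := fun h => congrArg (fun z => z.1) h
  have p1 : ∀ {y z : ℕ}, f y = f z → vg g (Fw (w (e y)) y) % (k + 2) = vg g (Fw (w (e z)) z) % (k + 2) :=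
    fun h => congrArg (fun z => z.2.1.1.val) h
  have p3 : ∀ {y z : ℕ}, f y = f z → min (vg g (Fw (w (e y)) y)) k = min (vg g (Fw (w (e z)) z)) k :=
    fun h => congrArg (fun z => z.2.1.2.val) h
  have p2 : ∀ {y z : ℕ}, f y = f z → dg g (Fw (w (e y)) y) = dg g (Fw (w (e z)) z) :=
    fun h => congrArg (fun z => z.2.2.val) h
  have Fab : Fw (w x) (a * b) = Fw (w x) a + Fw (w x) b := Fw_mul _ (by omega) (by omega)
  have Fp : Fw (w x) (a ^ b) = b * Fw (w x) a := Fw_pow _ (by omega) _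
  have Fz : Fw (w x) (a ^ b * b) = b * Fw (w x) a + Fw (w x) b := by
    rw [Fw_mul _ (pow_ne_zero _ (by omega)) (by omega), Fp]
  have hK := hc₀ a b ha hb (p0 g1) (p0 g2) (p0 g3) (p0 g4)
  have q1 := p1 g1
  have q1' := p2 g1
  have q5 := p3 g1
  have q2 := p1 g2
  have q2' := p2 g2
  have q3 := p1 g3
  have q3' := p2 g3
  have q4 := p1 g4
  rw [ea, eb] at q1 q1' q5
  rw [ea, eab, Fab] at q2 q2'
  rw [ea, ew, Fp] at q3 q3'
  rw [ea, ez, Fz] at q4
  set A := Fw (w x) a with hA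
  set B := Fw (w x) b with hBd
  obtain ⟨B', hB', hgB⟩ := vg_spec hg hB
  set t := vg g B with ht
  -- step 1
  have s1 : ¬ g ^ (t + 1) ∣ A := by
    rintro ⟨A', hA'⟩
    have e1 : A + B = g ^ t * (B' + g * A') := by rw [hA', hB', pow_succ]; ring
    have e2 : b * A + B = g ^ t * (B' + g * (b * A')) := by rw [hA', hB', pow_succ]; ring
    have n1 : ∀ C, ¬ g ∣ B' + g * C := fun C h => hgB ((Nat.dvd_add_left (Dvd.intro C rfl)).mp h)
    have m1 : ∀ C, (B' + g * C) % g ^ 2 % g = B' % g := by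
      intro C
      rw [Nat.mod_mod_of_dvd _ (dvd_pow_self g (by norm_num)), Nat.add_mul_mod_self_left]
    have d1 : e' (a * b) = (x, t, B' % g) := by
      change (e (a * b), vg g (Fw (w (e (a * b))) (a * b)), dg g (Fw (w (e (a * b))) (a * b)) % g) = _
      rw [eab, Fab, e1, vg_eq hg (n1 _), dg_eq hg (n1 _), m1]
    have d2 : e' (a ^ b * b) = (x, t, B' % g) := by
      change (e (a ^ b * b), vg g (Fw (w (e (a ^ b * b))) (a ^ b * b)),
        dg g (Fw (w (e (a ^ b * b))) (a ^ b * b)) % g) = _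
      rw [ez, Fz, e2, vg_eq hg (n1 _), dg_eq hg (n1 _), m1]
    obtain ⟨m, hm⟩ := hK (d1.trans d2.symm)
    rw [d1] at hm
    have e3 : Pool.Agent.Results.MP_1b773e_co.CommonData.additive (h' (x, t, B' % g)) b =
        ((mu (B' % g) * B' : ℕ) : ℝ) / g := by
      change Pool.Agent.Results.MP_1b773e_co.CommonData.additive
        (fun q => (w x q : ℝ) * ((mu (B' % g) : ℝ) / (g:ℝ) ^ (t + 1))) b = _
      rw [additive_Fw, ← hBd, hB']
      have hg0 : (g:ℝ) ≠ 0 := by exact_mod_cast hg.ne_zero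
      push_cast
      rw [pow_succ]
      field_simp
    rw [e3] at hm
    have e4 : mu (B' % g) * B' % g = g / 2 := by
      have h5 : ¬ g ∣ B' % g := by
        intro h6
        exact hgB ((Nat.dvd_mod_iff (dvd_refl g)).mp h6)
      have h6 := hmu (B' % g) h5
      rw [← h6]
      exact ((Nat.mod_modEq B' g).mul_left (mu (B' % g))).symm
    have := middle hg e4 m
    linarith
  have hA0 : A ≠ 0 := by
    rintro h0
    rw [h0] at s1
    exact s1 (dvd_zero _)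
  obtain ⟨A', hA', hgA⟩ := vg_spec hg hA0
  set t₁ := vg g A with ht₁
  have s2 : t₁ ≤ t := by
    by_contra hcon
    push Not at hcon
    apply s1
    rw [hA']
    exact (pow_dvd_pow g hcon).mul_right _
  -- step 2
  have s3 : t₁ ≠ t := by
    intro heq
    rw [heq] at hA'
    have k1 : A' % g ^ 2 = B' % g ^ 2 := by
      rw [hA', hB', dg_eq hg hgA, dg_eq hg hgB] at q1'
      exact q1'
    have k2 : A + B = g ^ t * (A' + B') := by rw [hA', hB']; ring
    rcases two_digits hg hgA k1 with h5 | ⟨h5, m, h6, h7⟩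
    · rw [k2, dg_eq hg h5, hA', dg_eq hg hgA] at q2'
      have h6 : A' + 0 ≡ A' + B' [MOD g ^ 2] := q2'
      have h7 : 0 ≡ B' [MOD g ^ 2] := Nat.ModEq.add_left_cancel' _ h6
      exact hgB ((dvd_pow_self g (by norm_num)).trans (Nat.modEq_zero_iff_dvd.mp h7.symm))
    · have k3 : A + B = g ^ (t + 1) * m := by rw [k2, h6, h5, pow_succ]; ring
      have k4 : ¬ g ∣ m := by rw [h5]; exact h7
      rw [k3, vg_eq hg k4, heq] at q2
      exact succ_mod_ne q2
  have s4 : t₁ < t := lt_of_le_of_ne s2 s3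
  refine ⟨hA0, s4, ?_, by omega, ?_⟩
  rotate_left
  · have h5 : t₁ ≡ t [MOD k + 2] := q1
    have h6 : k + 2 ∣ t - t₁ := (Nat.modEq_iff_dvd' s4.le).mp h5
    have h7 := Nat.le_of_dvd (by omega) h6
    omega
  -- step 3
  rw [Fz]
  obtain ⟨b', hb', hgb⟩ := vg_spec hg (show b ≠ 0 by omega)
  set s := vg g b with hs
  have hgbA : ¬ g ∣ b' * A' := by
    intro h
    rcases (hg.dvd_mul).mp h with h5 | h5
    · exact hgb h5
    · exact hgA h5
  have k0 : b * A = g ^ (s + t₁) * (b' * A') := by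
    conv_lhs => rw [hb', hA']
    rw [pow_add]; ring
  rcases lt_trichotomy (s + t₁) t with h5 | h5 | h5
  · obtain ⟨u, hu⟩ := Nat.exists_eq_add_of_lt h5
    have k1 : b * A + B = g ^ (s + t₁) * (b' * A' + g * (g ^ u * B')) := by
      rw [k0]
      conv_lhs => rw [hB', hu]
      rw [pow_add, pow_add]
      ring
    rw [k1, vg_eq hg (fun h => hgbA ((Nat.dvd_add_left (Dvd.intro _ rfl)).mp h))]
    exact h5.le
  · have k1 : b * A + B = g ^ t * (b' * A' + B') := by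
      rw [k0, h5]
      conv_lhs => rw [hB']
      ring
    have k2 : b' * A' % g ^ 2 = B' % g ^ 2 := by
      have h6 : dg g (b * A) = dg g B := q3'.symm.trans q1'
      rw [k0, dg_eq hg hgbA] at h6
      rw [hB', dg_eq hg hgB] at h6
      exact h6
    rcases two_digits hg hgbA k2 with h6 | ⟨h6, m, h7, h8⟩
    · rw [k1, vg_eq hg h6]
    · have k3 : b * A + B = g ^ (t + 1) * m := by rw [k1, h7, h6, pow_succ]; ring
      have k4 : ¬ g ∣ m := by rw [h6]; exact h8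
      rw [k3, vg_eq hg k4, q1] at q4
      exact absurd q4 (fun h => succ_mod_ne h)
  · obtain ⟨u, hu⟩ := Nat.exists_eq_add_of_lt h5
    have k1 : b * A + B = g ^ t * (B' + g * (g ^ u * (b' * A'))) := by
      rw [k0, hu]
      conv_lhs => rw [hB']
      rw [pow_add, pow_add]
      ring
    rw [k1, vg_eq hg (fun h => hgB ((Nat.dvd_add_left (Dvd.intro _ rfl)).mp h))]

end PRF2
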