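import Mathlib
import Pool.Agent.PRF2.Val

/-!
# The exponent of the least (largest) prime factor
-/

namespace PRF2

theorem Fw_single (p n : ℕ) : Fw (fun q => if q = p then 1 else 0) n = n.factorization p := by
  unfold Fw
  rw [Finsupp.sum, Nat.support_factorization]
  by_cases hp : p ∈ n.primeFactors
  · rw [Finset.sum_eq_single p]
    · simp
    · intro q _ hq
      simp [hq]
    · intro h
      exact absurd hp h
  · have h : n.factorization p = 0 := by
      rw [← Nat.support_factorization, Finsupp.notMem_support_iff] at hp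
      exact hp
    rw [h]
    apply Finset.sum_eq_zero
    intro q hq
    have : q ≠ p := by rintro rfl; exact hp hq
    simp [this]

section

variable (R : ℕ → ℕ → Prop) [DecidableRel R]
variable (hirr : ∀ x, ¬ R x x) (htr : ∀ x y z, R x y → R y z → R x z) (htot : ∀ x y, x ≠ y → R x y ∨ R y x)

include hirr htr htot in
theorem strict_order (g k : ℕ) (hg : g.Prime) : ∃ (r : ℕ) (c : ℕ → Fin r), ∀ a b : ℕ, 1 < a → 1 < b →
    c a = c b → c a = c (a * b) → c a = c (a ^ b) → c a = c (a ^ b * b) →
    ∀ p ∈ (a * b).primeFactors, ((a * b).primeFactors.filter fun q => R q p).card = 0 →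
      p ∣ b → a.factorization p ≠ 0 →
      g ^ k ∣ a.factorization p ∧
      (a.factorization p).factorization g + k < (b.factorization p).factorization g := by
  obtain ⟨r, hr⟩ := valuations g (k + 1) hg
  obtain ⟨c, hc⟩ := hr ℕ (fun n => sel R n.primeFactors 0) (fun x q => if q = x then 1 else 0)
  refine ⟨r, c, ?_⟩
  intro a b ha hb h1 h2 h3 h4 p hp hcard hpb hpa
  have hS : (a * b).primeFactors = a.primeFactors ∪ b.primeFactors :=
    Nat.primeFactors_mul (by omega) (by omega)
  have hpp : p.Prime := Nat.prime_of_mem_primeFactors hp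
  have hpa' : p ∈ a.primeFactors := by
    rw [← Nat.support_factorization, Finsupp.mem_support_iff]
    exact hpa
  have hpb' : p ∈ b.primeFactors := Nat.mem_primeFactors.mpr ⟨hpp, hpb, by omega⟩
  have key : ∀ n : ℕ, n.primeFactors ⊆ (a * b).primeFactors → p ∈ n.primeFactors →
      sel R n.primeFactors 0 = p := by
    intro n hn hpn
    apply sel_eq hirr htr htot hpn
    unfold cnt
    apply Nat.eq_zero_of_le_zero
    rw [← hcard]
    exact Finset.card_le_card (Finset.filter_subset_filter _ hn)
  have e1 : sel R a.primeFactors 0 = p := key a (by rw [hS]; exact Finset.subset_union_left) hpa'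
  have e2 : sel R b.primeFactors 0 = p := key b (by rw [hS]; exact Finset.subset_union_right) hpb'
  have e3 : sel R (a * b).primeFactors 0 = p := key (a * b) (Finset.Subset.refl _) hp
  have e4 : sel R (a ^ b).primeFactors 0 = p := by
    rw [Nat.primeFactors_pow _ (by omega)]
    exact e1
  have e5 : sel R (a ^ b * b).primeFactors 0 = p := by
    rw [supp_same ha hb]
    exact e3
  have hB : b.factorization p ≠ 0 := (hpp.factorization_pos_of_dvd (by omega) hpb).ne'
  obtain ⟨-, -, -, h5, h6⟩ := hc a b ha hb h1 h2 h3 h4 p e1 e2 e3 e4 e5 (by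
    rw [Fw_single]
    exact hB)
  rw [Fw_single] at h5
  rw [Fw_single, Fw_single] at h6
  refine ⟨(hg.pow_dvd_iff_le_factorization hpa).mpr ?_, ?_⟩
  · change k + 1 ≤ (a.factorization p).factorization g at h5
    omega
  · change (a.factorization p).factorization g + (k + 1) ≤ (b.factorization p).factorization g at h6
    omega

end

/-- Both orders, all primes `g ≤ k`. -/
theorem strict_both (k : ℕ) : ∃ (r : ℕ) (c : ℕ → Fin r), ∀ a b : ℕ, 1 < a → 1 < b →
    c a = c b → c a = c (a * b) → c a = c (a ^ b) → c a = c (a ^ b * b) →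
    ∀ p ∈ (a * b).primeFactors, (((a * b).primeFactors.filter fun q => q < p).card = 0 ∨
      ((a * b).primeFactors.filter fun q => p < q).card = 0) → p ∣ b → a.factorization p ≠ 0 →
      ∀ g : ℕ, g.Prime → g ≤ k → g ^ k ∣ a.factorization p ∧
      (a.factorization p).factorization g + k < (b.factorization p).factorization g := by
  classical
  have h1 : ∀ g : Fin (k + 1), ∃ (r : ℕ) (c : ℕ → Fin r), (g : ℕ).Prime → ∀ a b : ℕ, 1 < a → 1 < b →
      c a = c b → c a = c (a * b) → c a = c (a ^ b) → c a = c (a ^ b * b) →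
      ∀ p ∈ (a * b).primeFactors, ((a * b).primeFactors.filter fun q => q < p).card = 0 →
      p ∣ b → a.factorization p ≠ 0 → (g : ℕ) ^ k ∣ a.factorization p ∧
      (a.factorization p).factorization g + k < (b.factorization p).factorization g := by
    intro g
    by_cases hg : (g : ℕ).Prime
    · obtain ⟨r, c, hc⟩ := strict_order (fun x y => x < y) (fun x => lt_irrefl x)
        (fun x y z => lt_trans) (fun x y => Nat.lt_or_gt_of_ne) g k hg
      exact ⟨r, c, fun _ => hc⟩
    · exact ⟨1, fun _ => 0, fun h => absurd h hg⟩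
  have h2 : ∀ g : Fin (k + 1), ∃ (r : ℕ) (c : ℕ → Fin r), (g : ℕ).Prime → ∀ a b : ℕ, 1 < a → 1 < b →
      c a = c b → c a = c (a * b) → c a = c (a ^ b) → c a = c (a ^ b * b) →
      ∀ p ∈ (a * b).primeFactors, ((a * b).primeFactors.filter fun q => p < q).card = 0 →
      p ∣ b → a.factorization p ≠ 0 → (g : ℕ) ^ k ∣ a.factorization p ∧
      (a.factorization p).factorization g + k < (b.factorization p).factorization g := by
    intro g
    by_cases hg : (g : ℕ).Prime
    · obtain ⟨r, c, hc⟩ := strict_order (fun x y => y < x) (fun x => lt_irrefl x)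
        (fun x y z h h' => lt_trans h' h) (fun x y h => (Nat.lt_or_gt_of_ne h).symm) g k hg
      exact ⟨r, c, fun _ => hc⟩
    · exact ⟨1, fun _ => 0, fun h => absurd h hg⟩
  choose r₁ c₁ hc₁ using h1
  choose r₂ c₂ hc₂ using h2
  let X := ((g : Fin (k + 1)) → Fin (r₁ g)) × ((g : Fin (k + 1)) → Fin (r₂ g))
  let f : ℕ → X := fun n => (fun g => c₁ g n, fun g => c₂ g n)
  refine ⟨Fintype.card X, fun n => Fintype.equivFin X (f n), ?_⟩
  intro a b ha hb e1 e2 e3 e4 p hp hpos hpb hpa g hg hgk
  have g1 : f a = f b := (Fintype.equivFin X).injective e1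
  have g2 : f a = f (a * b) := (Fintype.equivFin X).injective e2
  have g3 : f a = f (a ^ b) := (Fintype.equivFin X).injective e3
  have g4 : f a = f (a ^ b * b) := (Fintype.equivFin X).injective e4
  have q1 : ∀ {x y : ℕ}, f x = f y → ∀ g, c₁ g x = c₁ g y := fun h g => congrFun (congrArg (fun z => z.1) h) g
  have q2 : ∀ {x y : ℕ}, f x = f y → ∀ g, c₂ g x = c₂ g y := fun h g => congrFun (congrArg (fun z => z.2) h) g
  rcases hpos with h | h
  · exact hc₁ ⟨g, by omega⟩ hg a b ha hb (q1 g1 _) (q1 g2 _) (q1 g3 _) (q1 g4 _) p hp h hpb hpa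
  · exact hc₂ ⟨g, by omega⟩ hg a b ha hb (q2 g1 _) (q2 g2 _) (q2 g3 _) (q2 g4 _) p hp h hpb hpa

end PRF2
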